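import Pool.Graph.R_seed8.H68R3.HM7

set_option autoImplicit false

open MeasureTheory Filter Topology Set
open scoped ENNReal NNReal RealInnerProductSpace

/-!
A logarithmic Caccioppoli estimate for almost minimisers of the Morrey quotient.
-/

namespace Pool.Agent.H72.HM

open Pool.Agent.H68R3
open Pool.Agent.Helper533.Polar

variable {n : ℕ} {p : ℝ}

/-- pointwise inequality behind the logarithmic Caccioppoli estimate -/
theorem pointwise {V : Type*} [NormedAddCommGroup V] [NormedSpace ℝ V] (a b : V) (hp : 1 < p)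
    {κ y η : ℝ} (hκ : 0 < κ) (hy : κ ≤ y) (h0 : 0 ≤ η) (h1 : η ≤ 1) {m : ℕ} (hm : p ≤ m) :
    ‖a + (κ ^ p / (p - 1)) • ((m * η ^ (m - 1) * y ^ (1 - p)) • b +
      (η ^ m * ((1 - p) * y ^ (-p))) • a)‖ ^ p + κ ^ p * (η ^ m * ‖y⁻¹ • a‖ ^ p) ≤
      ‖a‖ ^ p + κ ^ p * ((m / (p - 1)) ^ p * ‖b‖ ^ p) := by
  have hy0 : 0 < y := hκ.trans_le hy
  have hp1 : 0 < p - 1 := by linarith
  have hp0 : 0 < p := by linarith
  have hm1 : 1 < m := by
    have : (1 : ℝ) < m := lt_of_lt_of_le hp hm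
    exact_mod_cast this
  set s : ℝ := κ ^ p * η ^ m * y ^ (-p) with hs
  have hyp : 0 < y ^ (-p) := Real.rpow_pos_of_pos hy0 _
  have hκp : 0 < κ ^ p := Real.rpow_pos_of_pos hκ _
  have hyp' : y ^ (1 - p) = y * y ^ (-p) := by
    rw [sub_eq_add_neg, Real.rpow_add hy0, Real.rpow_one]
  have hs0 : 0 ≤ s := by positivity
  have hκy : κ ^ p * y ^ (-p) ≤ 1 := by
    rw [Real.rpow_neg hy0.le, ← div_eq_mul_inv, div_le_one (by positivity)]
    exact Real.rpow_le_rpow hκ.le hy hp0.le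
  have hs1 : s ≤ 1 := by
    have h2 : η ^ m ≤ 1 := pow_le_one₀ h0 h1
    calc s = (κ ^ p * y ^ (-p)) * η ^ m := by rw [hs]; ring
      _ ≤ 1 * 1 := mul_le_mul hκy h2 (by positivity) (by norm_num)
      _ = 1 := one_mul 1
  have e0 : ‖y⁻¹ • a‖ ^ p = y ^ (-p) * ‖a‖ ^ p := by
    rw [norm_smul, norm_inv, Real.norm_eq_abs, abs_of_pos hy0, Real.mul_rpow (by positivity)
      (norm_nonneg _), Real.inv_rpow hy0.le, ← Real.rpow_neg hy0.le]
  have e1 : κ ^ p * (η ^ m * ‖y⁻¹ • a‖ ^ p) = s * ‖a‖ ^ p := by rw [e0, hs]; ring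
  rcases eq_or_lt_of_le h0 with h | h
  · have hs' : s = 0 := by rw [hs, ← h, zero_pow (by omega)]; ring
    rw [e1, hs', ← h, zero_pow (by omega : m ≠ 0), zero_pow (by omega : m - 1 ≠ 0)]
    simp only [mul_zero, zero_mul, zero_smul, add_zero, smul_zero]
    have : 0 ≤ κ ^ p * ((m / (p - 1)) ^ p * ‖b‖ ^ p) := by positivity
    linarith
  · set c : ℝ := m / (p - 1) * (y / η) with hc
    have hc0 : 0 ≤ c := by positivity
    have e2 : a + (κ ^ p / (p - 1)) • ((m * η ^ (m - 1) * y ^ (1 - p)) • b +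
        (η ^ m * ((1 - p) * y ^ (-p))) • a) = (1 - s) • a + s • (c • b) := by
      have hk1 : (κ ^ p / (p - 1)) * (η ^ m * ((1 - p) * y ^ (-p))) = -s := by
        rw [hs]; field_simp; ring
      have hk2 : (κ ^ p / (p - 1)) * (m * η ^ (m - 1) * y ^ (1 - p)) = s * c := by
        have : η ^ m = η ^ (m - 1) * η := by rw [← pow_succ]; congr 1; omega
        rw [hs, hc, hyp', this]; field_simp
      rw [smul_add, smul_smul, smul_smul, hk1, hk2, smul_smul, sub_smul, one_smul, neg_smul]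
      abel
    rw [e2, e1]
    have h3 : ‖(1 - s) • a + s • (c • b)‖ ≤ (1 - s) * ‖a‖ + s * ‖c • b‖ := by
      refine (norm_add_le _ _).trans (le_of_eq ?_)
      rw [norm_smul, norm_smul, Real.norm_eq_abs, Real.norm_eq_abs, abs_of_nonneg hs0,
        abs_of_nonneg (by linarith)]
    have h4 : ‖(1 - s) • a + s • (c • b)‖ ^ p ≤ (1 - s) * ‖a‖ ^ p + s * ‖c • b‖ ^ p := by
      refine (Real.rpow_le_rpow (norm_nonneg _) h3 hp0.le).trans ?_
      have := (convexOn_rpow hp.le).2 (mem_Ici.2 (norm_nonneg a)) (mem_Ici.2 (norm_nonneg (c • b)))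
        (sub_nonneg.2 hs1) hs0 (by ring)
      simpa only [smul_eq_mul] using this
    have h5 : s * ‖c • b‖ ^ p ≤ κ ^ p * ((m / (p - 1)) ^ p * ‖b‖ ^ p) := by
      have h6 : ‖c • b‖ ^ p = (m / (p - 1)) ^ p * (y ^ p * η ^ (-p)) * ‖b‖ ^ p := by
        rw [norm_smul, Real.norm_eq_abs, abs_of_nonneg hc0, hc, Real.mul_rpow (by positivity)
          (norm_nonneg _), Real.mul_rpow (by positivity) (by positivity),
          Real.div_rpow hy0.le h.le, Real.rpow_neg h.le, div_eq_mul_inv (y ^ p)]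
      have h7 : y ^ (-p) * y ^ p = 1 := by
        rw [← Real.rpow_add hy0, neg_add_cancel, Real.rpow_zero]
      have h8 : η ^ m * η ^ (-p) ≤ 1 := by
        rw [← Real.rpow_natCast η m, ← Real.rpow_add h]
        exact Real.rpow_le_one h.le h1 (by linarith)
      have h9 : s * ‖c • b‖ ^ p =
          κ ^ p * ((m / (p - 1)) ^ p * ‖b‖ ^ p) * (y ^ (-p) * y ^ p) * (η ^ m * η ^ (-p)) := by
        rw [h6, hs]; ring
      rw [h9, h7, mul_one]
      exact mul_le_of_le_one_right (by positivity) h8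
    linarith

/-- competitors in Morrey's inequality -/
structure Comp (φ : Sp n → ℝ) (e : Sp n) : Prop where
  cc : Cc univ φ
  zero : φ 0 = 0
  unit : ‖e‖ = 1
  one : φ e = 1

/-- the infimum of the energies of the competitors -/
noncomputable def mor (n : ℕ) (p : ℝ) : ℝ≥0∞ :=
  ⨅ (φ : Sp n → ℝ) (e : Sp n) (_ : Comp φ e), En p (gradient φ)

theorem mor_le {φ : Sp n → ℝ} {e : Sp n} (h : Comp φ e) : mor n p ≤ En p (gradient φ) :=
  iInf₂_le_of_le φ e (iInf_le _ h)

/-- the logarithmic Caccioppoli estimate -/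
theorem log_cacc (hp : 1 < p) {v : Sp n → ℝ} {e : Sp n} (hv : Comp v e) (h0 : ∀ x, 0 ≤ v x)
    {δ : ℝ≥0∞} (hE : En p (gradient v) ≤ mor n p + δ) {κ : ℝ} (hκ : 0 < κ)
    {η : Sp n → ℝ} (hη : Cc univ η) (η0 : ∀ x, 0 ≤ η x) (η1 : ∀ x, η x ≤ 1) (h0' : η 0 = 0)
    (he' : η e = 0) {m : ℕ} (hm : p ≤ m) :
    ENNReal.ofReal (κ ^ p) * ∫⁻ x, ENNReal.ofReal (η x ^ m * ‖(v x + κ)⁻¹ • gradient v x‖ ^ p) ≤
      δ + ENNReal.ofReal (κ ^ p) * (ENNReal.ofReal ((m / (p - 1)) ^ p) * En p (gradient η)) := by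
  have hp0 : 0 < p := by linarith
  have hm1 : 1 < m := by
    have : (1 : ℝ) < m := lt_of_lt_of_le hp hm
    exact_mod_cast this
  set t : ℝ := κ ^ p / (p - 1) with ht
  set ζ : Sp n → ℝ := fun x => η x ^ m * (v x + κ) ^ (1 - p) with hζ
  have hpos : ∀ x, 0 < v x + κ := fun x => by have := h0 x; linarith
  have hsm1 : ContDiff ℝ (⊤ : ℕ∞) fun x => (v x + κ) ^ (1 - p) :=
    (hv.cc.smooth.add contDiff_const).rpow_const_of_ne fun x => (hpos x).ne'
  have hηm : Cc univ fun x => η x ^ m := by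
    refine ⟨hη.smooth.pow m, ?_, subset_univ _⟩
    refine hη.comp.comp_left (g := fun y : ℝ => y ^ m) ?_
    exact zero_pow (by omega)
  have hζc : Cc univ ζ := hηm.mul_smooth hsm1
  have hg1 : ∀ x, gradient (fun x => η x ^ m) x = (m * η x ^ (m - 1)) • gradient η x := by
    intro x
    rw [grad_comp (β := fun y : ℝ => y ^ m) (hη.diff x) (by fun_prop)]
    simp
  have hg2 : ∀ x, gradient (fun x => (v x + κ) ^ (1 - p)) x =
      ((1 - p) * (v x + κ) ^ (-p)) • gradient v x := by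
    intro x
    have hd : HasDerivAt (fun y : ℝ => (y + κ) ^ (1 - p)) ((1 - p) * (v x + κ) ^ (-p)) (v x) := by
      have := ((hasDerivAt_id (v x)).add_const κ).rpow_const (p := 1 - p) (Or.inl (hpos x).ne')
      refine HasDerivAt.congr_deriv this ?_
      rw [show 1 - p - 1 = -p by ring]
      simp only [id_eq]
      ring
    rw [grad_comp (β := fun y : ℝ => (y + κ) ^ (1 - p)) (hv.cc.diff x) hd.differentiableAt,
      hd.deriv]
  have hgζ : ∀ x, gradient ζ x = (m * η x ^ (m - 1) * (v x + κ) ^ (1 - p)) • gradient η x +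
      (η x ^ m * ((1 - p) * (v x + κ) ^ (-p))) • gradient v x := by
    intro x
    rw [hζ, grad_mul (hηm.diff x) (hsm1.differentiable (by simp) x), hg1, hg2, smul_smul,
      smul_smul, add_comm]
    congr 2
    ring
  set w : Sp n → ℝ := fun x => v x + t * ζ x with hw
  have hwc : Comp w e := by
    refine ⟨hv.cc.add (hζc.const_mul t), ?_, hv.unit, ?_⟩
    · simp only [w, ζ]
      rw [h0', hv.zero, zero_pow (by omega)]; ring
    · simp only [w, ζ]
      rw [he', hv.one, zero_pow (by omega)]; ring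
  have hgw : ∀ x, gradient w x = gradient v x + t • ((m * η x ^ (m - 1) *
      (v x + κ) ^ (1 - p)) • gradient η x +
      (η x ^ m * ((1 - p) * (v x + κ) ^ (-p))) • gradient v x) := by
    intro x
    rw [hw, grad_add (hv.cc.diff x) ((hζc.const_mul t).diff x), grad_const_mul t (hζc.diff x), hgζ]
  have hpt : ∀ x, ‖gradient w x‖ ^ p + κ ^ p * (η x ^ m * ‖(v x + κ)⁻¹ • gradient v x‖ ^ p) ≤
      ‖gradient v x‖ ^ p + κ ^ p * ((m / (p - 1)) ^ p * ‖gradient η x‖ ^ p) := by
    intro x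
    rw [hgw]
    exact pointwise _ _ hp hκ (by have := h0 x; linarith) (η0 x) (η1 x) hm
  have hp1 : 0 < p - 1 := by linarith
  have hcw : Continuous (gradient w) := hwc.cc.cont_grad
  have hcv : Continuous (gradient v) := hv.cc.cont_grad
  have hconv : ∀ W : Sp n → Sp n, En p W = ∫⁻ x, ENNReal.ofReal (‖W x‖ ^ p) := by
    intro W
    unfold En
    refine lintegral_congr fun x => ?_
    rw [← ofReal_norm, ENNReal.ofReal_rpow_of_nonneg (norm_nonneg _) hp0.le]
  have hmw : Measurable fun x => ENNReal.ofReal (‖gradient w x‖ ^ p) :=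
    (hcw.norm.measurable.pow_const p).ennreal_ofReal
  have hmv : Measurable fun x => ENNReal.ofReal (‖gradient v x‖ ^ p) :=
    (hcv.norm.measurable.pow_const p).ennreal_ofReal
  have hint : En p (gradient w) + ENNReal.ofReal (κ ^ p) *
      ∫⁻ x, ENNReal.ofReal (η x ^ m * ‖(v x + κ)⁻¹ • gradient v x‖ ^ p) ≤
      En p (gradient v) + ENNReal.ofReal (κ ^ p) *
        (ENNReal.ofReal ((m / (p - 1)) ^ p) * En p (gradient η)) := by
    rw [hconv, hconv, hconv, ← lintegral_const_mul' _ _ ENNReal.ofReal_ne_top,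
      ← lintegral_const_mul' _ _ ENNReal.ofReal_ne_top,
      ← lintegral_const_mul' _ _ ENNReal.ofReal_ne_top, ← lintegral_add_left hmw,
      ← lintegral_add_left hmv]
    refine lintegral_mono fun x => ?_
    simp only
    have hη0 := η0 x
    rw [← ENNReal.ofReal_mul (by positivity), ← ENNReal.ofReal_mul (by positivity),
      ← ENNReal.ofReal_mul (by positivity), ← ENNReal.ofReal_add (by positivity) (by positivity),
      ← ENNReal.ofReal_add (by positivity) (by positivity)]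
    exact ENNReal.ofReal_le_ofReal (hpt x)
  have hfin : mor n p ≠ ∞ :=
    ne_of_lt ((mor_le hv).trans_lt (lt_top_iff_ne_top.2 (Cc_En_ne_top hp0 hv.cc)))
  have h3 := (add_le_add_left (mor_le (p := p) hwc) _).trans hint
  have h4 := h3.trans (add_le_add_left hE _)
  rw [add_assoc] at h4
  exact (ENNReal.add_le_add_iff_left hfin).1 h4

end Pool.Agent.H72.HM
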