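import Pool.Agent.H72.HM.A1

set_option autoImplicit false

open MeasureTheory Filter Topology Set
open scoped ENNReal NNReal RealInnerProductSpace

/-!
Almost minimisers of the Morrey quotient have no further zeros (Harnack's inequality).
-/

namespace Pool.Agent.H72.HM

open Pool.Agent.H68R3
open Pool.Agent.Helper533.Polar

variable {n : ℕ} {p : ℝ}

/-- Morrey's inequality on a ball -/
theorem morrey_loc (hn : 1 ≤ n) (hp : (n : ℝ) < p) : ∃ C : ℝ≥0∞, C ≠ ∞ ∧
    ∀ φ : Sp n → ℝ, ContDiff ℝ 1 φ → ∀ F : Sp n → ℝ≥0∞, Measurable F → ∀ x y, x ≠ y →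
      (∀ z ∈ Metric.closedBall x ‖x - y‖, ‖gradient φ z‖ₑ ^ p ≤ F z) →
      ‖φ x - φ y‖ₑ ≤ C * (ENNReal.ofReal (‖x - y‖ ^ (p - n)) * ∫⁻ z, F z) ^ (1 / p) := by
  have hn' : (1 : ℝ) ≤ n := by exact_mod_cast hn
  have hp0 : 0 < p := by linarith
  obtain ⟨C, hC, h⟩ := Pool.Agent.Helper795.LusinN.morrey_abstract (volume : Measure (Sp n))
    (p := p) (by rw [finrank_euclideanSpace_fin]; exact hp) (by linarith) one_pos
  refine ⟨C, hC, fun φ hφ F hF x y hxy hFz => ?_⟩
  set t : ℝ := ‖x - y‖ with ht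
  have ht0 : 0 < t := norm_pos_iff.2 (sub_ne_zero.2 hxy)
  set w : Sp n → ℝ := fun z => φ (x + t • z) with hw
  have hwc : ContDiff ℝ 1 w := by
    refine hφ.comp ?_
    fun_prop
  have hg : ∀ z, ‖gradient w z‖ₑ = ‖fderiv ℝ w z‖ₑ := fun z => enorm_gradient_eq w z
  have hgc : Continuous (gradient w) :=
    ((InnerProductSpace.toDual ℝ (Sp n)).symm.continuous).comp (hwc.continuous_fderiv (by norm_num))
  have key := h (fun z => ‖gradient w z‖ₑ) w hgc.measurable.enorm (by
    intro a _ b _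
    have hd : ∀ s ∈ uIcc (0:ℝ) 1, HasDerivAt (fun s : ℝ => w (a + s • (b - a)))
        (fderiv ℝ w (a + s • (b - a)) (b - a)) s := by
      intro s _
      have h1 : HasDerivAt (fun s : ℝ => a + s • (b - a)) ((1:ℝ) • (b - a)) s :=
        ((hasDerivAt_id s).smul_const (b - a)).const_add a
      rw [one_smul] at h1
      exact ((hwc.differentiable (by norm_num)) _).hasFDerivAt.comp_hasDerivAt s h1
    have hcd : Continuous fun s : ℝ => fderiv ℝ w (a + s • (b - a)) (b - a) := by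
      have h1 : Continuous (fderiv ℝ w) := hwc.continuous_fderiv (by norm_num)
      exact (h1.comp (by fun_prop)).clm_apply continuous_const
    have h2 := intervalIntegral.integral_eq_sub_of_hasDerivAt hd (hcd.intervalIntegrable 0 1)
    simp only [one_smul, zero_smul, add_zero, add_sub_cancel] at h2
    rw [← neg_sub, enorm_neg, ← h2, intervalIntegral.integral_of_le zero_le_one]
    refine (enorm_integral_le_lintegral_enorm _).trans ?_
    rw [setLIntegral_congr Ioo_ae_eq_Ioc.symm]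
    refine lintegral_mono fun s => ?_
    rw [hg]
    exact ContinuousLinearMap.le_opENorm _ _) 0 (by simp) (t⁻¹ • (y - x)) (by
      simp only [Metric.mem_closedBall, dist_zero_right, norm_smul, norm_inv, Real.norm_eq_abs,
        abs_of_pos ht0]
      rw [← norm_neg (y - x), neg_sub, ← ht, inv_mul_cancel₀ ht0.ne'])
  have e1 : w 0 = φ x := by simp [hw]
  have e2 : w (t⁻¹ • (y - x)) = φ y := by
    simp only [hw]
    rw [smul_smul, mul_inv_cancel₀ ht0.ne', one_smul, add_sub_cancel]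
  rw [e1, e2] at key
  refine key.trans ?_
  refine mul_le_mul_right (ENNReal.rpow_le_rpow ?_ (by positivity)) _
  have h3 := Pool.Agent.Helper795.LusinN.lintegral_homothety (volume : Measure (Sp n)) ht0 x hF
  calc ∫⁻ z in Metric.closedBall (0 : Sp n) 1, ‖gradient w z‖ₑ ^ p
      ≤ ∫⁻ z in Metric.closedBall (0 : Sp n) 1, ENNReal.ofReal (t ^ p) * F (x + t • z) := by
        refine setLIntegral_mono' Metric.isClosed_closedBall.measurableSet fun z hz => ?_
        rw [gradient_affine (hφ.differentiable (by norm_num)) x t z, enorm_smul,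
          ENNReal.mul_rpow_of_nonneg _ _ hp0.le, Real.enorm_eq_ofReal_abs, abs_of_pos ht0,
          ENNReal.ofReal_rpow_of_nonneg ht0.le hp0.le]
        refine mul_le_mul_right (hFz _ ?_) _
        simp only [Metric.mem_closedBall, dist_zero_right] at hz
        simp only [Metric.mem_closedBall, dist_eq_norm, add_sub_cancel_left, norm_smul,
          Real.norm_eq_abs, abs_of_pos ht0]
        nlinarith
    _ ≤ ∫⁻ z, ENNReal.ofReal (t ^ p) * F (x + t • z) := setLIntegral_le_lintegral _ _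
    _ = ENNReal.ofReal (t ^ (p - n)) * ∫⁻ z, F z := by
        rw [lintegral_const_mul' _ _ ENNReal.ofReal_ne_top, h3, finrank_euclideanSpace_fin,
          ← mul_assoc, ← ENNReal.ofReal_mul (by positivity)]
        congr 2
        rw [Real.rpow_sub ht0, Real.rpow_natCast]
        rfl

/-- Harnack's inequality for almost minimisers -/
theorem harnack_quant (hn : 1 ≤ n) (hp : (n : ℝ) < p) (y₀ : Sp n) {r : ℝ} (hr : 0 < r) :
    ∃ L : ℝ, 0 ≤ L ∧ ∀ (v : Sp n → ℝ) (e : Sp n) (κ δ : ℝ), Comp v e → (∀ x, 0 ≤ v x) → 0 < κ →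
      0 ≤ δ → δ ≤ κ ^ p → En p (gradient v) ≤ mor n p + ENNReal.ofReal δ → 4 * r ≤ ‖y₀‖ →
      4 * r ≤ ‖e - y₀‖ → ∀ a ∈ Metric.ball y₀ r, ∀ b ∈ Metric.ball y₀ r,
        v a + κ ≤ Real.exp L * (v b + κ) := by
  have hn' : (1 : ℝ) ≤ n := by exact_mod_cast hn
  have hp0 : 0 < p := by linarith
  have hp1 : 1 < p := by linarith
  obtain ⟨C, hC, hmor⟩ := morrey_loc hn hp
  obtain ⟨η, hη, η01, W, hW, hKW, -, hη1⟩ := exists_cutoff
    (isCompact_closedBall y₀ (3 * r)) (Metric.isOpen_ball (x := y₀) (ε := 4 * r))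
    (Metric.closedBall_subset_ball (by linarith))
  obtain ⟨m, hm⟩ := exists_nat_ge p
  set A : ℝ≥0∞ := ENNReal.ofReal ((m / (p - 1)) ^ p) * En p (gradient η) with hA
  have hAt : A ≠ ∞ := ENNReal.mul_ne_top ENNReal.ofReal_ne_top (Cc_En_ne_top hp0 hη)
  set B : ℝ≥0∞ := C * (ENNReal.ofReal ((2 * r) ^ (p - n)) * (1 + A)) ^ (1 / p) with hB
  have hBt : B ≠ ∞ := ENNReal.mul_ne_top hC (ENNReal.rpow_ne_top_of_nonneg (by positivity)
    (ENNReal.mul_ne_top ENNReal.ofReal_ne_top (ENNReal.add_ne_top.2 ⟨ENNReal.one_ne_top, hAt⟩)))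
  refine ⟨B.toReal, ENNReal.toReal_nonneg, ?_⟩
  intro v e κ δ hv h0 hκ hδ0 hδ hE hy1 hy2 a ha b hb
  have hpos : ∀ x, 0 < v x + κ := fun x => by have := h0 x; linarith
  have hκp : 0 < κ ^ p := Real.rpow_pos_of_pos hκ _
  have h1 := log_cacc hp1 hv h0 hE hκ (hη.mono (subset_univ _)) (fun x => (η01 x).1)
    (fun x => (η01 x).2) (zero_of_notMem fun h' => by
      have := hη.supp h'
      rw [Metric.mem_ball, dist_eq_norm, zero_sub, norm_neg] at this
      linarith) (zero_of_notMem fun h' => by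
      have := hη.supp h'
      rw [Metric.mem_ball, dist_eq_norm] at this
      linarith) hm
  rw [← hA] at h1
  set F : Sp n → ℝ≥0∞ := fun x => ENNReal.ofReal (η x ^ m * ‖(v x + κ)⁻¹ • gradient v x‖ ^ p) with hF
  have hI : ∫⁻ x, F x ≤ 1 + A := by
    have h2 : ENNReal.ofReal (κ ^ p) * ∫⁻ x, F x ≤ ENNReal.ofReal (κ ^ p) * (1 + A) := by
      refine h1.trans ?_
      rw [mul_add, mul_one]
      exact add_le_add_left (ENNReal.ofReal_le_ofReal hδ) _
    exact (ENNReal.mul_le_mul_iff_right (ENNReal.ofReal_pos.2 hκp).ne' ENNReal.ofReal_ne_top).1 h2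
  rcases eq_or_ne a b with rfl | hab
  · have := hpos a
    have h2 : 1 ≤ Real.exp B.toReal := Real.one_le_exp ENNReal.toReal_nonneg
    nlinarith
  have hsm : ContDiff ℝ (⊤ : ℕ∞) fun x => Real.log (v x + κ) :=
    (hv.cc.smooth.add contDiff_const).log fun x => (hpos x).ne'
  have hgw : ∀ x, gradient (fun x => Real.log (v x + κ)) x = (v x + κ)⁻¹ • gradient v x := by
    intro x
    have hd : HasDerivAt (fun y : ℝ => Real.log (y + κ)) ((v x + κ)⁻¹) (v x) := by
      have := ((hasDerivAt_id (v x)).add_const κ).log (hpos x).ne'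
      simpa using this
    rw [grad_comp (β := fun y : ℝ => Real.log (y + κ)) (hv.cc.diff x) hd.differentiableAt, hd.deriv]
  have hFm : Measurable F := by
    have c1 := hη.cont
    have c2 := hv.cc.cont
    have c3 := hv.cc.cont_grad
    have c4 : Continuous fun x => (v x + κ)⁻¹ • gradient v x :=
      ((c2.add continuous_const).inv₀ fun x => (hpos x).ne').smul c3
    exact ((c1.pow m).measurable.mul (c4.norm.measurable.pow_const p)).ennreal_ofReal
  have hdab : ‖a - b‖ ≤ 2 * r := by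
    rw [← dist_eq_norm]
    have := dist_triangle_right a b y₀
    rw [Metric.mem_ball] at ha hb
    linarith
  have h3 := hmor _ (hsm.of_le (by exact_mod_cast le_top)) F hFm a b hab (by
    intro z hz
    have hz3 : z ∈ Metric.closedBall y₀ (3 * r) := by
      rw [Metric.mem_closedBall] at hz ⊢
      have := dist_triangle z a y₀
      rw [Metric.mem_ball] at ha
      linarith
    rw [hgw, ← ofReal_norm, ENNReal.ofReal_rpow_of_nonneg (norm_nonneg _) hp0.le, hF]
    simp only
    rw [hη1 z (hKW hz3), one_pow, one_mul])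
  have h4 : ‖Real.log (v a + κ) - Real.log (v b + κ)‖ₑ ≤ B := by
    refine h3.trans (mul_le_mul_right (ENNReal.rpow_le_rpow ?_ (by positivity)) _)
    refine mul_le_mul' (ENNReal.ofReal_le_ofReal ?_) hI
    exact Real.rpow_le_rpow (norm_nonneg _) hdab (by linarith)
  rw [Real.enorm_eq_ofReal_abs, ← ENNReal.ofReal_toReal hBt,
    ENNReal.ofReal_le_ofReal_iff ENNReal.toReal_nonneg] at h4
  have h5 : Real.log (v a + κ) ≤ B.toReal + Real.log (v b + κ) := by
    have := le_abs_self (Real.log (v a + κ) - Real.log (v b + κ))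
    linarith
  calc v a + κ = Real.exp (Real.log (v a + κ)) := (Real.exp_log (hpos a)).symm
    _ ≤ Real.exp (B.toReal + Real.log (v b + κ)) := Real.exp_le_exp.2 h5
    _ = Real.exp B.toReal * (v b + κ) := by rw [Real.exp_add, Real.exp_log (hpos b)]

/-- Morrey's inequality, real form -/
theorem morreyS (hn : 1 ≤ n) (hp : (n : ℝ) < p) : ∃ K : ℝ, 0 < K ∧
    ∀ φ : Sp n → ℝ, ContDiff ℝ 1 φ → ∀ E : ℝ, 0 ≤ E → En p (gradient φ) ≤ ENNReal.ofReal E →
      ∀ x y, |φ x - φ y| ≤ K * (‖x - y‖ ^ (p - n) * E) ^ (1 / p) := by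
  have hn' : (1 : ℝ) ≤ n := by exact_mod_cast hn
  have hp0 : 0 < p := by linarith
  obtain ⟨C, hC, h⟩ := morrey hn hp
  refine ⟨C.toReal + 1, by positivity, fun φ hφ E hE hEW x y => ?_⟩
  have h5 : ‖φ x - φ y‖ₑ ≤ ENNReal.ofReal (C.toReal * (‖x - y‖ ^ (p - n) * E) ^ (1 / p)) := by
    refine (h φ hφ x y).trans ?_
    rw [ENNReal.ofReal_mul ENNReal.toReal_nonneg, ENNReal.ofReal_toReal hC]
    refine mul_le_mul_right ?_ _
    rw [← ENNReal.ofReal_rpow_of_nonneg (p := 1 / p) (by positivity) (by positivity),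
      ENNReal.ofReal_mul (by positivity)]
    exact ENNReal.rpow_le_rpow (mul_le_mul_right hEW _) (by positivity)
  rw [Real.enorm_eq_ofReal_abs, ENNReal.ofReal_le_ofReal_iff (by positivity)] at h5
  refine h5.trans ?_
  have h8 : 0 ≤ (‖x - y‖ ^ (p - n) * E) ^ (1 / p) := by positivity
  nlinarith

theorem exists_ult {ι X : Type*} [TopologicalSpace X] {K : Set X} (hK : IsCompact K)
    (U : Ultrafilter ι) (f : ι → X) (hf : ∀ i, f i ∈ K) : ∃ x ∈ K, Tendsto f U (𝓝 x) := by
  obtain ⟨x, hx, h⟩ := hK.ultrafilter_le_nhds' (U.map f)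
    (by rw [Ultrafilter.mem_map]; exact Filter.univ_mem' hf)
  exact ⟨x, hx, h⟩

/-- almost minimisers have no zeros in a shell around the origin -/
theorem no_zero (hn : 2 ≤ n) (hp : (n : ℝ) < p) {η₀ : ℝ} (hη₀ : 0 < η₀) (R : ℝ) :
    ∃ δ : ℝ, 0 < δ ∧ ∀ (v : Sp n → ℝ) (e z : Sp n), Comp v e → (∀ x, 0 ≤ v x) →
      (∀ x, v x ≤ 1) → η₀ ≤ ‖z‖ → ‖z‖ ≤ R → v z = 0 →
      mor n p + ENNReal.ofReal δ < En p (gradient v) := by
  by_contra hcon
  push Not at hcon
  have hn1 : 1 ≤ n := by omega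
  have hn' : (1 : ℝ) ≤ n := by exact_mod_cast hn1
  have hp0 : 0 < p := by linarith
  have hd : ∀ j : ℕ, 0 < 1 / ((j : ℝ) + 1) := fun j => by positivity
  choose v e z hv h0 h1 hz1 hz2 hvz hE using fun j : ℕ => hcon (1 / ((j : ℝ) + 1)) (hd j)
  set U : Ultrafilter ℕ := Filter.hyperfilter ℕ with hU
  have hUat : (U : Filter ℕ) ≤ atTop := 
    Filter.hyperfilter_le_cofinite.trans Nat.cofinite_eq_atTop.le
  -- limits
  obtain ⟨e₀, he₀, hel⟩ := exists_ult (isCompact_sphere (0 : Sp n) 1) U e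
    (fun j => by rw [mem_sphere_zero_iff_norm]; exact (hv j).unit)
  obtain ⟨z₀, -, hzl⟩ := exists_ult (isCompact_closedBall (0 : Sp n) R) U z
    (fun j => by rw [mem_closedBall_zero_iff]; exact hz2 j)
  choose u hu01 hul using fun x => exists_ult (isCompact_Icc (a := (0:ℝ)) (b := 1)) U
    (fun j => v j x) (fun j => ⟨h0 j x, h1 j x⟩)
  rw [mem_sphere_zero_iff_norm] at he₀
  -- equicontinuity
  have hfin : mor n p ≠ ∞ :=
    ne_of_lt ((mor_le (hv 0)).trans_lt (lt_top_iff_ne_top.2 (Cc_En_ne_top hp0 (hv 0).cc)))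
  set M : ℝ := (mor n p).toReal + 1 with hM
  have hM0 : 0 ≤ M := by positivity
  have hEM : ∀ j, En p (gradient (v j)) ≤ ENNReal.ofReal M := by
    intro j
    refine (hE j).trans ?_
    rw [hM, ENNReal.ofReal_add ENNReal.toReal_nonneg one_pos.le, ENNReal.ofReal_toReal hfin]
    refine add_le_add_right (ENNReal.ofReal_le_ofReal ?_) _
    rw [div_le_one (by positivity)]
    have : (0:ℝ) ≤ j := by positivity
    linarith
  obtain ⟨K, hK, hmorr⟩ := morreyS hn1 hp
  have hequi : ∀ δ : ℝ, 0 < δ → ∃ τ : ℝ, 0 < τ ∧ ∀ j x y, dist x y < τ → |v j x - v j y| ≤ δ := by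
    intro δ hδ
    obtain ⟨τ, hτ, hm⟩ := modulus (n := n) hp hp0 (K := K) (M := M) hδ
    refine ⟨τ, hτ, fun j x y hxy => ?_⟩
    rw [dist_eq_norm] at hxy
    exact (hmorr _ ((hv j).cc.smooth.of_le (by exact_mod_cast le_top)) M hM0 (hEM j) x y).trans
      (hm _ (norm_nonneg _) hxy).le
  have huc : Continuous u := by
    rw [Metric.continuous_iff]
    intro y δ hδ
    obtain ⟨τ, hτ, h⟩ := hequi (δ / 2) (by positivity)
    refine ⟨τ, hτ, fun x hx => ?_⟩
    have h2 : |u x - u y| ≤ δ / 2 :=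
      le_of_tendsto ((hul x).sub (hul y)).abs (Eventually.of_forall fun j => h j x y hx)
    rw [Real.dist_eq]
    linarith
  -- values at the special points
  have hval : ∀ (x : ℕ → Sp n) (x₀ : Sp n) (c : ℝ), Tendsto x U (𝓝 x₀) → (∀ j, v j (x j) = c) →
      u x₀ = c := by
    intro x x₀ c hx hc
    refine eq_of_forall_dist_le fun δ hδ => ?_
    obtain ⟨τ, hτ, h⟩ := hequi δ hδ
    have h2 : ∀ᶠ j in (U : Filter ℕ), |v j x₀ - c| ≤ δ := by
      filter_upwards [(Metric.tendsto_nhds.1 hx) τ hτ] with j hj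
      rw [← hc j]
      rw [dist_comm] at hj
      exact h j _ _ hj
    rw [Real.dist_eq]
    exact le_of_tendsto ((hul x₀).sub_const c).abs h2
  have hu0 : u 0 = 0 := hval (fun _ => 0) 0 0 tendsto_const_nhds fun j => (hv j).zero
  have hue : u e₀ = 1 := hval e e₀ 1 hel fun j => (hv j).one
  have huz : u z₀ = 0 := hval z z₀ 0 hzl hvz
  have hz0 : z₀ ≠ 0 := by
    have h2 : η₀ ≤ ‖z₀‖ := ge_of_tendsto hzl.norm (Eventually.of_forall hz1)
    intro h3
    rw [h3, norm_zero] at h2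
    linarith
  have hze : z₀ ≠ e₀ := by
    intro h3
    rw [h3, hue] at huz
    exact one_ne_zero huz
  -- Harnack's inequality in the limit
  have hdl : Tendsto (fun j : ℕ => 1 / ((j : ℝ) + 1)) U (𝓝 0) :=
    tendsto_one_div_add_atTop_nhds_zero_nat.mono_left hUat
  have hharn : ∀ y₀ : Sp n, y₀ ≠ 0 → y₀ ≠ e₀ → u y₀ = 0 → ∀ᶠ a in 𝓝 y₀, u a = 0 := by
    intro y₀ hy1 hy2 hy3
    have hn1' : 0 < ‖y₀‖ := norm_pos_iff.2 hy1
    have hn2' : 0 < ‖e₀ - y₀‖ := norm_pos_iff.2 (sub_ne_zero.2 hy2.symm)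
    set r : ℝ := min ‖y₀‖ ‖e₀ - y₀‖ / 5 with hr
    have hr0 : 0 < r := by positivity
    have hr1 : 5 * r ≤ ‖y₀‖ := by
      have := min_le_left ‖y₀‖ ‖e₀ - y₀‖
      rw [hr]; linarith
    have hr2 : 5 * r ≤ ‖e₀ - y₀‖ := by
      have := min_le_right ‖y₀‖ ‖e₀ - y₀‖
      rw [hr]; linarith
    obtain ⟨L, hL, hq⟩ := harnack_quant hn1 hp y₀ hr0
    filter_upwards [Metric.ball_mem_nhds y₀ hr0] with a ha
    have hk : ∀ κ : ℝ, 0 < κ → u a + κ ≤ Real.exp L * (u y₀ + κ) := by
      intro κ hκ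
      have hκp : 0 < κ ^ p := Real.rpow_pos_of_pos hκ _
      have h5 : ∀ᶠ j in (U : Filter ℕ), 4 * r < ‖e j - y₀‖ :=
        (hel.sub_const y₀).norm.eventually (lt_mem_nhds (by linarith))
      refine le_of_tendsto_of_tendsto ((hul a).add_const κ)
        (((hul y₀).add_const κ).const_mul (Real.exp L)) ?_
      filter_upwards [h5, hdl.eventually (gt_mem_nhds hκp)] with j hj1 hj2
      exact hq (v j) (e j) κ _ (hv j) (h0 j) hκ (hd j).le hj2.le (hE j) (by linarith) hj1.le
        a ha y₀ (Metric.mem_ball_self hr0)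
    refine le_antisymm (le_of_forall_pos_le_add fun δ hδ => ?_) (hu01 a).1
    have hex : 0 < Real.exp L := Real.exp_pos L
    have h6 := hk (δ / Real.exp L) (by positivity)
    rw [hy3, zero_add, mul_div_cancel₀ _ hex.ne'] at h6
    have : 0 < δ / Real.exp L := by positivity
    linarith
  -- conclusion by connectedness
  have hrank : 1 < Module.rank ℝ (Sp n) := by
    rw [← Module.finrank_eq_rank, finrank_euclideanSpace_fin]
    exact_mod_cast hn
  have : Nontrivial (Sp n) := Module.nontrivial_of_finrank_pos (R := ℝ)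
    (by rw [finrank_euclideanSpace_fin]; omega)
  have hS : (({0, e₀} : Set (Sp n))).Countable := (Set.toFinite _).countable
  have hconn : IsPreconnected (({0, e₀} : Set (Sp n))ᶜ) :=
    (hS.isPathConnected_compl_of_one_lt_rank hrank).isConnected.isPreconnected
  have hdense : Dense (({0, e₀} : Set (Sp n))ᶜ) := hS.dense_compl ℝ
  have hsub : (({0, e₀} : Set (Sp n))ᶜ) ⊆ interior {x | u x = 0} := by
    refine hconn.subset_left_of_subset_union isOpen_interior
      (isOpen_compl_iff.2 (isClosed_eq huc continuous_const) : IsOpen ({x | u x = 0}ᶜ)) ?_ ?_ ?_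
    · exact disjoint_compl_right.mono_left interior_subset
    · intro x hx
      simp only [mem_compl_iff, mem_insert_iff, mem_singleton_iff, not_or] at hx
      by_cases hux : u x = 0
      · left
        exact mem_interior_iff_mem_nhds.2 (hharn x hx.1 hx.2 hux)
      · right; exact hux
    · refine ⟨z₀, ?_, mem_interior_iff_mem_nhds.2 (hharn z₀ hz0 hze huz)⟩
      simp only [mem_compl_iff, mem_insert_iff, mem_singleton_iff, not_or]
      exact ⟨hz0, hze⟩
  have hall : u = fun _ => 0 := by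
    refine Continuous.ext_on hdense huc continuous_const fun x hx => ?_
    exact (interior_subset (hsub hx) : x ∈ {x | u x = 0})
  rw [hall] at hue
  exact zero_ne_one hue

end Pool.Agent.H72.HM
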