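import Pool.Agent.H72.HM.A2

set_option autoImplicit false

open MeasureTheory Filter Topology Set
open scoped ENNReal NNReal RealInnerProductSpace

/-!
Localisation of the peaks for all exponents, and the upper bound.
-/

namespace Pool.Agent.H72.HM

open Pool.Agent.H68R3
open Pool.Agent.Helper533.Polar

variable {n : ℕ} {p : ℝ}

/-- smooth truncation from below and from above -/
theorem exists_trunc' {η : ℝ} (h0 : 0 < η) (h1 : η < 1 / 3) : ∃ β : ℝ → ℝ,
    ContDiff ℝ (⊤ : ℕ∞) β ∧ (∀ s, s ≤ η → β s = 0) ∧ (∀ s, 1 - η ≤ s → β s = 1) ∧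
      (∀ s, |deriv β s| ≤ (1 - 3 * η)⁻¹) ∧ (∀ s, 0 ≤ β s) ∧ ∀ s, β s ≤ 1 := by
  have h3 : 0 < 1 - 3 * η := by linarith
  set β : ℝ → ℝ := fun s => (1 - 3 * η)⁻¹ *
    (η * BB (η⁻¹ * (s - η)) - η * BB (η⁻¹ * (s - (1 - 2 * η)))) with hβ
  have hder : ∀ s, HasDerivAt β ((1 - 3 * η)⁻¹ *
      (Real.smoothTransition (η⁻¹ * (s - η)) -
        Real.smoothTransition (η⁻¹ * (s - (1 - 2 * η))))) s := by
    intro s
    have k1 : ∀ c : ℝ, HasDerivAt (fun s : ℝ => η * BB (η⁻¹ * (s - c)))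
        (Real.smoothTransition (η⁻¹ * (s - c))) s := by
      intro c
      have k2 : HasDerivAt (fun s : ℝ => η⁻¹ * (s - c)) (η⁻¹ * 1) s :=
        ((hasDerivAt_id s).sub_const c).const_mul _
      have k3 := ((BB_hasDerivAt (η⁻¹ * (s - c))).comp s k2).const_mul η
      refine k3.congr_deriv ?_
      field_simp
    exact ((k1 _).sub (k1 _)).const_mul _
  have hz : ∀ s, s ≤ η → β s = 0 := by
    intro s hs
    simp only [β]
    rw [BB_nonpos, BB_nonpos]
    · simp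
    · exact mul_nonpos_of_nonneg_of_nonpos (by positivity) (by linarith)
    · exact mul_nonpos_of_nonneg_of_nonpos (by positivity) (by linarith)
  have ho : ∀ s, 1 - η ≤ s → β s = 1 := by
    intro s hs
    simp only [β]
    rw [← mul_sub, BB_sub]
    · field_simp
      ring
    · rw [inv_mul_eq_div, one_le_div h0]; linarith
    · rw [inv_mul_eq_div, one_le_div h0]; linarith
  have hmono : Monotone β := by
    refine monotone_of_deriv_nonneg (fun s => (hder s).differentiableAt) fun s => ?_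
    rw [(hder s).deriv]
    refine mul_nonneg (inv_pos.2 h3).le (sub_nonneg.2 (Real.smoothTransition.monotone ?_))
    exact mul_le_mul_of_nonneg_left (by linarith) (by positivity)
  refine ⟨β, ?_, hz, ho, fun s => ?_, fun s => ?_, fun s => ?_⟩
  · have k1 := BB_contDiff
    have k2 : ∀ c : ℝ, ContDiff ℝ (⊤ : ℕ∞) fun s : ℝ => BB (η⁻¹ * (s - c)) := fun c =>
      k1.comp (contDiff_const.mul (contDiff_id.sub contDiff_const))
    exact contDiff_const.mul ((contDiff_const.mul (k2 _)).sub (contDiff_const.mul (k2 _)))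
  · rw [(hder s).deriv, abs_mul, abs_of_pos (inv_pos.2 h3)]
    refine mul_le_of_le_one_right (inv_pos.2 h3).le ?_
    have := Real.smoothTransition.nonneg (η⁻¹ * (s - η))
    have := Real.smoothTransition.le_one (η⁻¹ * (s - η))
    have := Real.smoothTransition.nonneg (η⁻¹ * (s - (1 - 2 * η)))
    have := Real.smoothTransition.le_one (η⁻¹ * (s - (1 - 2 * η)))
    rw [abs_le]
    constructor <;> linarith
  · rw [← hz (min s η) (min_le_right _ _)]
    exact hmono (min_le_left _ _)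
  · rw [← ho (max s (1 - η)) (le_max_right _ _)]
    exact hmono (le_max_left _ _)

/-- truncation and rescaling -/
theorem trunc_comp (hp : 0 < p) {φ : Sp n → ℝ} (hφ : Cc univ φ) {η : ℝ} (h0 : 0 < η)
    (h3 : η < 1 / 3) {x y : Sp n} {t : ℝ} (ht : 0 < t) (hxy : ‖x - y‖ = t) (hy : φ y ≤ η)
    (hx : 1 - η ≤ φ x) : ∃ v : Sp n → ℝ, Comp v (t⁻¹ • (x - y)) ∧ (∀ z, 0 ≤ v z) ∧
      (∀ z, v z ≤ 1) ∧ (∀ z, φ z ≤ η → v (t⁻¹ • (z - y)) = 0) ∧
      En p (gradient v) ≤ ENNReal.ofReal (t ^ (p - n) * ((1 - 3 * η)⁻¹) ^ p) *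
        En p (gradient φ) := by
  obtain ⟨β, hβ, hβ0, hβ1, hβd, hβn, hβl⟩ := exists_trunc' h0 h3
  have h3' : 0 < 1 - 3 * η := by linarith
  set φ₁ : Sp n → ℝ := fun z => φ (y + t • z) with hφ₁
  have hφ₁c : Cc univ φ₁ := (Cc_affine hφ y ht.ne').mono (subset_univ _)
  have hval : ∀ z, φ₁ (t⁻¹ • (z - y)) = φ z := by
    intro z
    simp only [φ₁]
    rw [smul_smul, mul_inv_cancel₀ ht.ne', one_smul, add_sub_cancel]
  set v : Sp n → ℝ := fun z => β (φ₁ z) with hv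
  have hvc : Cc univ v := ⟨hβ.comp hφ₁c.smooth, hφ₁c.comp.comp_left (hβ0 0 h0.le), subset_univ _⟩
  refine ⟨v, ⟨hvc, ?_, ?_, ?_⟩, fun z => hβn _, fun z => hβl _, fun z hz => ?_, ?_⟩
  · simp only [v, φ₁]
    rw [smul_zero, add_zero]
    exact hβ0 _ hy
  · rw [norm_smul, hxy, norm_inv, Real.norm_eq_abs, abs_of_pos ht, inv_mul_cancel₀ ht.ne']
  · simp only [v]
    rw [hval]
    exact hβ1 _ hx
  · simp only [v]
    rw [hval]
    exact hβ0 _ hz
  · have hE1 : En p (gradient φ₁) = ENNReal.ofReal (t ^ (p - n)) * En p (gradient φ) :=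
      En_affine hp (hφ.smooth.of_le (by exact_mod_cast le_top)) y ht
    have hle : ∀ z, ‖gradient v z‖ ≤ ‖(1 - 3 * η)⁻¹ • gradient φ₁ z‖ := by
      intro z
      rw [hv, grad_comp (hφ₁c.diff z) ((hβ.differentiable (by simp)) _), norm_smul, norm_smul,
        Real.norm_eq_abs, Real.norm_eq_abs, abs_of_pos (inv_pos.2 h3')]
      exact mul_le_mul_of_nonneg_right (hβd _) (norm_nonneg _)
    refine (En_mono hp hle).trans (le_of_eq ?_)
    rw [En_smul hp, abs_of_pos (inv_pos.2 h3'), hE1, ← mul_assoc,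
      ← ENNReal.ofReal_mul (by positivity), mul_comm (t ^ (p - n))]

theorem mor_ne_top (hn : 1 ≤ n) (hp : 0 < p) : mor n p ≠ ∞ := by
  have hx : ∃ x : Sp n, ‖x‖ = 1 := ⟨EuclideanSpace.single ⟨0, hn⟩ 1, by simp⟩
  obtain ⟨x, hx⟩ := hx
  obtain ⟨η, hη, η01, W, hW, hKW, -, h1⟩ := exists_cutoff (isCompact_singleton (x := x))
    (Metric.isOpen_ball (x := x) (ε := 1)) (by simp)
  have hc : Comp η x := ⟨hη.mono (subset_univ _), zero_of_notMem fun h' => by
    have := hη.supp h'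
    rw [Metric.mem_ball, dist_eq_norm, zero_sub, norm_neg, hx] at this
    exact lt_irrefl _ this, hx, h1 x (hKW rfl)⟩
  exact ne_of_lt ((mor_le hc).trans_lt (lt_top_iff_ne_top.2 (Cc_En_ne_top hp hc.cc)))

/-- choice of the truncation parameter -/
theorem exists_eta (hp : 0 < p) (Λ : ℝ) {a b : ℝ} (hab : a < b) : ∃ η : ℝ, 0 < η ∧ η < 1 / 3 ∧
    ((1 - 3 * η)⁻¹) ^ p * (Λ + a) < Λ + b := by
  have h1 : ContinuousAt (fun η : ℝ => ((1 - 3 * η)⁻¹) ^ p * (Λ + a)) 0 := by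
    have h2 : ContinuousAt (fun η : ℝ => (1 - 3 * η)⁻¹) 0 :=
      ContinuousAt.inv₀ (by fun_prop) (by norm_num)
    exact (h2.rpow_const (Or.inr hp.le)).mul continuousAt_const
  have h2 : ∀ᶠ η in 𝓝 (0:ℝ), ((1 - 3 * η)⁻¹) ^ p * (Λ + a) < Λ + b := by
    refine h1.eventually (gt_mem_nhds ?_)
    show ((1 - 3 * 0)⁻¹) ^ p * (Λ + a) < Λ + b
    rw [mul_zero, sub_zero, inv_one, Real.one_rpow, one_mul]
    linarith
  have h3 : ∀ᶠ η in 𝓝[>] (0:ℝ), ((1 - 3 * η)⁻¹) ^ p * (Λ + a) < Λ + b :=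
    nhdsWithin_le_nhds h2
  have h4 : ∀ᶠ η in 𝓝[>] (0:ℝ), η < 1 / 3 :=
    nhdsWithin_le_nhds (gt_mem_nhds (by norm_num : (0:ℝ) < 1 / 3))
  obtain ⟨η, h5⟩ := (h3.and (h4.and self_mem_nhdsWithin)).exists
  exact ⟨η, h5.2.2, h5.2.1, h5.1⟩

/-- localisation of the peaks, for all exponents -/
theorem localize' (hn : 2 ≤ n) (hp : (n : ℝ) < p) : ∃ δ : ℝ, 0 < δ ∧ ∀ (e : Sp n), ‖e‖ = 1 →
    ∀ (ε s : ℝ), 0 < ε → ε ≤ 1 / 16 → 0 ≤ s → s ≤ 1 → ∀ u W x, Dat p e ε s u W x →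
      FF p e ε s W x < ENNReal.ofReal ((mor n p).toReal + δ) →
      (‖x‖ ≤ 1 / 8 ∧ 2 * rA ε s < DD e ε s x) ∨
        (‖x - (1 / 2 : ℝ) • e‖ ≤ 1 / 8 ∧ 2 * rB ε s < DD e ε s x) := by
  have hn0 : (2:ℝ) ≤ n := by exact_mod_cast hn
  have hp0 : 0 < p := by linarith
  have hfin : mor n p ≠ ∞ := mor_ne_top (by omega) hp0
  obtain ⟨δ₁, hδ₁, hno⟩ := no_zero hn hp (η₀ := 1 / 2) (by norm_num) 32
  set Λ : ℝ := (mor n p).toReal with hΛ
  have hΛ0 : 0 ≤ Λ := ENNReal.toReal_nonneg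
  obtain ⟨η, hη0, hη3, hη⟩ := exists_eta hp0 Λ (a := δ₁ / 2) (b := δ₁) (by linarith)
  have h3η : 0 < 1 - 3 * η := by linarith
  refine ⟨δ₁ / 2, by positivity, ?_⟩
  intro e he ε s hε hε1 hs0 hs1 u W x hD hF
  set d : ℝ := DD e ε s x with hd
  have hd0 : 0 < d := hD.pos
  -- no further zeros
  have key : ∀ y z : Sp n, u y = 0 → u z = 0 → ‖x - y‖ = d → d / 2 ≤ ‖z - y‖ →
      ‖z - y‖ ≤ 32 * d → False := by
    intro y z hy hz hxy h1 h2
    obtain ⟨φ, hφ, hφu, hφE⟩ := hD.fe.moll (by omega) (by linarith) hη0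
    have hy' := (abs_le.1 (hφu y)).2
    have hz' := (abs_le.1 (hφu z)).2
    have hx' := (abs_le.1 (hφu x)).1
    rw [hy] at hy'
    rw [hz] at hz'
    rw [hD.one] at hx'
    obtain ⟨v, hv, hv0, hv1, hvz, hvE⟩ := trunc_comp hp0 hφ hη0 hη3 (x := x) (y := y) hd0 hxy
      (by linarith) (by linarith)
    have h3 := hno v _ (d⁻¹ • (z - y)) hv hv0 hv1 (by
      rw [norm_smul, norm_inv, Real.norm_eq_abs, abs_of_pos hd0, inv_mul_eq_div,
        le_div_iff₀ hd0]; linarith) (by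
      rw [norm_smul, norm_inv, Real.norm_eq_abs, abs_of_pos hd0, inv_mul_eq_div,
        div_le_iff₀ hd0]; linarith) (hvz z (by linarith))
    have h4 : En p (gradient v) ≤ ENNReal.ofReal (((1 - 3 * η)⁻¹) ^ p * (Λ + δ₁ / 2)) := by
      refine hvE.trans ?_
      rw [mul_comm (d ^ (p - n)), ENNReal.ofReal_mul (by positivity), mul_assoc,
        ENNReal.ofReal_mul (by positivity)]
      refine mul_le_mul_right ?_ _
      refine le_trans (mul_le_mul_right hφE _) ?_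
      exact hF.le
    have h5 : mor n p + ENNReal.ofReal δ₁ = ENNReal.ofReal (Λ + δ₁) := by
      rw [ENNReal.ofReal_add hΛ0 hδ₁.le, hΛ, ENNReal.ofReal_toReal hfin]
    rw [h5] at h3
    exact absurd (h3.trans_le (h4.trans (ENNReal.ofReal_le_ofReal hη.le))) (lt_irrefl _)
  have h1 := DD_le1 (e := e) (ε := ε) (s := s) (x := x)
  have h2 := DD_leA (e := e) (ε := ε) (s := s) (x := x)
  have h3 := DD_leB (e := e) (ε := ε) (s := s) (x := x)
  have hA := le_rA (ε := ε) (s := s)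
  have hB := le_rB (ε := ε) (s := s)
  have hA' := rA_le (ε := ε) (s := s) hε1 hs0
  have hB' := rB_le (ε := ε) (s := s) hε1 hs1
  have hout : ∀ y : Sp n, 1 ≤ ‖y‖ → u y = 0 := hD.fe.out
  have hb : ‖(1 / 2 : ℝ) • e‖ = 1 / 2 := by
    rw [norm_smul, he, Real.norm_eq_abs, abs_of_pos (by norm_num), mul_one]
  -- points on a ray
  have ray : ∀ (c : Sp n) (ρ ρ' : ℝ), 0 < ‖x - c‖ → 0 ≤ ρ' → u (c + (ρ / ‖x - c‖) • (x - c)) = 0 →
      u (c + (ρ' / ‖x - c‖) • (x - c)) = 0 → |‖x - c‖ - ρ| = d → d / 2 ≤ |ρ' - ρ| →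
      |ρ' - ρ| ≤ 32 * d → False := by
    intro c ρ ρ' hN _ hy hz k1 k2 k3
    have e1 : ‖x - (c + (ρ / ‖x - c‖) • (x - c))‖ = |‖x - c‖ - ρ| := by
      rw [show x - (c + (ρ / ‖x - c‖) • (x - c)) = (1 - ρ / ‖x - c‖) • (x - c) by
        rw [sub_smul, one_smul]; abel, norm_smul, Real.norm_eq_abs]
      rw [← abs_of_pos hN, ← abs_mul, abs_of_pos hN]
      congr 1
      field_simp
    have e2 : ‖c + (ρ' / ‖x - c‖) • (x - c) - (c + (ρ / ‖x - c‖) • (x - c))‖ = |ρ' - ρ| := by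
      rw [add_sub_add_left_eq_sub, ← sub_smul, ← sub_div, norm_smul, Real.norm_eq_abs, abs_div,
        abs_of_pos hN]
      field_simp
    exact key _ _ hy hz (by rw [e1, k1]) (by rw [e2]; exact k2) (by rw [e2]; exact k3)
  have rayn : ∀ (c : Sp n) (ρ : ℝ), 0 < ‖x - c‖ → 0 ≤ ρ →
      ‖c + (ρ / ‖x - c‖) • (x - c) - c‖ = ρ := by
    intro c ρ hN hρ
    rw [add_sub_cancel_left, norm_smul, Real.norm_eq_abs, abs_of_nonneg (by positivity)]
    field_simp
  have hcase : d = 1 - ‖x‖ ∨ d = ‖x‖ - rA ε s ∨ d = ‖x - (1 / 2 : ℝ) • e‖ - rB ε s := by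
    rw [hd]
    unfold DD
    rcases min_choice (1 - ‖x‖) (min (‖x‖ - rA ε s) (‖x - (1 / 2 : ℝ) • e‖ - rB ε s)) with h | h
    · exact Or.inl h
    · rcases min_choice (‖x‖ - rA ε s) (‖x - (1 / 2 : ℝ) • e‖ - rB ε s) with h' | h'
      · exact Or.inr (Or.inl (h.trans h'))
      · exact Or.inr (Or.inr (h.trans h'))
  have hN0 : 0 < ‖x - 0‖ := by rw [sub_zero]; linarith
  have hNb : 0 < ‖x - (1 / 2 : ℝ) • e‖ := by linarith
  have far : ∀ (c : Sp n) (ρ : ℝ), 0 < ‖x - c‖ → 0 ≤ ρ → 1 + ‖c‖ ≤ ρ →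
      u (c + (ρ / ‖x - c‖) • (x - c)) = 0 := by
    intro c ρ hN hρ hρc
    refine hout _ ?_
    have k1 := rayn c ρ hN hρ
    have k2 := norm_sub_le (c + (ρ / ‖x - c‖) • (x - c)) c
    linarith
  rcases hcase with h | h | h
  · exfalso
    refine ray 0 1 (1 + d) hN0 (by linarith) (far 0 1 hN0 (by norm_num) (by simp))
      (far 0 (1 + d) hN0 (by linarith) (by rw [norm_zero]; linarith)) ?_ ?_ ?_
    · rw [sub_zero, abs_sub_comm, abs_of_pos (by linarith), h]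
    · rw [add_sub_cancel_left, abs_of_pos hd0]; linarith
    · rw [add_sub_cancel_left, abs_of_pos hd0]; linarith
  · have hyA : ∀ ρ, 0 ≤ ρ → ρ ≤ rA ε s → u (0 + (ρ / ‖x - 0‖) • (x - 0)) = 0 := by
      intro ρ hρ hρA
      refine hD.zero _ (DD_leA.trans ?_)
      have := rayn 0 ρ hN0 hρ
      rw [sub_zero] at this
      linarith
    by_cases hx8 : ‖x‖ ≤ 1 / 8
    · left
      refine ⟨hx8, ?_⟩
      by_contra hcon
      push Not at hcon
      refine ray 0 (rA ε s) (rA ε s - d / 2) hN0 (by linarith) (hyA _ (by linarith) le_rfl)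
        (hyA _ (by linarith) (by linarith)) ?_ ?_ ?_
      · rw [sub_zero, abs_of_pos (by linarith), h]
      · rw [sub_sub_cancel_left, abs_neg, abs_of_pos (by linarith)]
      · rw [sub_sub_cancel_left, abs_neg, abs_of_pos (by linarith)]; linarith
    · exfalso
      push Not at hx8
      refine ray 0 (rA ε s) 2 hN0 (by norm_num) (hyA _ (by linarith) le_rfl)
        (far 0 2 hN0 (by norm_num) (by rw [norm_zero]; norm_num)) ?_ ?_ ?_
      · rw [sub_zero, abs_of_pos (by linarith), h]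
      · rw [abs_of_pos (by linarith)]; linarith
      · rw [abs_of_pos (by linarith)]; linarith
  · have hyB : ∀ ρ, 0 ≤ ρ → ρ ≤ rB ε s →
        u ((1 / 2 : ℝ) • e + (ρ / ‖x - (1 / 2 : ℝ) • e‖) • (x - (1 / 2 : ℝ) • e)) = 0 := by
      intro ρ hρ hρB
      refine hD.zero _ (DD_leB.trans ?_)
      have := rayn ((1 / 2 : ℝ) • e) ρ hNb hρ
      linarith
    by_cases hx8 : ‖x - (1 / 2 : ℝ) • e‖ ≤ 1 / 8
    · right
      refine ⟨hx8, ?_⟩
      by_contra hcon
      push Not at hcon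
      refine ray ((1 / 2 : ℝ) • e) (rB ε s) (rB ε s - d / 2) hNb (by linarith)
        (hyB _ (by linarith) le_rfl) (hyB _ (by linarith) (by linarith)) ?_ ?_ ?_
      · rw [abs_of_pos (by linarith), h]
      · rw [sub_sub_cancel_left, abs_neg, abs_of_pos (by linarith)]
      · rw [sub_sub_cancel_left, abs_neg, abs_of_pos (by linarith)]; linarith
    · exfalso
      push Not at hx8
      have hxn := norm_nonneg x
      refine ray ((1 / 2 : ℝ) • e) (rB ε s) 2 hNb (by norm_num) (hyB _ (by linarith) le_rfl)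
        (far _ 2 hNb (by norm_num) (by rw [hb]; norm_num)) ?_ ?_ ?_
      · rw [abs_of_pos (by linarith), h]
      · rw [abs_of_pos (by linarith)]; linarith
      · rw [abs_of_pos (by linarith)]; linarith

end Pool.Agent.H72.HM
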