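import Pool.Agent.H72.HM.A3

set_option autoImplicit false

open MeasureTheory Filter Topology Set
open scoped ENNReal NNReal RealInnerProductSpace

/-!
The upper bound, and a parameter with extremals peaking near both holes, for all exponents.
-/

namespace Pool.Agent.H72.HM

open Pool.Agent.H68R3
open Pool.Agent.Helper533.Polar

variable {n : ℕ} {p : ℝ} {e : Sp n} {ε s s' : ℝ} {x y : Sp n}

/-- upper bound for all parameters -/
theorem upper' (hn : 2 ≤ n) (hp : (n : ℝ) < p) (he : ‖e‖ = 1) {δ : ℝ} (hδ : 0 < δ) :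
    ∃ ε : ℝ, 0 < ε ∧ ε ≤ 1 / 64 ∧ ∀ s, 0 ≤ s → s ≤ 1 → ∃ u W x, Dat p e ε s u W x ∧
      FF p e ε s W x ≤ ENNReal.ofReal ((mor n p).toReal + δ) := by
  have hn0 : (2:ℝ) ≤ n := by exact_mod_cast hn
  have hp0 : 0 < p := by linarith
  have hfin : mor n p ≠ ∞ := mor_ne_top (by omega) hp0
  set Λ : ℝ := (mor n p).toReal with hΛ
  have hΛ0 : 0 ≤ Λ := ENNReal.toReal_nonneg
  obtain ⟨η, hη0, hη3, hη⟩ := exists_eta hp0 Λ (a := δ / 2) (b := δ) (by linarith)
  -- a near optimal competitor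
  obtain ⟨φ, e₁, hφ, hφE⟩ : ∃ (φ : Sp n → ℝ) (e₁ : Sp n), Comp φ e₁ ∧
      En p (gradient φ) < ENNReal.ofReal (Λ + δ / 2) := by
    have h1 : mor n p < ENNReal.ofReal (Λ + δ / 2) := by
      rw [← ENNReal.ofReal_toReal hfin, ENNReal.ofReal_lt_ofReal_iff (by linarith)]
      linarith
    unfold mor at h1
    simp only [iInf_lt_iff] at h1
    obtain ⟨φ, e₁, h2, h3⟩ := h1
    exact ⟨φ, e₁, h2, h3⟩
  obtain ⟨v, hv, hv0, hv1, hvz, hvE⟩ := trunc_comp hp0 hφ.cc hη0 hη3 (x := e₁) (y := 0) (t := 1)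
    one_pos (by rw [sub_zero, hφ.unit]) (by rw [hφ.zero]; exact hη0.le)
    (by rw [hφ.one]; linarith)
  simp only [inv_one, one_smul, sub_zero, Real.one_rpow, one_mul] at hv hvz hvE
  have hvE' : En p (gradient v) ≤ ENNReal.ofReal (Λ + δ) := by
    refine hvE.trans ((mul_le_mul_right hφE.le _).trans ?_)
    rw [← ENNReal.ofReal_mul (by
      have : 0 < 1 - 3 * η := by linarith
      positivity)]
    exact ENNReal.ofReal_le_ofReal hη.le
  obtain ⟨τ, hτ, hτz⟩ : ∃ τ : ℝ, 0 < τ ∧ ∀ z : Sp n, ‖z‖ < τ → v z = 0 := by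
    have h1 : ∀ᶠ z in 𝓝 (0 : Sp n), φ z < η := by
      have h2 := hφ.cc.cont.tendsto (0 : Sp n)
      rw [hφ.zero] at h2
      exact h2.eventually (gt_mem_nhds hη0)
    obtain ⟨τ, hτ, h2⟩ := Metric.eventually_nhds_iff.1 h1
    exact ⟨τ, hτ, fun z hz => hvz z (h2 (by rwa [dist_zero_right])).le⟩
  obtain ⟨ρ, hρ1, hρz⟩ : ∃ ρ : ℝ, 1 ≤ ρ ∧ ∀ z : Sp n, ρ < ‖z‖ → v z = 0 := by
    obtain ⟨ρ, hρ⟩ := hv.cc.comp.isCompact.isBounded.subset_closedBall (0 : Sp n)
    refine ⟨max 1 ρ, le_max_left _ _, fun z hz => zero_of_notMem fun h' => ?_⟩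
    have h1 := hρ h'
    rw [mem_closedBall_zero_iff] at h1
    have h2 := le_max_right 1 ρ
    linarith
  have hρ0 : 0 < ρ := by linarith
  set r : ℝ := 1 / (64 * ρ) with hr
  have hr0 : 0 < r := by positivity
  have hr64 : r ≤ 1 / 64 := by
    rw [hr]
    exact one_div_le_one_div_of_le (by norm_num) (by linarith)
  have hρr : ρ * r = 1 / 64 := by rw [hr]; field_simp
  set ε : ℝ := min τ 1 * r / 2 with hε
  have hm0 : 0 < min τ 1 := lt_min hτ one_pos
  have hε0 : 0 < ε := by positivity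
  have hεr : ε ≤ r / 2 := by
    have h1 : min τ 1 * r ≤ 1 * r := mul_le_mul_of_nonneg_right (min_le_right _ _) hr0.le
    rw [hε]; linarith
  have hετ : ε < τ * r := by
    have h1 : min τ 1 * r ≤ τ * r := mul_le_mul_of_nonneg_right (min_le_left _ _) hr0.le
    have h2 : 0 < min τ 1 * r := by positivity
    rw [hε]; linarith
  refine ⟨ε, hε0, by linarith, fun s hs0 hs1 => ?_⟩
  have hA' := rA_le (ε := ε) (s := s) (by linarith) hs0
  have hB' := rB_le (ε := ε) (s := s) (by linarith) hs1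
  have hb : ‖(1 / 2 : ℝ) • e‖ = 1 / 2 := by
    rw [norm_smul, he, Real.norm_eq_abs, abs_of_pos (by norm_num), mul_one]
  have hre : ‖r • e₁‖ = r := by rw [norm_smul, hφ.unit, Real.norm_eq_abs, abs_of_pos hr0, mul_one]
  -- generic construction
  have key : ∀ c : Sp n, ‖c‖ ≤ 1 / 2 → (∀ z, DD e ε s z ≤ 0 → ‖z - c‖ ≤ ε ∨ 1 / 4 ≤ ‖z - c‖) →
      0 < DD e ε s (c + r • e₁) → DD e ε s (c + r • e₁) ≤ r → ∃ u W x, Dat p e ε s u W x ∧
      FF p e ε s W x ≤ ENNReal.ofReal (Λ + δ) := by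
    intro c hc hz hpos hle
    have hcc := Cc_affine hv.cc (-(r⁻¹ • c)) (inv_ne_zero hr0.ne')
    set u : Sp n → ℝ := fun z => v (-(r⁻¹ • c) + r⁻¹ • z) with hu
    have huz : ∀ z, u z = v (r⁻¹ • (z - c)) := by
      intro z; simp only [u]; rw [neg_add_eq_sub, ← smul_sub]
    have hnr : ∀ z : Sp n, ‖r⁻¹ • z‖ = ‖z‖ / r := by
      intro z
      rw [norm_smul, norm_inv, Real.norm_eq_abs, abs_of_pos hr0, inv_mul_eq_div]
    have hout : ∀ z : Sp n, 1 / 4 ≤ ‖z - c‖ → u z = 0 := by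
      intro z hz
      rw [huz]
      refine hρz _ ?_
      rw [hnr, lt_div_iff₀ hr0, hρr]
      linarith
    refine ⟨u, gradient u, c + r • e₁, ⟨⟨hcc.cont, H0.of_Cc (hcc.mono (subset_univ _)), ?_⟩,
      ?_, hpos, ?_⟩, ?_⟩
    · intro x hx
      refine hout _ ?_
      have := norm_sub_norm_le x c
      linarith
    · intro z hzD
      rcases hz z hzD with h | h
      · rw [huz]
        refine hτz _ ?_
        rw [hnr, div_lt_iff₀ hr0]
        linarith
      · exact hout _ h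
    · rw [huz, add_sub_cancel_left, smul_smul, inv_mul_cancel₀ hr0.ne', one_smul, hv.one]
    · unfold FF
      rw [En_affine hp0 (hv.cc.smooth.of_le (by exact_mod_cast le_top)) (-(r⁻¹ • c))
        (inv_pos.2 hr0), ← mul_assoc, ← ENNReal.ofReal_mul (by positivity),
        ← Real.mul_rpow hpos.le (by positivity)]
      refine le_trans ?_ hvE'
      refine mul_le_of_le_one_left (zero_le) ?_
      rw [ENNReal.ofReal_le_one]
      refine Real.rpow_le_one (by positivity) ?_ (by linarith)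
      rw [← div_eq_mul_inv, div_le_one hr0]
      exact hle
  have htri : ∀ z : Sp n, ‖(1 / 2 : ℝ) • e‖ - ‖z‖ ≤ ‖z - (1 / 2 : ℝ) • e‖ := fun z => by
    rw [norm_sub_rev]; exact norm_sub_norm_le _ _
  rcases le_total s (1 / 2) with hs | hs
  · have hrB : rB ε s = ε := max_eq_left (by linarith)
    have n1 : ‖(1 / 2 : ℝ) • e + r • e₁‖ ≤ 1 / 2 + r := by
      refine (norm_add_le _ _).trans ?_
      rw [hb, hre]
    have n2 : 1 / 2 - r ≤ ‖(1 / 2 : ℝ) • e + r • e₁‖ := by
      have := norm_sub_norm_le ((1 / 2 : ℝ) • e) (-(r • e₁))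
      rw [sub_neg_eq_add, norm_neg, hb, hre] at this
      exact this
    refine key ((1 / 2 : ℝ) • e) hb.le ?_ ?_ ?_
    · intro z hz
      by_cases h1 : ‖z - (1 / 2 : ℝ) • e‖ ≤ ε
      · exact Or.inl h1
      · right
        push Not at h1
        unfold DD at hz
        rw [min_le_iff, min_le_iff, hrB] at hz
        rcases hz with h | h | h
        · have := norm_sub_norm_le z ((1 / 2 : ℝ) • e)
          linarith
        · have := htri z
          linarith
        · linarith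
    · unfold DD
      rw [add_sub_cancel_left, hre, hrB]
      refine lt_min (by linarith) (lt_min (by linarith) (by linarith))
    · refine DD_leB.trans ?_
      rw [add_sub_cancel_left, hre, hrB]; linarith
  · have hrA : rA ε s = ε := max_eq_left (by linarith)
    refine key 0 (by simp) ?_ ?_ ?_
    · intro z hz
      rw [sub_zero]
      by_cases h1 : ‖z‖ ≤ ε
      · exact Or.inl h1
      · right
        push Not at h1
        unfold DD at hz
        rw [min_le_iff, min_le_iff, hrA] at hz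
        rcases hz with h | h | h
        · linarith
        · linarith
        · have := htri z
          linarith
    · unfold DD
      rw [zero_add, hre, hrA]
      have h4 := htri (r • e₁)
      rw [hb, hre] at h4
      refine lt_min (by linarith) (lt_min (by linarith) (by linarith))
    · refine DD_leA.trans ?_
      rw [zero_add, hre, hrA]; linarith

/-- a parameter with extremals peaking near both holes -/
theorem exists_two' (hn : 2 ≤ n) (hpn : (n : ℝ) < p) (he : ‖e‖ = 1) :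
    ∃ ε s : ℝ, 0 < ε ∧ ε ≤ 1 / 64 ∧ 0 ≤ s ∧ s ≤ 1 ∧
      (∃ u W x, Dat p e ε s u W x ∧ FF p e ε s W x ≤ lam p e ε s ∧ ‖x‖ ≤ 1 / 8) ∧
      (∃ u W x, Dat p e ε s u W x ∧ FF p e ε s W x ≤ lam p e ε s ∧
        ‖x - (1 / 2 : ℝ) • e‖ ≤ 1 / 8) := by
  have hn0 : (2:ℝ) ≤ n := by exact_mod_cast hn
  have hp0 : 0 < p := by linarith
  obtain ⟨δ, hδ, hloc⟩ := localize' (n := n) hn hpn
  set Λ : ℝ := (mor n p).toReal with hΛ
  have hΛ0 : 0 ≤ Λ := ENNReal.toReal_nonneg
  obtain ⟨ε, hε, hε1, hup⟩ := upper' (e := e) hn hpn he (δ := δ / 2) (by positivity)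
  have hlam : ∀ s, 0 ≤ s → s ≤ 1 → lam p e ε s ≤ ENNReal.ofReal (Λ + δ / 2) := by
    intro s h0 h1
    obtain ⟨u, W, x, h2, h3⟩ := hup s h0 h1
    exact (lam_le h2).trans h3
  have hlt : ENNReal.ofReal (Λ + δ / 2) < ENNReal.ofReal (Λ + δ) := by
    rw [ENNReal.ofReal_lt_ofReal_iff (by positivity)]
    linarith
  have hlamt : ∀ s, 0 ≤ s → s ≤ 1 → lam p e ε s ≠ ∞ := fun s h0 h1 =>
    ((hlam s h0 h1).trans_lt ENNReal.ofReal_lt_top).ne
  have hloc' : ∀ s, 0 ≤ s → s ≤ 1 → ∀ u W x, Dat p e ε s u W x →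
      FF p e ε s W x < ENNReal.ofReal (Λ + δ) → 2 * ε ≤ DD e ε s x := by
    intro s h0 h1 u W x h2 h3
    rcases hloc e he ε s hε (by linarith) h0 h1 u W x h2 h3 with h | h
    · linarith [h.2, le_rA (ε := ε) (s := s)]
    · linarith [h.2, le_rB (ε := ε) (s := s)]
  -- existence of extremals
  have hex : ∀ s, 0 ≤ s → s ≤ 1 → ∃ u W x, Dat p e ε s u W x ∧ FF p e ε s W x ≤ lam p e ε s := by
    intro s h0 h1
    have hk : ∀ k : ℕ, ∃ u W x, Dat p e ε s u W x ∧ FF p e ε s W x <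
        min (ENNReal.ofReal (Λ + δ))
          (ENNReal.ofReal ((lam p e ε s).toReal + 1 / ((k:ℝ) + 1))) := by
      intro k
      refine exists_of_lam_lt (lt_min ((hlam s h0 h1).trans_lt hlt) ?_)
      conv_lhs => rw [← ENNReal.ofReal_toReal (hlamt s h0 h1)]
      have : 0 < 1 / ((k:ℝ) + 1) := by positivity
      rw [ENNReal.ofReal_lt_ofReal_iff (by positivity)]
      linarith
    choose u W x hD hF using hk
    obtain ⟨φ, u', W', x', -, -, h2, h3⟩ := compact hn hpn hε (s := fun _ => s)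
      tendsto_const_nhds hD (d₀ := 2 * ε) (by positivity)
      (fun k => hloc' s h0 h1 _ _ _ (hD k) ((hF k).trans_le (min_le_left _ _)))
      (Λ := (lam p e ε s).toReal) ENNReal.toReal_nonneg (by
        intro c hc
        have h4 : Tendsto (fun k : ℕ => 1 / ((k:ℝ) + 1)) atTop (𝓝 0) :=
          tendsto_one_div_add_atTop_nhds_zero_nat
        filter_upwards [h4.eventually (gt_mem_nhds (sub_pos.2 hc))] with k hk
        refine ((hF k).trans_le (min_le_right _ _)).le.trans (ENNReal.ofReal_le_ofReal ?_)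
        linarith)
    rw [ENNReal.ofReal_toReal (hlamt s h0 h1)] at h3
    exact ⟨u', W', x', h2, h3⟩
  -- closedness
  have hclosed : ∀ P : Set (Sp n), IsClosed P → IsClosed {s : ℝ | s ∈ Icc (0:ℝ) 1 ∧
      ∃ u W x, Dat p e ε s u W x ∧ FF p e ε s W x ≤ lam p e ε s ∧ x ∈ P} := by
    intro P hP
    refine IsSeqClosed.isClosed fun s s₀ hs hlim => ?_
    have hs₀ : s₀ ∈ Icc (0:ℝ) 1 := isClosed_Icc.mem_of_tendsto hlim
      (Eventually.of_forall fun k => (hs k).1)
    refine ⟨hs₀, ?_⟩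
    choose u W x hD hF hxP using fun k => (hs k).2
    obtain ⟨φ, u', W', x', hφ, h1, h2, h3⟩ := compact hn hpn hε hlim hD
      (d₀ := 2 * ε) (by positivity)
      (fun k => hloc' _ (hs k).1.1 (hs k).1.2 _ _ _ (hD k)
        ((hF k).trans_lt ((hlam _ (hs k).1.1 (hs k).1.2).trans_lt hlt)))
      (Λ := (lam p e ε s₀).toReal) ENNReal.toReal_nonneg (by
        intro c hc
        have h4 : lam p e ε s₀ < ENNReal.ofReal c := by
          rw [← ENNReal.ofReal_toReal (hlamt s₀ hs₀.1 hs₀.2)]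
          exact (ENNReal.ofReal_lt_ofReal_iff (ENNReal.toReal_nonneg.trans_lt hc)).2 hc
        obtain ⟨u₁, W₁, x₁, h5, h6⟩ := exists_of_lam_lt h4
        filter_upwards [hlim.eventually (usc hn hpn hε h5 h6)] with k hk
        obtain ⟨u₂, W₂, h7, h8⟩ := hk
        exact (hF k).trans ((lam_le h7).trans h8.le))
    rw [ENNReal.ofReal_toReal (hlamt s₀ hs₀.1 hs₀.2)] at h3
    exact ⟨u', W', x', h2, h3, hP.mem_of_tendsto h1 (Eventually.of_forall fun k => hxP _)⟩
  have hPA : IsClosed {x : Sp n | ‖x‖ ≤ 1 / 8} := isClosed_le continuous_norm continuous_const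
  have hPB : IsClosed {x : Sp n | ‖x - (1 / 2 : ℝ) • e‖ ≤ 1 / 8} :=
    isClosed_le (by fun_prop) continuous_const
  have hpre : IsPreconnected (Icc (0:ℝ) 1) := isPreconnected_Icc
  rw [isPreconnected_closed_iff] at hpre
  obtain ⟨s, hs, ⟨-, hA⟩, -, hB⟩ := hpre _ _ (hclosed _ hPA) (hclosed _ hPB) (by
    intro s hs
    obtain ⟨u, W, x, h1, h2⟩ := hex s hs.1 hs.2
    rcases hloc e he ε s hε (by linarith) hs.1 hs.2 u W x h1
      (h2.trans_lt ((hlam s hs.1 hs.2).trans_lt hlt)) with h | h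
    · exact Or.inl ⟨hs, u, W, x, h1, h2, h.1⟩
    · exact Or.inr ⟨hs, u, W, x, h1, h2, h.1⟩) (by
    refine ⟨1, ⟨zero_le_one, le_rfl⟩, ⟨zero_le_one, le_rfl⟩, ?_⟩
    obtain ⟨u, W, x, h1, h2⟩ := hex 1 zero_le_one le_rfl
    rcases hloc e he ε 1 hε (by linarith) zero_le_one le_rfl u W x h1
      (h2.trans_lt ((hlam 1 zero_le_one le_rfl).trans_lt hlt)) with h | h
    · exact ⟨u, W, x, h1, h2, h.1⟩
    · exfalso
      have h3 := DD_leB (e := e) (ε := ε) (s := 1) (x := x)
      have h4 : rB ε 1 = 1 / 16 := by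
        unfold rB
        rw [max_eq_right (by linarith)]; norm_num
      rw [h4] at h h3
      linarith [h.1, h.2]) (by
    refine ⟨0, ⟨le_rfl, zero_le_one⟩, ⟨le_rfl, zero_le_one⟩, ?_⟩
    obtain ⟨u, W, x, h1, h2⟩ := hex 0 le_rfl zero_le_one
    rcases hloc e he ε 0 hε (by linarith) le_rfl zero_le_one u W x h1
      (h2.trans_lt ((hlam 0 le_rfl zero_le_one).trans_lt hlt)) with h | h
    · exfalso
      have h3 := DD_leA (e := e) (ε := ε) (s := 0) (x := x)
      have h4 : rA ε 0 = 1 / 16 := by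
        unfold rA
        rw [max_eq_right (by linarith)]; norm_num
      rw [h4] at h h3
      linarith [h.1, h.2]
    · exact ⟨u, W, x, h1, h2, h.1⟩)
  exact ⟨ε, s, hε, hε1, hs.1, hs.2, hA, hB⟩

end Pool.Agent.H72.HM
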