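import Pool.Agent.H72.HM.A4

set_option autoImplicit false

open MeasureTheory Filter Topology Set
open scoped ENNReal NNReal RealInnerProductSpace ContDiff

/-!
Dimension one: the sharp Morrey inequality on an interval for weak derivatives.
-/

namespace Pool.Agent.H72.HM

/-- a smooth step from `0` (at `a`) to `1` (at `a + ε`) -/
noncomputable def stp (a ε t : ℝ) : ℝ := Real.smoothTransition ((t - a) / ε)

theorem stp_contDiff (a ε : ℝ) : ContDiff ℝ ∞ (stp a ε) := by
  unfold stp
  exact Real.smoothTransition.contDiff.comp (by fun_prop)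

theorem stp_le {a ε t : ℝ} (hε : 0 < ε) (h : t ≤ a) : stp a ε t = 0 :=
  Real.smoothTransition.zero_of_nonpos (div_nonpos_of_nonpos_of_nonneg (by linarith) hε.le)

theorem stp_ge {a ε t : ℝ} (hε : 0 < ε) (h : a + ε ≤ t) : stp a ε t = 1 :=
  Real.smoothTransition.one_of_one_le ((one_le_div hε).2 (by linarith))

theorem stp_nonneg (a ε t : ℝ) : 0 ≤ stp a ε t := Real.smoothTransition.nonneg _
theorem stp_le_one (a ε t : ℝ) : stp a ε t ≤ 1 := Real.smoothTransition.le_one _

theorem stp_mono {a ε : ℝ} (hε : 0 < ε) : Monotone (stp a ε) := fun x y h =>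
  Real.smoothTransition.monotone (div_le_div_of_nonneg_right (by linarith) hε.le)

theorem stp_deriv_out {a ε t : ℝ} (hε : 0 < ε) (h : t ∉ Icc a (a + ε)) :
    deriv (stp a ε) t = 0 := by
  rw [mem_Icc, not_and_or, not_le, not_le] at h
  rcases h with h | h
  · have : stp a ε =ᶠ[𝓝 t] fun _ => 0 := by
      filter_upwards [Iio_mem_nhds h] with y hy using stp_le hε (le_of_lt hy)
    rw [this.deriv_eq, deriv_const]
  · have : stp a ε =ᶠ[𝓝 t] fun _ => 1 := by
      filter_upwards [Ioi_mem_nhds h] with y hy using stp_ge hε (le_of_lt hy)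
    rw [this.deriv_eq, deriv_const]

theorem stp_int {U : ℝ → ℝ} (hU : Continuous U) {a ε δ : ℝ} (hε : 0 < ε)
    (hδ : ∀ t ∈ Icc a (a + ε), |U t - U a| ≤ δ) :
    |(∫ t, U t * deriv (stp a ε) t) - U a| ≤ δ := by
  have hd : Differentiable ℝ (stp a ε) := (stp_contDiff a ε).differentiable (by simp)
  have hc : Continuous (deriv (stp a ε)) := (stp_contDiff a ε).continuous_deriv (by simp)
  have h0 : ∀ t, 0 ≤ deriv (stp a ε) t := fun t => (stp_mono hε).deriv_nonneg
  have h1 : ∫ t, U t * deriv (stp a ε) t = ∫ t in a..(a + ε), U t * deriv (stp a ε) t := by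
    rw [intervalIntegral.integral_of_le (by linarith), ← integral_Icc_eq_integral_Ioc]
    refine (setIntegral_eq_integral_of_forall_compl_eq_zero fun t ht => ?_).symm
    rw [stp_deriv_out hε ht, mul_zero]
  have h2 : ∫ t in a..(a + ε), deriv (stp a ε) t = 1 := by
    rw [intervalIntegral.integral_deriv_eq_sub (fun t _ => hd t) (hc.intervalIntegrable _ _),
      stp_ge hε le_rfl, stp_le hε le_rfl, sub_zero]
  have h3 : (∫ t in a..(a + ε), U t * deriv (stp a ε) t) - U a =
      ∫ t in a..(a + ε), (U t - U a) * deriv (stp a ε) t := by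
    have h4 : ∫ t in a..(a + ε), U a * deriv (stp a ε) t = U a := by
      rw [intervalIntegral.integral_const_mul, h2, mul_one]
    conv_lhs => rw [← h4]
    have i1 : IntervalIntegrable (fun t => U t * deriv (stp a ε) t) volume a (a + ε) :=
      (hU.mul hc).intervalIntegrable _ _
    have i2 : IntervalIntegrable (fun t => U a * deriv (stp a ε) t) volume a (a + ε) :=
      (continuous_const.mul hc).intervalIntegrable _ _
    rw [← intervalIntegral.integral_sub i1 i2]
    refine intervalIntegral.integral_congr fun t _ => ?_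
    ring
  rw [h1, h3]
  calc |∫ t in a..(a + ε), (U t - U a) * deriv (stp a ε) t|
      ≤ ∫ t in a..(a + ε), |(U t - U a) * deriv (stp a ε) t| :=
        intervalIntegral.abs_integral_le_integral_abs (by linarith)
    _ ≤ ∫ t in a..(a + ε), δ * deriv (stp a ε) t := by
        refine intervalIntegral.integral_mono_on (by linarith)
          (((hU.sub continuous_const).mul hc).abs.intervalIntegrable _ _)
          ((continuous_const.mul hc).intervalIntegrable _ _) fun t ht => ?_
        rw [abs_mul, abs_of_nonneg (h0 t)]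
        exact mul_le_mul_of_nonneg_right (hδ t ht) (h0 t)
    _ = δ := by rw [intervalIntegral.integral_const_mul, h2, mul_one]

/-- `G` is the weak derivative of `U` on the line -/
def WD (U G : ℝ → ℝ) : Prop := ∀ ψ : ℝ → ℝ, ContDiff ℝ ∞ ψ → HasCompactSupport ψ →
  ∫ t, U t * deriv ψ t = - ∫ t, ψ t * G t

/-- the sharp Morrey inequality on an interval -/
theorem oneD {U G : ℝ → ℝ} (hU : Continuous U) (h : WD U G) {p : ℝ} (hp : 1 < p)
    (hG : AEMeasurable G volume) {a b : ℝ} (hab : a < b) :
    ENNReal.ofReal (|U b - U a| ^ p) ≤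
      ENNReal.ofReal ((b - a) ^ (p - 1)) * ∫⁻ t in Ioo a b, ‖G t‖ₑ ^ p := by
  have hp0 : 0 < p := by linarith
  set I : ℝ≥0∞ := ∫⁻ t in Ioo a b, ‖G t‖ₑ ^ p with hI
  -- Hölder
  have hH : ∫⁻ t in Ioo a b, ‖G t‖ₑ ≤ I ^ (1 / p) * ENNReal.ofReal (b - a) ^ (1 - 1 / p) := by
    have h5 := Pool.Agent.Helper795.LusinN.lintegral_le_rpow (volume.restrict (Ioo a b)) hp
      (h := fun y => ‖G y‖ₑ) hG.enorm.restrict
    rw [Measure.restrict_apply_univ, Real.volume_Ioo] at h5
    exact h5
  have key : ∀ δ : ℝ, 0 < δ → ENNReal.ofReal |U b - U a| ≤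
      I ^ (1 / p) * ENNReal.ofReal (b - a) ^ (1 - 1 / p) + ENNReal.ofReal (2 * δ) := by
    intro δ hδ
    obtain ⟨τ₁, hτ₁, h1⟩ := Metric.continuous_iff.1 hU a δ hδ
    obtain ⟨τ₂, hτ₂, h2⟩ := Metric.continuous_iff.1 hU b δ hδ
    set ε : ℝ := min (min (τ₁ / 2) (τ₂ / 2)) ((b - a) / 2) with hε
    have hba : 0 < b - a := by linarith
    have hε0 : 0 < ε := by positivity
    have e1 : ε ≤ τ₁ / 2 := (min_le_left _ _).trans (min_le_left _ _)
    have e2 : ε ≤ τ₂ / 2 := (min_le_left _ _).trans (min_le_right _ _)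
    have e3 : ε ≤ (b - a) / 2 := min_le_right _ _
    have k1 := stp_int hU (a := a) hε0 (δ := δ) (fun t ht => by
      have := h1 t (by rw [Real.dist_eq, abs_of_nonneg (by linarith [ht.1])]; linarith [ht.2])
      rw [Real.dist_eq] at this; exact this.le)
    have k2 := stp_int (U := fun s => U (-s)) (by fun_prop) (a := -b) hε0 (δ := δ) (fun t ht => by
      simp only [neg_neg]
      have := h2 (-t) (by
        rw [Real.dist_eq, abs_sub_comm, abs_of_nonneg (by linarith [ht.1])]; linarith [ht.2])
      rw [Real.dist_eq] at this; exact this.le)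
    simp only [neg_neg] at k2
    set ψ : ℝ → ℝ := fun t => stp a ε t * stp (-b) ε (-t) with hψ
    have hψs : ContDiff ℝ ∞ ψ := (stp_contDiff a ε).mul ((stp_contDiff (-b) ε).comp contDiff_neg)
    have hψ0 : ∀ t, t ∉ Ioo a b → ψ t = 0 := by
      intro t ht
      rw [mem_Ioo, not_and_or, not_lt, not_lt] at ht
      simp only [ψ]
      rcases ht with h | h
      · rw [stp_le hε0 h, zero_mul]
      · rw [stp_le (a := -b) hε0 (by linarith), mul_zero]
    have hψc : HasCompactSupport ψ := HasCompactSupport.intro (isCompact_Icc (a := a) (b := b))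
      fun t ht => hψ0 t fun h' => ht (Ioo_subset_Icc_self h')
    have hψ1 : ∀ t, |ψ t| ≤ 1 := by
      intro t
      simp only [ψ]
      rw [abs_of_nonneg (mul_nonneg (stp_nonneg _ _ _) (stp_nonneg _ _ _))]
      exact mul_le_one₀ (stp_le_one _ _ _) (stp_nonneg _ _ _) (stp_le_one _ _ _)
    have hder : ∀ t, deriv ψ t = deriv (stp a ε) t - deriv (stp (-b) ε) (-t) := by
      intro t
      have d1 : HasDerivAt (stp a ε) (deriv (stp a ε) t) t :=
        ((stp_contDiff a ε).differentiable (by simp) t).hasDerivAt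
      have d2 : HasDerivAt (fun t => stp (-b) ε (-t)) (-deriv (stp (-b) ε) (-t)) t := by
        exact (HasDerivAt.comp (h₂ := stp (-b) ε) (h := fun t : ℝ => -t) t
          ((stp_contDiff (-b) ε).differentiable (by simp) (-t)).hasDerivAt
          (hasDerivAt_neg t)).congr_deriv (by ring)
      have d3 := (d1.mul d2).deriv
      have e4 : deriv (stp a ε) t * stp (-b) ε (-t) = deriv (stp a ε) t := by
        by_cases ht : t ∈ Icc a (a + ε)
        · rw [stp_ge (a := -b) hε0 (by linarith [ht.2]), mul_one]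
        · rw [stp_deriv_out hε0 ht, zero_mul]
      have e5 : stp a ε t * -deriv (stp (-b) ε) (-t) = -deriv (stp (-b) ε) (-t) := by
        by_cases ht : -t ∈ Icc (-b) (-b + ε)
        · rw [stp_ge (a := a) hε0 (by linarith [ht.2]), one_mul]
        · rw [stp_deriv_out hε0 ht]; ring
      calc deriv ψ t = deriv (stp a ε) t * stp (-b) ε (-t) + stp a ε t * -deriv (stp (-b) ε) (-t) := d3
        _ = _ := by rw [e4, e5]; ring
    have hUi : ∀ (V : ℝ → ℝ) (c : ℝ), Continuous V → Integrable fun t => V t * deriv (stp c ε) t := by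
      intro V c hV
      refine (hV.mul ((stp_contDiff c ε).continuous_deriv (by simp))).integrable_of_hasCompactSupport ?_
      exact HasCompactSupport.intro (isCompact_Icc (a := c) (b := c + ε)) fun t ht => by
        show V t * deriv (stp c ε) t = 0
        rw [stp_deriv_out hε0 ht, mul_zero]
    have k3 : ∫ t, U t * deriv ψ t = (∫ t, U t * deriv (stp a ε) t) -
        ∫ t, U (-t) * deriv (stp (-b) ε) t := by
      have i2 : Integrable fun t => U t * deriv (stp (-b) ε) (-t) := by
        have := (hUi (fun s => U (-s)) (-b) (by fun_prop)).comp_neg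
        simpa using this
      have i3 : ∫ t, U (-t) * deriv (stp (-b) ε) t = ∫ t, U t * deriv (stp (-b) ε) (-t) := by
        rw [← integral_neg_eq_self]
        simp only [neg_neg]
      rw [i3, ← integral_sub (hUi U a hU) i2]
      refine integral_congr_ae (Eventually.of_forall fun t => ?_)
      simp only
      rw [hder]; ring
    have k4 : ‖∫ t, ψ t * G t‖ₑ ≤ ∫⁻ t in Ioo a b, ‖G t‖ₑ := by
      refine (enorm_integral_le_lintegral_enorm _).trans ?_
      rw [← lintegral_indicator measurableSet_Ioo]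
      refine lintegral_mono fun t => ?_
      by_cases ht : t ∈ Ioo a b
      · rw [indicator_of_mem ht, enorm_mul]
        refine mul_le_of_le_one_left zero_le ?_
        rw [Real.enorm_eq_ofReal_abs, ENNReal.ofReal_le_one]
        exact hψ1 t
      · rw [indicator_of_notMem ht, hψ0 t ht, zero_mul, enorm_zero]
    have k5 : |U b - U a| ≤ |∫ t, ψ t * G t| + 2 * δ := by
      have k6 := h ψ hψs hψc
      rw [k3] at k6
      rw [abs_le] at k1 k2
      have k7 := neg_abs_le (∫ t, ψ t * G t)
      have k8 := le_abs_self (∫ t, ψ t * G t)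
      rw [abs_le]
      constructor <;> linarith [k1.1, k1.2, k2.1, k2.2]
    refine (ENNReal.ofReal_le_ofReal k5).trans ?_
    rw [ENNReal.ofReal_add (abs_nonneg _) (by positivity), ← Real.enorm_eq_ofReal_abs]
    exact add_le_add_left (k4.trans hH) _
  have key2 : ENNReal.ofReal |U b - U a| ≤
      I ^ (1 / p) * ENNReal.ofReal (b - a) ^ (1 - 1 / p) := by
    refine ENNReal.le_of_forall_pos_le_add fun δ hδ _ => ?_
    have := key (δ / 2) (by positivity)
    rw [mul_div_cancel₀ _ two_ne_zero, ENNReal.ofReal_coe_nnreal] at this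
    exact this
  have h9 := ENNReal.rpow_le_rpow key2 hp0.le
  rw [ENNReal.ofReal_rpow_of_nonneg (abs_nonneg _) hp0.le, ENNReal.mul_rpow_of_nonneg _ _ hp0.le,
    ← ENNReal.rpow_mul, ← ENNReal.rpow_mul, one_div, inv_mul_cancel₀ hp0.ne', ENNReal.rpow_one,
    show (1 - p⁻¹) * p = p - 1 by field_simp,
    ENNReal.ofReal_rpow_of_nonneg (by linarith) (by linarith), mul_comm] at h9
  exact h9

end Pool.Agent.H72.HM
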