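import Pool.Agent.H72.HM.B1

set_option autoImplicit false

open MeasureTheory Filter Topology Set
open scoped ENNReal NNReal RealInnerProductSpace ContDiff

/-!
Dimension one: coordinates, and tent functions.
-/

namespace Pool.Agent.H72.HM

open Pool.Agent.H68R3
open Pool.Agent.Helper533.Polar

/-- the line as a homeomorphic copy of the space -/
noncomputable def ln (e : ℝ ≃ₗᵢ[ℝ] Sp 1) (y : Sp 1) : ℝ ≃ₜ Sp 1 :=
  e.toHomeomorph.trans (Homeomorph.addLeft y)

theorem ln_apply (e : ℝ ≃ₗᵢ[ℝ] Sp 1) (y : Sp 1) (t : ℝ) : ln e y t = y + e t := rfl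

theorem ln_symm (e : ℝ ≃ₗᵢ[ℝ] Sp 1) (y x : Sp 1) : (ln e y).symm x = e.symm (x - y) := by
  rw [Homeomorph.symm_apply_eq, ln_apply, LinearIsometryEquiv.apply_symm_apply, add_sub_cancel]

theorem ln_mp (e : ℝ ≃ₗᵢ[ℝ] Sp 1) (y : Sp 1) : MeasurePreserving (ln e y) volume volume := by
  have h1 := e.measurePreserving
  have h2 := (measurePreserving_add_left (volume : Measure (Sp 1)) y).comp h1
  exact h2

theorem inner_e (e : ℝ ≃ₗᵢ[ℝ] Sp 1) (w : Sp 1) : ⟪e 1, w⟫ = e.symm w := by
  have h : w = e (e.symm w) := (e.apply_symm_apply w).symm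
  conv_lhs => rw [h, LinearIsometryEquiv.inner_map_map]
  simp

/-- functions on the line seen on the space: gradient -/
theorem grad_line (e : ℝ ≃ₗᵢ[ℝ] Sp 1) (y : Sp 1) {ψ : ℝ → ℝ} (hψ : Differentiable ℝ ψ) (x : Sp 1) :
    gradient (fun x => ψ (e.symm (x - y))) x = e (deriv ψ (e.symm (x - y))) := by
  have hf : HasGradientAt (fun x : Sp 1 => e.symm (x - y)) (e 1) x := by
    rw [hasGradientAt_iff_hasFDerivAt]
    have h1 : HasFDerivAt (fun x : Sp 1 => e.symm (x - y))
        ((e.symm.toContinuousLinearEquiv : Sp 1 →L[ℝ] ℝ)) x := by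
      have := (e.symm.toContinuousLinearEquiv : Sp 1 →L[ℝ] ℝ).hasFDerivAt (x := x - y)
      exact this.comp x ((hasFDerivAt_id x).sub_const y)
    refine h1.congr_fderiv ?_
    ext v
    rw [InnerProductSpace.toDual_apply_apply, inner_e]
    rfl
  have h2 := grad_comp (β := ψ) hf.differentiableAt (hψ _)
  rw [h2, hf.gradient]
  rw [← map_smul]
  simp

theorem deriv_line (e : ℝ ≃ₗᵢ[ℝ] Sp 1) (y : Sp 1) {φ : Sp 1 → ℝ} (hφ : Differentiable ℝ φ) (t : ℝ) :
    e (deriv (fun t => φ (y + e t)) t) = gradient φ (y + e t) := by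
  have h1 := grad_line e y (ψ := fun t => φ (y + e t))
    (hφ.comp (by
      have := e.toContinuousLinearEquiv.differentiable
      exact (differentiable_const y).add this)) (y + e t)
  have h2 : (fun x : Sp 1 => (fun t => φ (y + e t)) (e.symm (x - y))) = φ := by
    ext x
    simp
  rw [h2] at h1
  rw [h1]
  simp

/-- weak gradients in coordinates -/
theorem WD_of {u : Sp 1 → ℝ} {g : Sp 1 → Sp 1}
    (h : ∀ φ : Sp 1 → ℝ, ContDiff ℝ (⊤ : ℕ∞) φ → HasCompactSupport φ →
      ∫ x, u x • gradient φ x = - ∫ x, φ x • g x) (e : ℝ ≃ₗᵢ[ℝ] Sp 1) (y : Sp 1) :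
    WD (fun t => u (y + e t)) (fun t => e.symm (g (y + e t))) := by
  intro ψ hψ hψc
  set φ : Sp 1 → ℝ := fun x => ψ (e.symm (x - y)) with hφ
  have hφs : ContDiff ℝ (⊤ : ℕ∞) φ := by
    refine ContDiff.comp hψ ?_
    exact e.symm.toContinuousLinearEquiv.contDiff.comp (contDiff_id.sub contDiff_const)
  have hφc : HasCompactSupport φ := by
    have := hψc.comp_homeomorph (ln e y).symm
    convert this using 1
    ext x
    simp only [φ, Function.comp, ln_symm]
  have h1 := h φ hφs hφc
  have hmp := ln_mp e y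
  have hme := (ln e y).measurableEmbedding
  rw [← hmp.integral_comp hme, ← hmp.integral_comp hme] at h1
  have h2 := congrArg e.symm h1
  have e1 : ∀ f : ℝ → Sp 1, e.symm (∫ t, f t) = ∫ t, e.symm (f t) := fun f =>
    (ContinuousLinearEquiv.integral_comp_comm e.symm.toContinuousLinearEquiv f).symm
  rw [e1, map_neg, e1] at h2
  have e2 : ∀ t, e.symm (u (ln e y t) • gradient φ (ln e y t)) = u (y + e t) * deriv ψ t := by
    intro t
    rw [map_smul, ln_apply, hφ, grad_line e y (hψ.differentiable (by simp))]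
    simp
  have e3 : ∀ t, e.symm (φ (ln e y t) • g (ln e y t)) = ψ t * e.symm (g (y + e t)) := by
    intro t
    rw [map_smul, ln_apply, hφ]
    simp
  simp_rw [e2, e3] at h2
  exact h2

theorem of_WD {U G : ℝ → ℝ} (h : WD U G) (e : ℝ ≃ₗᵢ[ℝ] Sp 1) (y : Sp 1) {φ : Sp 1 → ℝ}
    (hφ : ContDiff ℝ (⊤ : ℕ∞) φ) (hφc : HasCompactSupport φ) :
    ∫ x, U (e.symm (x - y)) • gradient φ x = - ∫ x, φ x • e (G (e.symm (x - y))) := by
  have hmp := ln_mp e y
  have hme := (ln e y).measurableEmbedding
  rw [← hmp.integral_comp hme, ← hmp.integral_comp hme]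
  have e1 : ∀ f : ℝ → ℝ, e (∫ t, f t) = ∫ t, e (f t) := fun f =>
    (ContinuousLinearEquiv.integral_comp_comm e.toContinuousLinearEquiv f).symm
  set ψ : ℝ → ℝ := fun t => φ (y + e t) with hψ
  have hψs : ContDiff ℝ ∞ ψ := by
    refine ContDiff.comp hφ ?_
    exact contDiff_const.add e.toContinuousLinearEquiv.contDiff
  have hψc : HasCompactSupport ψ := hφc.comp_homeomorph (ln e y)
  have e2 : ∀ t, U (e.symm (ln e y t - y)) • gradient φ (ln e y t) = e (U t * deriv ψ t) := by
    intro t
    rw [ln_apply, add_sub_cancel_left, LinearIsometryEquiv.symm_apply_apply, ← smul_eq_mul,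
      map_smul, deriv_line e y (hφ.differentiable (by simp))]
  have e3 : ∀ t, φ (ln e y t) • e (G (e.symm (ln e y t - y))) = e (ψ t * G t) := by
    intro t
    rw [ln_apply, add_sub_cancel_left, LinearIsometryEquiv.symm_apply_apply, ← smul_eq_mul,
      map_smul]
  simp_rw [e2, e3]
  rw [← e1, ← e1, h ψ hψs hψc, map_neg]

theorem lint_line (e : ℝ ≃ₗᵢ[ℝ] Sp 1) (y : Sp 1) (f : Sp 1 → ℝ≥0∞) :
    ∫⁻ t, f (y + e t) = ∫⁻ x, f x :=
  (ln_mp e y).lintegral_comp_emb (ln e y).measurableEmbedding f

/-- coordinates with a given direction -/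
theorem exists_line {o₁ : Sp 1} (ho₁ : ‖o₁‖ = 1) : ∃ e : ℝ ≃ₗᵢ[ℝ] Sp 1, e 1 = o₁ := by
  set e₀ : ℝ ≃ₗᵢ[ℝ] Sp 1 := (OrthonormalBasis.singleton (Fin 1) ℝ).repr with he₀
  have h1 : |e₀.symm o₁| = 1 := by
    rw [← Real.norm_eq_abs, LinearIsometryEquiv.norm_map, ho₁]
  rcases (abs_eq (by norm_num : (0:ℝ) ≤ 1)).1 h1 with h | h
  · exact ⟨e₀, by rw [← h, LinearIsometryEquiv.apply_symm_apply]⟩
  · refine ⟨(LinearIsometryEquiv.neg ℝ).trans e₀, ?_⟩
    show e₀ (-1) = o₁
    rw [← h, LinearIsometryEquiv.apply_symm_apply]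

/-- the ramp function -/
theorem WD_ramp (c : ℝ) : WD (fun t => max (t - c) 0) ((Ioi c).indicator fun _ => 1) := by
  intro ψ hψ hψc
  obtain ⟨R, hR⟩ := hψc.isCompact.isBounded.subset_closedBall (0 : ℝ)
  set R' : ℝ := max R c + 1 with hR'
  have hRR : R < R' := by have := le_max_left R c; linarith
  have hcR : c < R' := by have := le_max_right R c; linarith
  have hout : ∀ t, R' ≤ t → ψ t = 0 := by
    intro t ht
    refine image_eq_zero_of_notMem_tsupport fun h' => ?_
    have := hR h'
    rw [mem_closedBall_zero_iff, Real.norm_eq_abs] at this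
    have := le_abs_self t
    linarith
  have hdout : ∀ t, R' < t → deriv ψ t = 0 := by
    intro t ht
    have : ψ =ᶠ[𝓝 t] fun _ => 0 := by
      filter_upwards [Ioi_mem_nhds ht] with s hs using hout s (le_of_lt hs)
    rw [this.deriv_eq, deriv_const]
  have h1 : ∫ t, max (t - c) 0 * deriv ψ t = ∫ t in c..R', (t - c) * deriv ψ t := by
    rw [intervalIntegral.integral_of_le hcR.le]
    rw [← setIntegral_eq_integral_of_forall_compl_eq_zero (s := Ioc c R')
      (f := fun t => max (t - c) 0 * deriv ψ t)]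
    · refine setIntegral_congr_fun measurableSet_Ioc fun t ht => ?_
      rw [max_eq_left (by linarith [ht.1])]
    · intro t ht
      rw [mem_Ioc, not_and_or, not_lt, not_le] at ht
      rcases ht with h | h
      · rw [max_eq_right (by linarith), zero_mul]
      · rw [hdout t h, mul_zero]
  have h2 : ∫ t, ψ t * (Ioi c).indicator (fun _ => (1:ℝ)) t = ∫ t in c..R', ψ t := by
    rw [intervalIntegral.integral_of_le hcR.le]
    rw [← setIntegral_eq_integral_of_forall_compl_eq_zero (s := Ioc c R')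
      (f := fun t => ψ t * (Ioi c).indicator (fun _ => (1:ℝ)) t)]
    · refine setIntegral_congr_fun measurableSet_Ioc fun t ht => ?_
      rw [indicator_of_mem (show t ∈ Ioi c from ht.1), mul_one]
    · intro t ht
      rw [mem_Ioc, not_and_or, not_lt, not_le] at ht
      rcases ht with h | h
      · rw [indicator_of_notMem (by simpa using h), mul_zero]
      · rw [hout t h.le, zero_mul]
  have hd : Differentiable ℝ ψ := hψ.differentiable (by simp)
  have hc : Continuous (deriv ψ) := hψ.continuous_deriv (by simp)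
  have h3 := intervalIntegral.integral_mul_deriv_eq_deriv_mul (a := c) (b := R')
    (u := fun t => t - c) (v := ψ) (u' := fun _ => 1) (v' := deriv ψ)
    (fun t _ => (hasDerivAt_id t).sub_const c) (fun t _ => (hd t).hasDerivAt)
    (continuous_const.intervalIntegrable _ _) (hc.intervalIntegrable _ _)
  simp only
  rw [h1, h2, h3, hout R' le_rfl]
  simp

theorem WD.add {U V G H : ℝ → ℝ} (h1 : WD U G) (h2 : WD V H) (hU : Continuous U)
    (hV : Continuous V) (hG : LocallyIntegrable G volume) (hH : LocallyIntegrable H volume) (a b : ℝ) :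
    WD (fun t => a * U t + b * V t) (fun t => a * G t + b * H t) := by
  intro ψ hψ hψc
  have hc : Continuous (deriv ψ) := hψ.continuous_deriv (by simp)
  have i1 : ∀ W : ℝ → ℝ, Continuous W → Integrable fun t => W t * deriv ψ t := fun W hW =>
    (hW.mul hc).integrable_of_hasCompactSupport hψc.deriv.mul_left
  have i2 : ∀ W : ℝ → ℝ, LocallyIntegrable W volume → Integrable fun t => ψ t * W t := fun W hW => by
    have := hW.integrable_smul_left_of_hasCompactSupport hψ.continuous hψc
    simpa [smul_eq_mul] using this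
  have e1 : ∫ t, (a * U t + b * V t) * deriv ψ t =
      a * (∫ t, U t * deriv ψ t) + b * ∫ t, V t * deriv ψ t := by
    rw [← integral_const_mul, ← integral_const_mul, ← integral_add ((i1 U hU).const_mul a)
      ((i1 V hV).const_mul b)]
    refine integral_congr_ae (Eventually.of_forall fun t => ?_)
    simp only; ring
  have e2 : ∫ t, ψ t * (a * G t + b * H t) =
      a * (∫ t, ψ t * G t) + b * ∫ t, ψ t * H t := by
    rw [← integral_const_mul, ← integral_const_mul, ← integral_add ((i2 G hG).const_mul a)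
      ((i2 H hH).const_mul b)]
    refine integral_congr_ae (Eventually.of_forall fun t => ?_)
    simp only; ring
  rw [e1, e2, h1 ψ hψ hψc, h2 ψ hψ hψc]
  ring

/-- tents -/
theorem tent {s d p : ℝ} (hs : 0 < s) (hsd : s < d) (hp : 1 < p) : ∃ T G : ℝ → ℝ, Continuous T ∧
    WD T G ∧ Measurable G ∧ T s = 1 ∧ (∀ t, t ∉ Ioo 0 d → T t = 0) ∧
    ∫⁻ t, ‖G t‖ₑ ^ p ≤ ENNReal.ofReal (s ^ (1 - p) + (d - s) ^ (1 - p)) := by
  have hp0 : 0 < p := by linarith
  have hd : 0 < d := hs.trans hsd
  have hds : 0 < d - s := by linarith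
  have hloc : ∀ c : ℝ, LocallyIntegrable ((Ioi c).indicator fun _ => (1:ℝ)) volume := fun c =>
    (locallyIntegrable_const 1).indicator measurableSet_Ioi
  have hcont : ∀ c : ℝ, Continuous fun t : ℝ => max (t - c) 0 := fun c => by fun_prop
  have w1 := WD.add (WD_ramp 0) (WD_ramp s) (hcont 0) (hcont s) (hloc 0) (hloc s)
    s⁻¹ (-(s⁻¹ + (d - s)⁻¹))
  have w2 := WD.add w1 (WD_ramp d) (((hcont 0).const_mul _).add ((hcont s).const_mul _)) (hcont d)
    (((hloc 0).smul s⁻¹).add ((hloc s).smul (-(s⁻¹ + (d - s)⁻¹)))) (hloc d) 1 (d - s)⁻¹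
  refine ⟨_, _, ?_, w2, ?_, ?_, ?_, ?_⟩
  · exact ((((hcont 0).const_mul _).add ((hcont s).const_mul _)).const_mul _).add
      ((hcont d).const_mul _)
  · have hm : ∀ c : ℝ, Measurable ((Ioi c).indicator fun _ => (1:ℝ)) := fun c =>
      measurable_const.indicator measurableSet_Ioi
    exact ((((hm 0).const_mul _).add ((hm s).const_mul _)).const_mul _).add ((hm d).const_mul _)
  · simp only [sub_zero, sub_self]
    rw [max_eq_left hs.le, max_self, max_eq_right (by linarith : s - d ≤ 0)]
    field_simp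
    ring
  · intro t ht
    rw [mem_Ioo, not_and_or, not_lt, not_lt] at ht
    simp only [sub_zero]
    rcases ht with h | h
    · rw [max_eq_right h, max_eq_right (by linarith), max_eq_right (by linarith)]
      ring
    · rw [max_eq_left (by linarith), max_eq_left (by linarith), max_eq_left (by linarith)]
      field_simp
      ring
  · have hb : ∀ t, ‖(1 * (s⁻¹ * (Ioi (0:ℝ)).indicator (fun _ => (1:ℝ)) t +
        -(s⁻¹ + (d - s)⁻¹) * (Ioi s).indicator (fun _ => (1:ℝ)) t) +
        (d - s)⁻¹ * (Ioi d).indicator (fun _ => (1:ℝ)) t)‖ₑ ^ p ≤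
        (Ioc 0 s).indicator (fun _ => ENNReal.ofReal (s⁻¹ ^ p)) t +
        (Ioc s d).indicator (fun _ => ENNReal.ofReal ((d - s)⁻¹ ^ p)) t := by
      intro t
      rcases le_or_gt t 0 with h0 | h0
      · rw [indicator_of_notMem (by simpa using h0), indicator_of_notMem (by
          simp only [mem_Ioi, not_lt]; linarith), indicator_of_notMem (by
          simp only [mem_Ioi, not_lt]; linarith)]
        simp [hp0]
      rcases le_or_gt t s with h1 | h1
      · rw [indicator_of_mem (show t ∈ Ioi (0:ℝ) from h0), indicator_of_notMem (by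
          simpa using h1), indicator_of_notMem (by
          simp only [mem_Ioi, not_lt]; linarith), indicator_of_mem (show t ∈ Ioc 0 s from ⟨h0, h1⟩)]
        refine le_trans (le_of_eq ?_) le_self_add
        rw [mul_zero, mul_zero, add_zero, add_zero, mul_one, one_mul, Real.enorm_eq_ofReal_abs,
          abs_of_pos (inv_pos.2 hs), ENNReal.ofReal_rpow_of_pos (inv_pos.2 hs)]
      rcases le_or_gt t d with h2 | h2
      · rw [indicator_of_mem (show t ∈ Ioi (0:ℝ) from h0), indicator_of_mem (show t ∈ Ioi s from h1),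
          indicator_of_notMem (by simpa using h2), indicator_of_mem (show t ∈ Ioc s d from ⟨h1, h2⟩)]
        refine le_trans (le_of_eq ?_) le_add_self
        rw [mul_zero, add_zero, one_mul, mul_one, mul_one, show s⁻¹ + -(s⁻¹ + (d - s)⁻¹) =
          -(d - s)⁻¹ by ring, enorm_neg, Real.enorm_eq_ofReal_abs,
          abs_of_pos (inv_pos.2 hds), ENNReal.ofReal_rpow_of_pos (inv_pos.2 hds)]
      · rw [indicator_of_mem (show t ∈ Ioi (0:ℝ) from h0), indicator_of_mem (show t ∈ Ioi s from h1),
          indicator_of_mem (show t ∈ Ioi d from h2)]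
        rw [show 1 * (s⁻¹ * 1 + -(s⁻¹ + (d - s)⁻¹) * 1) + (d - s)⁻¹ * 1 = 0 by ring, enorm_zero,
          ENNReal.zero_rpow_of_pos hp0]
        exact zero_le
    refine (lintegral_mono hb).trans (le_of_eq ?_)
    rw [lintegral_add_left (measurable_const.indicator measurableSet_Ioc),
      lintegral_indicator measurableSet_Ioc, lintegral_indicator measurableSet_Ioc,
      setLIntegral_const, setLIntegral_const, Real.volume_Ioc, Real.volume_Ioc,
      ← ENNReal.ofReal_mul (by positivity), ← ENNReal.ofReal_mul (by positivity),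
      ← ENNReal.ofReal_add (by positivity) (by positivity)]
    congr 2
    · rw [sub_zero, Real.inv_rpow hs.le, ← Real.rpow_neg hs.le]
      nth_rewrite 2 [← Real.rpow_one s]
      rw [← Real.rpow_add hs]
      congr 1; ring
    · rw [Real.inv_rpow hds.le, ← Real.rpow_neg hds.le]
      nth_rewrite 2 [← Real.rpow_one (d - s)]
      rw [← Real.rpow_add hds]
      congr 1; ring

end Pool.Agent.H72.HM
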