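import Pool.Agent.H72.HM.B2

set_option autoImplicit false

open MeasureTheory Filter Topology Set
open scoped ENNReal NNReal RealInnerProductSpace ContDiff

/-!
Dimension one: the supremum is attained, and rigidity.
-/

namespace Pool.Agent.H72.HM

/-- functions on the line with the sharp Morrey inequality for a finite diffuse measure -/
structure Mo (p : ℝ) (U : ℝ → ℝ) (μ : Measure ℝ) : Prop where
  cont : Continuous U
  ineq : ∀ a b, a < b → |U b - U a| ^ p ≤ (b - a) ^ (p - 1) * μ.real (Ioo a b)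
  fin : IsFiniteMeasure μ
  atom : ∀ x, μ {x} = 0

variable {p : ℝ} {U : ℝ → ℝ} {μ : Measure ℝ}

theorem Mo.ineq' (h : Mo p U μ) (hp : 1 < p) (a b : ℝ) :
    |U b - U a| ^ p ≤ |b - a| ^ (p - 1) * μ.real (Ioo (min a b) (max a b)) := by
  rcases lt_trichotomy a b with hab | rfl | hab
  · rw [min_eq_left hab.le, max_eq_right hab.le, abs_of_pos (sub_pos.2 hab)]
    exact h.ineq a b hab
  · rw [sub_self, abs_zero, Real.zero_rpow (by linarith), sub_self, abs_zero,
      Real.zero_rpow (by linarith), zero_mul]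
  · rw [min_eq_right hab.le, max_eq_left hab.le, abs_sub_comm, abs_sub_comm b a,
      abs_of_pos (sub_pos.2 hab)]
    exact h.ineq b a hab

theorem exists_tight (μ : Measure ℝ) [IsFiniteMeasure μ] {η : ℝ} (hη : 0 < η) :
    ∃ M : ℝ, 0 ≤ M ∧ μ.real ((Metric.closedBall (0:ℝ) M)ᶜ) < η := by
  have hmono : Monotone fun k : ℕ => Metric.closedBall (0:ℝ) (k:ℝ) := fun i j hij =>
    Metric.closedBall_subset_closedBall (by exact_mod_cast hij)
  have h1 := tendsto_measure_iUnion_atTop (μ := μ) hmono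
  rw [Metric.iUnion_closedBall_nat] at h1
  have h2 : Tendsto (fun k : ℕ => μ.real (Metric.closedBall (0:ℝ) (k:ℝ))) atTop
      (𝓝 (μ.real univ)) := (ENNReal.tendsto_toReal (measure_ne_top μ univ)).comp h1
  obtain ⟨k, hk⟩ := (h2.eventually (lt_mem_nhds (show μ.real univ - η < μ.real univ by linarith))).exists
  refine ⟨k, by positivity, ?_⟩
  rw [measureReal_compl Metric.isClosed_closedBall.measurableSet]
  linarith

theorem exists_small_ball (μ : Measure ℝ) [IsFiniteMeasure μ] {x : ℝ} (hx : μ {x} = 0) {η : ℝ}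
    (hη : 0 < η) : ∃ r : ℝ, 0 < r ∧ μ.real (Metric.closedBall x r) < η := by
  have h1 := tendsto_measure_cthickening_of_isClosed (μ := μ) (s := {x})
    ⟨1, one_pos, measure_ne_top _ _⟩ isClosed_singleton
  rw [hx] at h1
  have h2 : ∀ᶠ r in 𝓝 (0:ℝ), μ (Metric.cthickening r {x}) < ENNReal.ofReal η :=
    h1.eventually (gt_mem_nhds (ENNReal.ofReal_pos.2 hη))
  have h3 : ∀ᶠ r in 𝓝[>] (0:ℝ), μ (Metric.cthickening r {x}) < ENNReal.ofReal η :=
    nhdsWithin_le_nhds h2
  obtain ⟨r, hr1, hr2⟩ := (h3.and self_mem_nhdsWithin).exists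
  refine ⟨r, hr2, ?_⟩
  rw [Metric.cthickening_singleton x (le_of_lt hr2)] at hr1
  rw [measureReal_def]
  exact (ENNReal.lt_ofReal_iff_toReal_lt (measure_ne_top _ _)).1 hr1

/-- the supremum is attained -/
theorem attained (hp : 1 < p) (h : Mo p U μ) {W : Set ℝ} (hWo : IsOpen W) (hW : Wᶜ.Nonempty)
    (hU0 : ∀ t, t ∉ W → U t = 0) (hA : 0 < μ.real univ)
    (hsup : ∀ c, c < μ.real univ → ∃ x ∈ W, c * Metric.infDist x Wᶜ ^ (p - 1) ≤ |U x| ^ p) :
    ∃ x ∈ W, μ.real univ * Metric.infDist x Wᶜ ^ (p - 1) ≤ |U x| ^ p := by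
  have := h.fin
  have hp0 : 0 < p := by linarith
  have hp1 : 0 < p - 1 := by linarith
  set A : ℝ := μ.real univ with hAd
  have hc : ∀ k : ℕ, A * (1 - 1 / ((k:ℝ) + 2)) < A := fun k => by
    have : 0 < 1 / ((k:ℝ) + 2) := by positivity
    nlinarith
  choose x hxW hx using fun k => hsup _ (hc k)
  have hc2 : ∀ k : ℕ, A / 2 ≤ A * (1 - 1 / ((k:ℝ) + 2)) := fun k => by
    have h1 : 1 / ((k:ℝ) + 2) ≤ 1 / 2 := by
      refine one_div_le_one_div_of_le (by norm_num) ?_
      have : (0:ℝ) ≤ k := by positivity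
      linarith
    nlinarith
  have hcl : IsClosed Wᶜ := hWo.isClosed_compl
  have hd0 : ∀ t ∈ W, 0 < Metric.infDist t Wᶜ := fun t ht =>
    (hcl.notMem_iff_infDist_pos hW).1 (by simpa using ht)
  have hy : ∀ k, ∃ y, y ∉ W ∧ |x k - y| = Metric.infDist (x k) Wᶜ := fun k => by
    obtain ⟨y, hy, h1⟩ := hcl.exists_infDist_eq_dist hW (x k)
    exact ⟨y, hy, by rw [h1, Real.dist_eq]⟩
  choose y hyW hyd using hy
  set I : ℕ → Set ℝ := fun k => Ioo (min (y k) (x k)) (max (y k) (x k)) with hI
  have hmI : ∀ k, A / 2 ≤ μ.real (I k) := by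
    intro k
    have h1 := h.ineq' hp (y k) (x k)
    rw [hU0 _ (hyW k), sub_zero, hyd k] at h1
    have h2 := hx k
    have h3 : 0 < Metric.infDist (x k) Wᶜ ^ (p - 1) := Real.rpow_pos_of_pos (hd0 _ (hxW k)) _
    have h4 := h2.trans h1
    rw [mul_comm] at h4
    exact (hc2 k).trans (le_of_mul_le_mul_left h4 h3)
  have hIx : ∀ k, ∀ w ∈ I k, |x k - w| ≤ Metric.infDist (x k) Wᶜ := by
    intro k w hw
    rw [← hyd k]
    simp only [I, mem_Ioo] at hw
    rcases le_total (y k) (x k) with h1 | h1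
    · rw [min_eq_left h1, max_eq_right h1] at hw
      rw [abs_of_nonneg (by linarith [hw.2]), abs_of_nonneg (by linarith)]
      linarith [hw.1]
    · rw [min_eq_right h1, max_eq_left h1] at hw
      rw [abs_of_nonpos (by linarith [hw.1]), abs_of_nonpos (by linarith)]
      linarith [hw.2]
  -- boundedness
  set η : ℝ := A / 2 * (1 / 4) ^ p with hη
  have hη0 : 0 < η := by positivity
  have hηA : η < A / 2 := by
    have h1 : ((1:ℝ) / 4) ^ p < 1 := Real.rpow_lt_one (by norm_num) (by norm_num) hp0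
    rw [hη]
    nlinarith
  obtain ⟨M, hM0, hM⟩ := exists_tight μ hη0
  obtain ⟨C, hC⟩ := (isCompact_closedBall (0:ℝ) M).exists_bound_of_continuousOn h.cont.continuousOn
  have hC0 : 0 ≤ C := (norm_nonneg _).trans (hC 0 (Metric.mem_closedBall_self hM0))
  set B : ℝ := 2 ^ p * C ^ p / (A / 2) with hB
  have hB0 : 0 ≤ B := by positivity
  have hbd : ∀ k, |x k| ≤ M + B ^ (1 / (p - 1)) := by
    intro k
    rcases le_or_gt (|x k|) M with h1 | h1
    · have : 0 ≤ B ^ (1 / (p - 1)) := by positivity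
      linarith
    set d : ℝ := Metric.infDist (x k) Wᶜ with hd
    have hdpos : 0 < d := hd0 _ (hxW k)
    have hdp : 0 < d ^ (p - 1) := Real.rpow_pos_of_pos hdpos _
    -- the interval meets the ball
    obtain ⟨w, hwI, hwM⟩ : ∃ w ∈ I k, |w| ≤ M := by
      by_contra hcon
      push Not at hcon
      have h2 : I k ⊆ (Metric.closedBall (0:ℝ) M)ᶜ := by
        intro w hw
        rw [mem_compl_iff, mem_closedBall_zero_iff, Real.norm_eq_abs, not_le]
        exact hcon w hw
      have h3 := measureReal_mono (μ := μ) h2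
      linarith [hmI k]
    -- the nearest endpoint
    obtain ⟨z, hz1, hz2, hz3⟩ : ∃ z, |z| ≤ M ∧ |x k - z| ≤ |x k - w| ∧ |x k| = |z| + |x k - z| ∧ True ∧
        Ioo (min z (x k)) (max z (x k)) ⊆ (Metric.closedBall (0:ℝ) M)ᶜ := by
      rw [abs_le] at hwM
      rcases le_or_gt 0 (x k) with h2 | h2
      · rw [abs_of_nonneg h2] at h1
        refine ⟨M, by rw [abs_of_nonneg hM0], ?_, ?_, trivial, ?_⟩
        · rw [abs_of_pos (by linarith), abs_of_pos (by linarith)]; linarith
        · rw [abs_of_nonneg h2, abs_of_nonneg hM0, abs_of_pos (by linarith)]; ring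
        · intro t ht
          rw [min_eq_left h1.le, max_eq_right h1.le] at ht
          rw [mem_compl_iff, mem_closedBall_zero_iff, Real.norm_eq_abs, not_le]
          exact ht.1.trans_le (le_abs_self t)
      · rw [abs_of_neg h2] at h1
        refine ⟨-M, by rw [abs_neg, abs_of_nonneg hM0], ?_, ?_, trivial, ?_⟩
        · rw [abs_of_neg (by linarith), abs_of_neg (by linarith)]; linarith
        · rw [abs_of_neg h2, abs_neg, abs_of_nonneg hM0, abs_of_neg (by linarith)]; ring
        · intro t ht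
          rw [min_eq_right (by linarith), max_eq_left (by linarith)] at ht
          rw [mem_compl_iff, mem_closedBall_zero_iff, Real.norm_eq_abs, not_le]
          have := neg_abs_le t
          linarith [ht.2]
    have hzd : |x k - z| ≤ d := hz2.trans (hIx k w hwI)
    have hUz : |U z| ≤ C := by
      have := hC z (by rw [mem_closedBall_zero_iff, Real.norm_eq_abs]; exact hz1)
      rwa [Real.norm_eq_abs] at this
    have hD : |U (x k) - U z| ^ p ≤ d ^ (p - 1) * η := by
      refine (h.ineq' hp z (x k)).trans ?_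
      refine mul_le_mul (Real.rpow_le_rpow (abs_nonneg _) hzd hp1.le) ?_ measureReal_nonneg
        hdp.le
      exact (measureReal_mono hz3.2.2).trans hM.le
    have hmain : A / 2 * d ^ (p - 1) ≤ |U (x k)| ^ p :=
      (mul_le_mul_of_nonneg_right (hc2 k) hdp.le).trans (hx k)
    have htri : |U (x k)| ≤ |U z| + |U (x k) - U z| := by
      have := abs_add_le (U z) (U (x k) - U z)
      rwa [add_sub_cancel] at this
    have hmax : |U (x k)| ^ p ≤ 2 ^ p * max (C ^ p) (|U (x k) - U z| ^ p) := by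
      rcases le_total C (|U (x k) - U z|) with h2 | h2
      · rw [max_eq_right (Real.rpow_le_rpow hC0 h2 hp0.le),
          ← Real.mul_rpow (by norm_num) (abs_nonneg _)]
        exact Real.rpow_le_rpow (abs_nonneg _) (by linarith) hp0.le
      · rw [max_eq_left (Real.rpow_le_rpow (abs_nonneg _) h2 hp0.le),
          ← Real.mul_rpow (by norm_num) hC0]
        exact Real.rpow_le_rpow (abs_nonneg _) (by linarith) hp0.le
    have h2p : (0:ℝ) < 2 ^ p := Real.rpow_pos_of_pos (by norm_num) _
    have hdB : d ^ (p - 1) ≤ B := by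
      rcases le_total (C ^ p) (|U (x k) - U z| ^ p) with h2 | h2
      · exfalso
        rw [max_eq_right h2] at hmax
        have h3 : 2 ^ p * (d ^ (p - 1) * η) < A / 2 * d ^ (p - 1) := by
          have h4 : (2:ℝ) ^ p * (1 / 4) ^ p < 1 := by
            rw [← Real.mul_rpow (by norm_num) (by norm_num)]
            exact Real.rpow_lt_one (by norm_num) (by norm_num) hp0
          calc (2:ℝ) ^ p * (d ^ (p - 1) * η) = (2 ^ p * (1 / 4) ^ p) * (A / 2 * d ^ (p - 1)) := by
                rw [hη]; ring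
            _ < 1 * (A / 2 * d ^ (p - 1)) := mul_lt_mul_of_pos_right h4 (by positivity)
            _ = _ := one_mul _
        have h5 := mul_le_mul_of_nonneg_left hD h2p.le
        linarith
      · rw [max_eq_left h2] at hmax
        rw [hB, le_div_iff₀ (by positivity)]
        linarith
    have hdle : d ≤ B ^ (1 / (p - 1)) := by
      have h3 := Real.rpow_le_rpow hdp.le hdB (z := 1 / (p - 1)) (by positivity)
      rwa [← Real.rpow_mul hdpos.le, mul_one_div_cancel hp1.ne', Real.rpow_one] at h3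
    rw [hz3.1]
    linarith
  -- limit
  set V : Ultrafilter ℕ := Filter.hyperfilter ℕ with hV
  have hVat : (V : Filter ℕ) ≤ atTop :=
    Filter.hyperfilter_le_cofinite.trans Nat.cofinite_eq_atTop.le
  obtain ⟨x₀, -, hxl⟩ := exists_ult (isCompact_closedBall (0 : ℝ) (M + B ^ (1 / (p - 1)))) V x
    (fun j => by rw [mem_closedBall_zero_iff, Real.norm_eq_abs]; exact hbd j)
  have hdl : Tendsto (fun k => Metric.infDist (x k) Wᶜ) V (𝓝 (Metric.infDist x₀ Wᶜ)) :=
    ((Metric.continuous_infDist_pt Wᶜ).tendsto x₀).comp hxl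
  by_cases hx₀ : x₀ ∈ W
  · refine ⟨x₀, hx₀, ?_⟩
    have hD0 : 0 < Metric.infDist x₀ Wᶜ := hd0 _ hx₀
    have h1 : Tendsto (fun k : ℕ => A * (1 - 1 / ((k:ℝ) + 2))) V (𝓝 (A * (1 - 0))) := by
      have h2 : Tendsto (fun k : ℕ => 1 / ((k:ℝ) + 2)) atTop (𝓝 0) := by
        have h3 := (tendsto_one_div_add_atTop_nhds_zero_nat (𝕜 := ℝ)).comp (tendsto_add_atTop_nat 1)
        refine h3.congr fun k => ?_
        simp only [Function.comp]
        push_cast
        ring_nf
      exact ((tendsto_const_nhds.sub (h2.mono_left hVat))).const_mul A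
    rw [sub_zero, mul_one] at h1
    have h4 : Tendsto (fun k => Metric.infDist (x k) Wᶜ ^ (p - 1)) V
        (𝓝 (Metric.infDist x₀ Wᶜ ^ (p - 1))) :=
      (Real.continuousAt_rpow_const _ (p - 1) (Or.inl hD0.ne')).tendsto.comp hdl
    have h5 : Tendsto (fun k => |U (x k)| ^ p) V (𝓝 (|U x₀| ^ p)) := by
      have h6 : Continuous fun t => |U t| ^ p :=
        h.cont.abs.rpow_const fun t => Or.inr hp0.le
      exact (h6.tendsto x₀).comp hxl
    exact le_of_tendsto_of_tendsto (h1.mul h4) h5 (Eventually.of_forall hx)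
  · exfalso
    have h0 : Metric.infDist x₀ Wᶜ = 0 := Metric.infDist_zero_of_mem (by simpa using hx₀)
    rw [h0] at hdl
    obtain ⟨r, hr0, hr⟩ := exists_small_ball μ (h.atom x₀) (show 0 < A / 2 by positivity)
    obtain ⟨k, hk1, hk2⟩ := (((Metric.tendsto_nhds.1 hxl) (r / 2) (by positivity)).and
      (hdl.eventually (gt_mem_nhds (show (0:ℝ) < r / 2 by positivity)))).exists
    have h1 : I k ⊆ Metric.closedBall x₀ r := by
      intro w hw
      have h2 := hIx k w hw
      rw [Metric.mem_closedBall]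
      have h3 := dist_triangle w (x k) x₀
      rw [dist_comm w (x k), Real.dist_eq (x k) w] at h3
      linarith
    have h2 := measureReal_mono (μ := μ) h1
    linarith [hmI k]

end Pool.Agent.H72.HM
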