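import Pool.Agent.H72.HM.B3

set_option autoImplicit false

open MeasureTheory Filter Topology Set
open scoped ENNReal NNReal RealInnerProductSpace ContDiff

/-!
Dimension one: rigidity.
-/

namespace Pool.Agent.H72.HM

theorem conv_eq {p a b l m : ℝ} (hp : 1 < p) (hl : 0 < l) (hm : 0 < m)
    (h : |a| ^ p / l ^ (p - 1) + |b| ^ p / m ^ (p - 1) ≤ |a + b| ^ p / (l + m) ^ (p - 1)) :
    a / l = b / m := by
  have hp0 : 0 < p := by linarith
  have e : ∀ c t : ℝ, 0 < t → |c| ^ p / t ^ (p - 1) = t * (|c| / t) ^ p := by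
    intro c t ht
    rw [Real.div_rpow (abs_nonneg _) ht.le, Real.rpow_sub_one ht.ne']
    have : t ^ p ≠ 0 := (Real.rpow_pos_of_pos ht _).ne'
    field_simp
  have hlm : 0 < l + m := by linarith
  rw [e a l hl, e b m hm, e (a + b) (l + m) hlm] at h
  set α : ℝ := |a| / l with hα
  set β : ℝ := |b| / m with hβ
  have hα0 : 0 ≤ α := by positivity
  have hβ0 : 0 ≤ β := by positivity
  have ha : |a| = l * α := by rw [hα]; field_simp
  have hb : |b| = m * β := by rw [hβ]; field_simp
  have htri : |a + b| / (l + m) ≤ (l * α + m * β) / (l + m) := by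
    refine div_le_div_of_nonneg_right ?_ hlm.le
    rw [← ha, ← hb]
    exact abs_add_le a b
  have hαβ : α = β := by
    by_contra hne
    have h1 := (strictConvexOn_rpow hp).2 (mem_Ici.2 hα0) (mem_Ici.2 hβ0) hne
      (show 0 < l / (l + m) by positivity) (show 0 < m / (l + m) by positivity)
      (by rw [← add_div, div_self hlm.ne'])
    simp only [smul_eq_mul] at h1
    have h2 : (|a + b| / (l + m)) ^ p ≤ (l / (l + m) * α + m / (l + m) * β) ^ p := by
      refine Real.rpow_le_rpow (by positivity) (htri.trans (le_of_eq ?_)) hp0.le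
      ring
    have h3 : (l + m) * (l / (l + m) * α ^ p + m / (l + m) * β ^ p) = l * α ^ p + m * β ^ p := by
      field_simp
    have h4 := mul_lt_mul_of_pos_left (h2.trans_lt h1) hlm
    linarith
  have h5 : α ≤ |a + b| / (l + m) := by
    rw [← hαβ, ← add_mul] at h
    have h6 := le_of_mul_le_mul_left h hlm
    by_contra hcon
    push Not at hcon
    exact absurd (Real.rpow_lt_rpow (by positivity) hcon hp0) (not_lt.2 h6)
  rw [le_div_iff₀ hlm] at h5
  have h6 : |a| + |b| ≤ |a + b| := by
    rw [ha, hb, ← hαβ]; linarith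
  have h7 : |a| * m = |b| * l := by rw [ha, hb, ← hαβ]; ring
  rw [div_eq_div_iff hl.ne' hm.ne']
  rcases le_total 0 a with h8 | h8 <;> rcases le_total 0 b with h9 | h9
  · rw [abs_of_nonneg h8, abs_of_nonneg h9] at h7
    exact h7
  · rw [abs_of_nonneg h8, abs_of_nonpos h9] at h6 h7
    have h10 : a = 0 ∨ b = 0 := by
      rcases abs_cases (a + b) with ⟨h11, -⟩ | ⟨h11, -⟩
      · right; linarith
      · left; linarith
    rcases h10 with rfl | rfl
    · have : b = 0 := by
        have : -b * l = 0 := by linarith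
        rcases mul_eq_zero.1 this with h | h
        · linarith
        · exact absurd h hl.ne'
      rw [this]; ring
    · have : a = 0 := by
        have : a * m = 0 := by linarith
        rcases mul_eq_zero.1 this with h | h
        · exact h
        · exact absurd h hm.ne'
      rw [this]; ring
  · rw [abs_of_nonpos h8, abs_of_nonneg h9] at h6 h7
    have h10 : a = 0 ∨ b = 0 := by
      rcases abs_cases (a + b) with ⟨h11, -⟩ | ⟨h11, -⟩
      · left; linarith
      · right; linarith
    rcases h10 with rfl | rfl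
    · have : b = 0 := by
        have : b * l = 0 := by linarith
        rcases mul_eq_zero.1 this with h | h
        · exact h
        · exact absurd h hl.ne'
      rw [this]; ring
    · have : a = 0 := by
        have : -a * m = 0 := by linarith
        rcases mul_eq_zero.1 this with h | h
        · linarith
        · exact absurd h hm.ne'
      rw [this]; ring
  · rw [abs_of_nonpos h8, abs_of_nonpos h9] at h7
    linarith

variable {p : ℝ} {U : ℝ → ℝ} {μ : Measure ℝ}

theorem rigid (hp : 1 < p) (h : Mo p U μ) {W : Set ℝ} (hWc : IsPreconnected W)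
    (hU0 : ∀ t, t ∉ W → U t = 0) {x y : ℝ} (hxW : x ∈ W) (hyW : y ∉ W) (hyx : y < x)
    (hball : ∀ t, |t - x| < |x - y| → t ∈ W)
    (hmain : μ.real univ * |x - y| ^ (p - 1) ≤ |U x| ^ p) (hUx : U x ≠ 0) :
    W = Ioi y ∧ ∀ t, y ≤ t → U t = U x / (x - y) * min (t - y) (x - y) := by
  have := h.fin
  have hp0 : 0 < p := by linarith
  have hp1 : 0 < p - 1 := by linarith
  have hd : 0 < x - y := by linarith
  rw [abs_of_pos hd] at hball hmain
  set A : ℝ := μ.real univ with hA
  have hdp : 0 < (x - y) ^ (p - 1) := Real.rpow_pos_of_pos hd _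
  have hUy : U y = 0 := hU0 y hyW
  have hadd : ∀ a b c : ℝ, μ.real (Ioo a b) + μ.real (Ioo b c) ≤ A := by
    intro a b c
    rw [← measureReal_union (by
      rw [Set.disjoint_left]
      intro t h1 h2
      exact absurd (h1.2.trans h2.1) (lt_irrefl _)) measurableSet_Ioo]
    exact measureReal_mono (subset_univ _)
  have hAyx : A ≤ μ.real (Ioo y x) := by
    have h1 := h.ineq y x hyx
    rw [hUy, sub_zero] at h1
    have h2 := hmain.trans h1
    rw [mul_comm] at h2
    exact le_of_mul_le_mul_left h2 hdp
  have hright : ∀ c, x ≤ c → U c = U x := by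
    intro c hc
    rcases eq_or_lt_of_le hc with rfl | hc
    · rfl
    have h1 := h.ineq x c hc
    have h2 : μ.real (Ioo x c) ≤ 0 := by linarith [hadd y x c]
    have h3 : 0 ≤ (c - x) ^ (p - 1) := Real.rpow_nonneg (by linarith) _
    have h4 : |U c - U x| ^ p ≤ 0 := h1.trans (mul_nonpos_of_nonneg_of_nonpos h3 h2)
    by_contra hne
    have h5 : 0 < |U c - U x| ^ p := Real.rpow_pos_of_pos (abs_pos.2 (sub_ne_zero.2 hne)) _
    linarith
  have hW : W = Ioi y := by
    ext w
    constructor
    · intro hw
      rw [mem_Ioi]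
      by_contra hcon
      push Not at hcon
      exact hyW (hWc.ordConnected.out hw hxW ⟨hcon, hyx.le⟩)
    · intro hw
      rw [mem_Ioi] at hw
      rcases le_or_gt x w with h1 | h1
      · by_contra h2
        exact hUx ((hright w h1).symm.trans (hU0 w h2))
      · refine hball w ?_
        rw [abs_of_neg (by linarith)]; linarith
  refine ⟨hW, fun t ht => ?_⟩
  rcases eq_or_lt_of_le ht with rfl | ht
  · rw [sub_self, min_eq_left hd.le, mul_zero, hUy]
  rcases le_or_gt x t with h1 | h1
  · rw [hright t h1, min_eq_right (by linarith)]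
    field_simp
  rw [min_eq_left (by linarith)]
  have hl : 0 < t - y := by linarith
  have hm : 0 < x - t := by linarith
  have h2 := h.ineq y t ht
  have h3 := h.ineq t x h1
  rw [hUy, sub_zero] at h2
  have h4 : |U t| ^ p / (t - y) ^ (p - 1) ≤ μ.real (Ioo y t) := by
    rw [div_le_iff₀ (Real.rpow_pos_of_pos hl _), mul_comm]; exact h2
  have h5 : |U x - U t| ^ p / (x - t) ^ (p - 1) ≤ μ.real (Ioo t x) := by
    rw [div_le_iff₀ (Real.rpow_pos_of_pos hm _), mul_comm]; exact h3
  have h6 : A ≤ |U x| ^ p / (x - y) ^ (p - 1) := by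
    rw [le_div_iff₀ hdp]; exact hmain
  have h7 := conv_eq (a := U t) (b := U x - U t) hp hl hm (by
    rw [show U t + (U x - U t) = U x by ring, show t - y + (x - t) = x - y by ring]
    linarith [hadd y t x])
  rw [div_eq_div_iff hl.ne' hm.ne'] at h7
  rw [div_mul_eq_mul_div, eq_div_iff hd.ne']
  linarith

theorem Mo.neg (h : Mo p U μ) : Mo p (fun t => U (-t)) (μ.map (fun t => -t)) := by
  have := h.fin
  refine ⟨h.cont.comp continuous_neg, fun a b hab => ?_, inferInstance, fun x => ?_⟩
  · have h1 := h.ineq (-b) (-a) (by linarith)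
    rw [map_measureReal_apply measurable_neg measurableSet_Ioo]
    have h2 : (fun t : ℝ => -t) ⁻¹' Ioo a b = Ioo (-b) (-a) := by
      ext t
      simp only [mem_preimage, mem_Ioo]
      constructor <;> rintro ⟨h3, h4⟩ <;> constructor <;> linarith
    rw [h2, abs_sub_comm]
    rwa [show -a - -b = b - a by ring] at h1
  · rw [Measure.map_apply measurable_neg (measurableSet_singleton x)]
    have h2 : (fun t : ℝ => -t) ⁻¹' {x} = {-x} := by
      ext t
      simp only [mem_preimage, mem_singleton_iff]
      constructor <;> intro h3 <;> linarith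
    rw [h2]
    exact h.atom _

/-- the form of one-dimensional extremals -/
theorem form (hp : 1 < p) (h : Mo p U μ) {W : Set ℝ} (hWo : IsOpen W) (hWc : IsPreconnected W)
    (hW : Wᶜ.Nonempty) (hU0 : ∀ t, t ∉ W → U t = 0) (hA : 0 < μ.real univ)
    (hsup : ∀ c, c < μ.real univ → ∃ x ∈ W, c * Metric.infDist x Wᶜ ^ (p - 1) ≤ |U x| ^ p) :
    ∃ y σ d κ : ℝ, (σ = 1 ∨ σ = -1) ∧ 0 < d ∧ κ ≠ 0 ∧ W = {z | 0 < σ * (z - y)} ∧
      ∀ z, U z = κ * min (max (σ * (z - y)) 0) d := by
  obtain ⟨x, hxW, hx⟩ := attained hp h hWo hW hU0 hA hsup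
  have hcl : IsClosed Wᶜ := hWo.isClosed_compl
  have hd0 : 0 < Metric.infDist x Wᶜ := (hcl.notMem_iff_infDist_pos hW).1 (by simpa using hxW)
  obtain ⟨y, hy, h1⟩ := hcl.exists_infDist_eq_dist hW x
  have hyW : y ∉ W := hy
  rw [Real.dist_eq] at h1
  have hball : ∀ t, |t - x| < |x - y| → t ∈ W := by
    intro t ht
    by_contra hcon
    have := Metric.infDist_le_dist_of_mem (x := x) (show t ∈ Wᶜ from hcon)
    rw [h1, Real.dist_eq, abs_sub_comm x t] at this
    linarith
  rw [h1] at hx hd0
  have hUx : U x ≠ 0 := by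
    intro h2
    rw [h2, abs_zero, Real.zero_rpow (by linarith)] at hx
    have : 0 < μ.real univ * |x - y| ^ (p - 1) := mul_pos hA (Real.rpow_pos_of_pos hd0 _)
    linarith
  rcases lt_trichotomy y x with hyx | rfl | hyx
  · obtain ⟨h2, h3⟩ := rigid hp h hWc hU0 hxW hyW hyx hball hx hUx
    refine ⟨y, 1, x - y, U x / (x - y), Or.inl rfl, by linarith,
      div_ne_zero hUx (by linarith), ?_, fun z => ?_⟩
    · rw [h2]; ext z; simp
    · rcases le_or_gt y z with h4 | h4
      · rw [h3 z h4, one_mul, max_eq_left (by linarith)]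
      · rw [one_mul, max_eq_right (by linarith), min_eq_left (by linarith), mul_zero]
        refine hU0 z ?_
        rw [h2, mem_Ioi, not_lt]
        exact h4.le
  · rw [sub_self, abs_zero] at hd0
    exact absurd hd0 (lt_irrefl _)
  · have hneg : IsPreconnected ((fun t : ℝ => -t) ⁻¹' W) := by
      have : (fun t : ℝ => -t) ⁻¹' W = (fun t : ℝ => -t) '' W := by
        ext t
        constructor
        · intro ht
          exact ⟨-t, ht, neg_neg t⟩
        · rintro ⟨s, hs, rfl⟩
          simpa using hs
      rw [this]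
      exact hWc.image _ continuous_neg.continuousOn
    obtain ⟨h2, h3⟩ := rigid (x := -x) (y := -y) hp h.neg hneg (fun t ht => hU0 _ ht)
      (by simpa using hxW) (by simpa using hyW) (by linarith) (fun t ht => hball _ (by
        rw [show -t - x = -(t - -x) by ring, abs_neg]
        rwa [show -x - -y = -(x - y) by ring, abs_neg] at ht))
      (by
        rw [show -x - -y = -(x - y) by ring, abs_neg, neg_neg,
          map_measureReal_apply measurable_neg MeasurableSet.univ, preimage_univ]
        exact hx) (by simpa using hUx)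
    simp only [neg_neg] at h3
    have h5 : ∀ z, z ∈ W ↔ z < y := by
      intro z
      have : z ∈ W ↔ -z ∈ (fun t : ℝ => -t) ⁻¹' W := by simp
      rw [this, h2, mem_Ioi]
      constructor <;> intro h <;> linarith
    refine ⟨y, -1, y - x, U x / (y - x), Or.inr rfl, by linarith,
      div_ne_zero hUx (by linarith), ?_, fun z => ?_⟩
    · ext z
      rw [h5, mem_ofPred_eq]
      constructor <;> intro h <;> linarith
    · rcases le_or_gt z y with h4 | h4
      · have h6 := h3 (-z) (by linarith)
        rw [neg_neg] at h6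
        rw [h6, max_eq_left (by linarith)]
        congr 2 <;> ring
      · rw [max_eq_right (by linarith), min_eq_left (by linarith), mul_zero]
        refine hU0 z ?_
        rw [h5, not_lt]
        exact h4.le

end Pool.Agent.H72.HM
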