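import Mathlib

set_option autoImplicit false

/-!
# The Hardy–Morrey inequality: definitions
-/

open MeasureTheory Filter Topology Set
open scoped ENNReal NNReal RealInnerProductSpace

namespace Pool.Agent.H72.HM

/-- Euclidean space `ℝⁿ` -/
abbrev E (n : ℕ) := EuclideanSpace ℝ (Fin n)

variable {n : ℕ}

/-- `g` is the weak gradient of `u`: `∫ u ∇φ = - ∫ φ g` for all test functions `φ` -/
def IsWeakGradient (u : E n → ℝ) (g : E n → E n) : Prop :=
  ∀ φ : E n → ℝ, ContDiff ℝ (⊤ : ℕ∞) φ → HasCompactSupport φ →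
    ∫ x, u x • gradient φ x = - ∫ x, φ x • g x

/-- `u ∈ D^{1,p}_0(Ω)`, with weak gradient `g`: `u` is the continuous representative of a function
whose weak gradient `g` is in `L^p(ℝⁿ)`, and `u = 0` outside `Ω` -/
structure MemD0 (p : ℝ) (Ω : Set (E n)) (u : E n → ℝ) (g : E n → E n) : Prop where
  cont : Continuous u
  grad : IsWeakGradient u g
  memLp : MemLp g (ENNReal.ofReal p) volume
  zero : ∀ x, x ∉ Ω → u x = 0

/-- `‖Du‖_p^p` -/
noncomputable def energy (p : ℝ) (g : E n → E n) : ℝ≥0∞ := ∫⁻ x, ‖g x‖ₑ ^ p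

/-- `‖u / d_Ω^{1-n/p}‖_∞`, the supremum over `Ω` -/
noncomputable def weightedSup (p : ℝ) (Ω : Set (E n)) (u : E n → ℝ) : ℝ≥0∞ :=
  ⨆ x ∈ Ω, ENNReal.ofReal (|u x| / Metric.infDist x Ωᶜ ^ (1 - (n : ℝ) / p))

/-- the Hardy–Morrey constant `λ_p(Ω)` -/
noncomputable def hardyMorrey (p : ℝ) (Ω : Set (E n)) : ℝ≥0∞ :=
  ⨅ (u : E n → ℝ) (g : E n → E n) (_ : MemD0 p Ω u g) (_ : u ≠ 0),
    energy p g / weightedSup p Ω u ^ p

/-- `u` is an extremal: a nonzero element of `D^{1,p}_0(Ω)` whose quotient equals `λ_p(Ω)` -/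
def IsExtremal (p : ℝ) (Ω : Set (E n)) (u : E n → ℝ) : Prop :=
  u ≠ 0 ∧ ∃ g : E n → E n, MemD0 p Ω u g ∧
    energy p g / weightedSup p Ω u ^ p = hardyMorrey p Ω

/-- The uniqueness statement of the question in dimension `n` with exponent `p`: for every
connected open `Ω ≠ ℝⁿ`, any two extremals `u, v` satisfy `v = c (u ∘ T)` for some `c ≠ 0` and some
similarity `T x = r Q x + t` with `T(Ω) = Ω`. -/
def UniqueExtremals (n : ℕ) (p : ℝ) : Prop :=
  ∀ Ω : Set (E n), IsOpen Ω → IsConnected Ω → Ω ≠ univ → ∀ u v : E n → ℝ,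
    IsExtremal p Ω u → IsExtremal p Ω v →
      ∃ (c r : ℝ) (Q : E n ≃ₗᵢ[ℝ] E n) (t : E n), c ≠ 0 ∧ 0 < r ∧
        (fun x => r • Q x + t) '' Ω = Ω ∧ v = fun x => c * u (r • Q x + t)

end Pool.Agent.H72.HM
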