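import Pool.Agent.H72.HM.B4
import Pool.Agent.H72.HM.Defs

set_option autoImplicit false

/-!
Proofs: uniqueness for `n = 1`, non-uniqueness for `n ≥ 2` and every `p > n`.
-/

open MeasureTheory Filter Topology Set
open scoped ENNReal NNReal RealInnerProductSpace

namespace Pool.Agent.H72.HM

variable {n : ℕ}

open Pool.Agent.H68R3
open Pool.Agent.Helper533.Polar (H0 Cc)

variable {p : ℝ} {e : E n} {ε s : ℝ}

/-- compactly supported members are in the closure of the test functions -/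
theorem MemD0.toH0 (hn : 1 ≤ n) {p : ℝ} (hp : 1 < p) {Ω : Set (E n)} {u : E n → ℝ} {g : E n → E n}
    (h : MemD0 p Ω u g) (hb : Bornology.IsBounded Ω) : H0 p volume univ u g := by
  have hK : IsCompact (closure Ω) := hb.isCompact_closure
  have hcs : HasCompactSupport u := HasCompactSupport.intro hK fun x hx =>
    h.zero x fun h' => hx (subset_closure h')
  have hu : MemLp u (ENNReal.ofReal p) volume := h.cont.memLp_of_hasCompactSupport hcs
  refine ⟨hu, h.memLp, fun ε hε => ?_⟩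
  obtain ⟨δ, hδ, hδε⟩ : ∃ δ : ℝ, 0 < δ ∧ ENNReal.ofReal δ ≤ ε := by
    by_cases ht : ε = ∞
    · exact ⟨1, one_pos, by rw [ht]; exact le_top⟩
    · exact ⟨ε.toReal, ENNReal.toReal_pos hε ht, ENNReal.ofReal_toReal_le⟩
  obtain ⟨φ, h1, -, h2, h3, -, -⟩ := Pool.Agent.Helper533.Polar.mollify_weak hn hp hu h.memLp hK
    (Eventually.of_forall fun x hx => h.zero x fun h' => hx (subset_closure h'))
    (fun φ hφ => h.grad φ hφ.smooth hφ.comp) hδ
  exact ⟨φ, h1, h2.trans hδε, h3.trans hδε⟩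

theorem isBounded_Om : Bornology.IsBounded (Om e ε s) := Metric.isBounded_ball.subset bounded_Om

theorem MemD0.toFe (hn : 1 ≤ n) (hp : 1 < p) {u : E n → ℝ} {g : E n → E n}
    (h : MemD0 p (Om e ε s) u g) : Fe p u g :=
  ⟨h.cont, h.toH0 hn hp isBounded_Om, fun x hx => h.zero x fun h' => by
    have := bounded_Om h'
    rw [Metric.mem_ball, dist_zero_right] at this
    linarith⟩

theorem Fe.toMemD0 (hp : 1 < p) {u : E n → ℝ} {g : E n → E n} (h : Fe p u g)
    (hz : ∀ z, DD e ε s z ≤ 0 → u z = 0) : MemD0 p (Om e ε s) u g :=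
  ⟨h.cont, fun _ h1 h2 => Pool.Agent.Helper533.Polar.H0.ibp hp h.h0 ⟨h1, h2, subset_univ _⟩,
    h.h0.mU, fun x hx => hz x (not_mem_Om.1 hx)⟩

theorem quot_rpow (hn : 1 ≤ n) (hp : (n : ℝ) < p) {a d : ℝ} (ha : 0 ≤ a) (hd : 0 < d) :
    ENNReal.ofReal (a / d ^ (1 - (n : ℝ) / p)) ^ p =
      ENNReal.ofReal (a ^ p) * (ENNReal.ofReal (d ^ (p - n)))⁻¹ := by
  have hn' : (1 : ℝ) ≤ n := by exact_mod_cast hn
  have hp0 : 0 < p := by linarith
  rw [ENNReal.ofReal_rpow_of_nonneg (by positivity) hp0.le, Real.div_rpow ha (by positivity),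
    ← Real.rpow_mul hd.le, ← ENNReal.ofReal_inv_of_pos (by positivity),
    ← ENNReal.ofReal_mul (by positivity), div_eq_mul_inv]
  congr 4
  field_simp

/-- the Hardy–Morrey inequality with the constant `lam` -/
theorem lam_sup_le (hn : 1 ≤ n) (hp : (n : ℝ) < p) (hε : 0 < ε) {u : E n → ℝ} {g : E n → E n}
    (h : MemD0 p (Om e ε s) u g) :
    lam p e ε s * weightedSup p (Om e ε s) u ^ p ≤ energy p g := by
  have hn' : (1 : ℝ) ≤ n := by exact_mod_cast hn
  have hp0 : 0 < p := by linarith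
  have hp1 : 1 < p := by linarith
  have hmono : weightedSup p (Om e ε s) u ^ p = ⨆ x ∈ Om e ε s,
      ENNReal.ofReal (|u x| / Metric.infDist x (Om e ε s)ᶜ ^ (1 - (n : ℝ) / p)) ^ p := by
    unfold weightedSup
    have e1 : ∀ t : ℝ≥0∞, (ENNReal.orderIsoRpow p hp0) t = t ^ p := fun t => rfl
    rw [← e1, (ENNReal.orderIsoRpow p hp0).map_iSup]
    congr 1; ext x
    rw [(ENNReal.orderIsoRpow p hp0).map_iSup]
    rfl
  rw [hmono, ENNReal.mul_iSup]
  refine iSup_le fun x => ?_
  rw [ENNReal.mul_iSup]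
  refine iSup_le fun hx => ?_
  have hx' : 0 < DD e ε s x := hx
  have h1 := lam_mul hp1 (h.toFe hn hp1) (fun z hz => h.zero z (not_mem_Om.2 hz)) hx'
  have hd0 : ENNReal.ofReal (DD e ε s x ^ (p - n)) ≠ 0 :=
    (ENNReal.ofReal_pos.2 (by positivity)).ne'
  rw [infDist_Om hε hx, quot_rpow hn hp (abs_nonneg _) hx', ← mul_assoc]
  calc lam p e ε s * ENNReal.ofReal (|u x| ^ p) * (ENNReal.ofReal (DD e ε s x ^ (p - n)))⁻¹
      ≤ FF p e ε s g x * (ENNReal.ofReal (DD e ε s x ^ (p - n)))⁻¹ := mul_le_mul_left h1 _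
    _ = energy p g := by
        unfold FF
        rw [mul_comm, ← mul_assoc, ENNReal.inv_mul_cancel hd0 ENNReal.ofReal_ne_top, one_mul]
        rfl

theorem sup_pos (hn : 1 ≤ n) (hp : (n : ℝ) < p) (hε : 0 < ε) {u : E n → ℝ} {g : E n → E n}
    (h : MemD0 p (Om e ε s) u g) (hu : u ≠ 0) : weightedSup p (Om e ε s) u ^ p ≠ 0 := by
  have hn' : (1 : ℝ) ≤ n := by exact_mod_cast hn
  have hp0 : 0 < p := by linarith
  obtain ⟨x, hx⟩ : ∃ x, u x ≠ 0 := by
    by_contra hcon
    push Not at hcon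
    exact hu (funext hcon)
  have hxΩ : x ∈ Om e ε s := by
    by_contra h'
    exact hx (h.zero x h')
  have hx' : 0 < DD e ε s x := hxΩ
  have h1 : ENNReal.ofReal (|u x| / Metric.infDist x (Om e ε s)ᶜ ^ (1 - (n : ℝ) / p)) ≤
      weightedSup p (Om e ε s) u := by
    unfold weightedSup
    exact le_iSup₂ (f := fun y (_ : y ∈ Om e ε s) =>
      ENNReal.ofReal (|u y| / Metric.infDist y (Om e ε s)ᶜ ^ (1 - (n : ℝ) / p))) x hxΩ
  have h2 : 0 < weightedSup p (Om e ε s) u := by
    refine lt_of_lt_of_le (ENNReal.ofReal_pos.2 ?_) h1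
    rw [infDist_Om hε hxΩ]
    have := abs_pos.2 hx
    positivity
  exact (ENNReal.rpow_pos_of_nonneg h2 hp0.le).ne'

theorem lam_le_hardyMorrey (hn : 1 ≤ n) (hp : (n : ℝ) < p) (hε : 0 < ε) :
    lam p e ε s ≤ hardyMorrey p (Om e ε s) := by
  have hn' : (1 : ℝ) ≤ n := by exact_mod_cast hn
  have hp0 : 0 < p := by linarith
  refine le_iInf₂ fun u g => le_iInf₂ fun h hu => ?_
  have hEt : energy p g ≠ ∞ := En_ne_top hp0 h.memLp
  exact (ENNReal.le_div_iff_mul_le (Or.inl (sup_pos hn hp hε h hu)) (Or.inr hEt)).2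
    (lam_sup_le hn hp hε h)

/-- optimal data are extremals -/
theorem isExtremal (hn : 1 ≤ n) (hp : (n : ℝ) < p) (hε : 0 < ε) {u : E n → ℝ} {W : E n → E n}
    {x : E n} (h : Dat p e ε s u W x) (hF : FF p e ε s W x ≤ lam p e ε s) :
    IsExtremal p (Om e ε s) u := by
  have hn' : (1 : ℝ) ≤ n := by exact_mod_cast hn
  have hp0 : 0 < p := by linarith
  have hp1 : 1 < p := by linarith
  have hx' := h.pos
  have hxΩ : x ∈ Om e ε s := h.pos
  have hM : MemD0 p (Om e ε s) u W := Fe.toMemD0 hp1 h.fe h.zero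
  have hu0 : u ≠ 0 := by
    intro h0
    have := h.one
    rw [h0] at this
    exact zero_ne_one this
  have hd0 : ENNReal.ofReal (DD e ε s x ^ (p - n)) ≠ 0 :=
    (ENNReal.ofReal_pos.2 (by positivity)).ne'
  refine ⟨hu0, W, hM, le_antisymm ?_ ?_⟩
  · refine le_trans ?_ (hF.trans (lam_le_hardyMorrey hn hp hε))
    have h1 : (ENNReal.ofReal (DD e ε s x ^ (p - n)))⁻¹ ≤ weightedSup p (Om e ε s) u ^ p := by
      have h2 : ENNReal.ofReal (|u x| / Metric.infDist x (Om e ε s)ᶜ ^ (1 - (n : ℝ) / p)) ≤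
          weightedSup p (Om e ε s) u := by
        unfold weightedSup
        exact le_iSup₂ (f := fun y (_ : y ∈ Om e ε s) =>
          ENNReal.ofReal (|u y| / Metric.infDist y (Om e ε s)ᶜ ^ (1 - (n : ℝ) / p))) x hxΩ
      have h3 := ENNReal.rpow_le_rpow h2 hp0.le
      rw [infDist_Om hε hxΩ, quot_rpow hn hp (abs_nonneg _) hx', h.one, abs_one, Real.one_rpow,
        ENNReal.ofReal_one, one_mul] at h3
      exact h3
    calc energy p W / weightedSup p (Om e ε s) u ^ p
        ≤ energy p W / (ENNReal.ofReal (DD e ε s x ^ (p - n)))⁻¹ := ENNReal.div_le_div_left h1 _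
      _ = FF p e ε s W x := by
          rw [div_eq_mul_inv, inv_inv, mul_comm]
          rfl
  · unfold hardyMorrey
    exact iInf₂_le_of_le u W (iInf₂_le_of_le hM hu0 le_rfl)

theorem Om_eq : Om e ε s = Metric.ball 0 1 \
    (Metric.closedBall 0 (rA ε s) ∪ Metric.closedBall ((1 / 2 : ℝ) • e) (rB ε s)) := by
  ext z
  simp only [Om, DD, mem_ofPred_eq, lt_min_iff, sub_pos, Set.mem_sdiff, Metric.mem_ball,
    mem_union, Metric.mem_closedBall, not_or, not_le, dist_eq_norm, sub_zero]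

/-! ### Dimension one -/

section One

variable {Ω : Set (E 1)}

theorem memLp_of_energy {g : E 1 → E 1} (hp : 1 < p) (hm : AEStronglyMeasurable g volume)
    (h : energy p g ≠ ∞) : MemLp g (ENNReal.ofReal p) volume := by
  have hp0 : 0 < p := by linarith
  refine ⟨hm, lt_top_iff_ne_top.2 fun h1 => h ?_⟩
  have h2 : energy p g = eLpNorm g (ENNReal.ofReal p) volume ^ p := En_eq hp0 g
  rw [h2, h1, ENNReal.top_rpow_of_pos hp0]

/-- in dimension one the Hardy-Morrey constant is at most one -/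
theorem hardyMorrey_le_one (hp : 1 < p) (ho : IsOpen Ω) (hne : Ω.Nonempty) (hu : Ω ≠ univ) :
    hardyMorrey p Ω ≤ 1 := by
  have hp0 : 0 < p := by linarith
  obtain ⟨x, hx⟩ := hne
  have hc : (Ωᶜ).Nonempty := nonempty_compl.2 hu
  have hcl : IsClosed Ωᶜ := ho.isClosed_compl
  obtain ⟨y, hy, hyd⟩ := hcl.exists_infDist_eq_dist hc x
  have hd0' : 0 < Metric.infDist x Ωᶜ := (hcl.notMem_iff_infDist_pos hc).1 (by simpa using hx)
  rw [dist_eq_norm] at hyd
  set d : ℝ := ‖x - y‖ with hd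
  have hd0 : 0 < d := hyd ▸ hd0'
  obtain ⟨e, he⟩ := exists_line (o₁ := d⁻¹ • (x - y)) (by
    rw [norm_smul, norm_inv, Real.norm_eq_abs, abs_of_pos hd0, ← hd, inv_mul_cancel₀ hd0.ne'])
  have hed : e d = x - y := by
    have h1 : e d = d • e 1 := by rw [← map_smul, smul_eq_mul, mul_one]
    rw [h1, he, smul_smul, mul_inv_cancel₀ hd0.ne', one_smul]
  have hin : ∀ t ∈ Ioo 0 d, y + e t ∈ Ω := by
    intro t ht
    by_contra hcon
    have h1 := Metric.infDist_le_dist_of_mem (x := x) (show y + e t ∈ Ωᶜ from hcon)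
    rw [hyd, dist_eq_norm, show x - (y + e t) = e (d - t) by rw [map_sub, hed]; abel,
      LinearIsometryEquiv.norm_map, Real.norm_eq_abs, abs_of_pos (by linarith [ht.2])] at h1
    linarith [ht.1]
  refine ENNReal.le_of_forall_pos_le_add fun δ' hδ' _ => ?_
  set δ : ℝ≥0∞ := (δ' : ℝ≥0∞)
  have hδ : 0 < δ := ENNReal.coe_pos.2 hδ'
  -- choice of `s`
  obtain ⟨R, hR1, hR2⟩ : ∃ R : ℝ, 1 ≤ R ∧ ENNReal.ofReal (R ^ (-(p - 1))) ≤ δ := by
    have h1 := tendsto_rpow_neg_atTop (show 0 < p - 1 by linarith)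
    have h2 := (ENNReal.continuous_ofReal.tendsto 0).comp h1
    rw [ENNReal.ofReal_zero] at h2
    obtain ⟨R, h3, h4⟩ := ((h2.eventually (gt_mem_nhds hδ)).and (eventually_ge_atTop 1)).exists
    exact ⟨R, h4, h3.le⟩
  set s : ℝ := d / (R + 1) with hs
  have hs0 : 0 < s := by positivity
  have hsd : s < d := by
    rw [hs, div_lt_iff₀ (by positivity)]
    nlinarith
  have hds : d - s = R * s := by rw [hs]; field_simp; ring
  obtain ⟨T, G, hT, hW, hG, hTs, hT0, hE⟩ := tent hs0 hsd hp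
  set u : E 1 → ℝ := fun z => T (e.symm (z - y)) with hu'
  set g : E 1 → E 1 := fun z => e (G (e.symm (z - y))) with hg
  have hen : energy p g ≤ ENNReal.ofReal (s ^ (1 - p) + (d - s) ^ (1 - p)) := by
    refine le_trans (le_of_eq ?_) hE
    unfold energy
    rw [← lint_line e y]
    refine lintegral_congr fun t => ?_
    simp only [g]
    rw [add_sub_cancel_left, LinearIsometryEquiv.symm_apply_apply, ← ofReal_norm,
      LinearIsometryEquiv.norm_map, ofReal_norm]
  have hgm : Measurable g := e.continuous.measurable.comp (hG.comp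
    (e.symm.continuous.measurable.comp (measurable_id.sub_const y)))
  have hM : MemD0 p Ω u g := by
    refine ⟨hT.comp (e.symm.continuous.comp (continuous_id.sub continuous_const)),
      fun φ hφ hφc => of_WD hW e y hφ hφc,
      memLp_of_energy hp hgm.aestronglyMeasurable (ne_top_of_le_ne_top ENNReal.ofReal_ne_top hen),
      fun z hz => hT0 _ fun h1 => hz ?_⟩
    have h2 := hin _ h1
    rwa [LinearIsometryEquiv.apply_symm_apply, add_sub_cancel] at h2
  have hus : u (y + e s) = 1 := by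
    simp only [u]
    rw [add_sub_cancel_left, LinearIsometryEquiv.symm_apply_apply, hTs]
  have hu0 : u ≠ 0 := by
    intro h1
    rw [h1] at hus
    exact zero_ne_one hus
  have hsΩ : y + e s ∈ Ω := hin s ⟨hs0, hsd⟩
  have hsup : ENNReal.ofReal (s ^ (1 - p)) ≤ weightedSup p Ω u ^ p := by
    have h1 : ENNReal.ofReal (|u (y + e s)| / Metric.infDist (y + e s) Ωᶜ ^ (1 - ((1:ℕ) : ℝ) / p)) ≤
        weightedSup p Ω u := by
      unfold weightedSup
      exact le_iSup₂ (f := fun z (_ : z ∈ Ω) =>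
        ENNReal.ofReal (|u z| / Metric.infDist z Ωᶜ ^ (1 - ((1:ℕ) : ℝ) / p))) _ hsΩ
    have hi0 : 0 < Metric.infDist (y + e s) Ωᶜ :=
      (hcl.notMem_iff_infDist_pos hc).1 (by simpa using hsΩ)
    have hi1 : Metric.infDist (y + e s) Ωᶜ ≤ s := by
      refine (Metric.infDist_le_dist_of_mem hy).trans (le_of_eq ?_)
      rw [dist_eq_norm, add_sub_cancel_left, LinearIsometryEquiv.norm_map, Real.norm_eq_abs,
        abs_of_pos hs0]
    have hq : 0 ≤ 1 - ((1:ℕ) : ℝ) / p := by
      rw [sub_nonneg, div_le_one hp0]; push_cast; exact hp.le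
    have h2 : ENNReal.ofReal (s ^ (-(1 - ((1:ℕ) : ℝ) / p))) ≤ weightedSup p Ω u := by
      refine le_trans (ENNReal.ofReal_le_ofReal ?_) h1
      rw [hus, abs_one, Real.rpow_neg hs0.le, ← one_div]
      exact one_div_le_one_div_of_le (Real.rpow_pos_of_pos hi0 _) (Real.rpow_le_rpow hi0.le hi1 hq)
    have h3 := ENNReal.rpow_le_rpow h2 hp0.le
    rw [ENNReal.ofReal_rpow_of_nonneg (by positivity) hp0.le, ← Real.rpow_mul hs0.le] at h3
    refine le_trans (le_of_eq ?_) h3
    congr 2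
    push_cast
    field_simp
    ring
  have hsp : 0 < s ^ (1 - p) := Real.rpow_pos_of_pos hs0 _
  calc hardyMorrey p Ω ≤ energy p g / weightedSup p Ω u ^ p :=
        iInf₂_le_of_le u g (iInf₂_le_of_le hM hu0 le_rfl)
    _ ≤ ENNReal.ofReal (s ^ (1 - p) + (d - s) ^ (1 - p)) / ENNReal.ofReal (s ^ (1 - p)) :=
        ENNReal.div_le_div hen hsup
    _ = 1 + ENNReal.ofReal (R ^ (-(p - 1))) := by
        rw [← ENNReal.ofReal_div_of_pos hsp, ← ENNReal.ofReal_one,
          ← ENNReal.ofReal_add one_pos.le (by positivity)]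
        congr 1
        rw [add_div, div_self hsp.ne', hds, Real.mul_rpow (by positivity) hs0.le,
          mul_div_assoc, div_self hsp.ne', mul_one]
        congr 2; ring
    _ ≤ 1 + δ := add_le_add_right hR2 1

/-- the form of the extremals in dimension one -/
theorem form_one (hp : 1 < p) (e₀ : ℝ ≃ₗᵢ[ℝ] E 1) (ho : IsOpen Ω) (hcon : IsPreconnected Ω)
    (hu : Ω ≠ univ) {u : E 1 → ℝ} (hue : IsExtremal p Ω u) :
    ∃ y σ d κ : ℝ, (σ = 1 ∨ σ = -1) ∧ 0 < d ∧ κ ≠ 0 ∧
      (∀ z, e₀ z ∈ Ω ↔ 0 < σ * (z - y)) ∧ ∀ z, u (e₀ z) = κ * min (max (σ * (z - y)) 0) d := by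
  have hp0 : 0 < p := by linarith
  obtain ⟨hu0, g, hM, hq⟩ := hue
  obtain ⟨x₁, hx₁⟩ : ∃ x, u x ≠ 0 := by
    by_contra h
    push Not at h
    exact hu0 (funext h)
  have hx₁Ω : x₁ ∈ Ω := by
    by_contra h
    exact hx₁ (hM.zero x₁ h)
  have hle := hardyMorrey_le_one hp ho ⟨x₁, hx₁Ω⟩ hu
  rw [← hq] at hle
  have hES : energy p g ≤ weightedSup p Ω u ^ p := by
    by_cases h0 : energy p g = 0
    · rw [h0]; exact zero_le
    by_cases h1 : weightedSup p Ω u ^ p = 0
    · rw [h1, ENNReal.div_zero h0] at hle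
      exact absurd hle (by simp)
    by_cases h2 : weightedSup p Ω u ^ p = ∞
    · rw [h2]; exact le_top
    · have := (ENNReal.div_le_iff h1 h2).1 hle
      rwa [one_mul] at this
  have hEt : energy p g ≠ ∞ := En_ne_top hp0 hM.memLp
  set W : Set ℝ := e₀ ⁻¹' Ω with hW
  set U : ℝ → ℝ := fun t => u (0 + e₀ t) with hU
  set G : ℝ → ℝ := fun t => e₀.symm (g (0 + e₀ t)) with hG
  have hWD : WD U G := WD_of hM.grad e₀ 0
  have hGm : AEMeasurable G volume := by
    have h1 : AEStronglyMeasurable (fun t => g (0 + e₀ t)) volume :=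
      hM.memLp.1.comp_measurePreserving (ln_mp e₀ 0)
    exact (e₀.symm.continuous.comp_aestronglyMeasurable h1).aemeasurable
  set μ : Measure ℝ := volume.withDensity fun t => ‖G t‖ₑ ^ p with hμ
  have hμu : μ univ = energy p g := by
    rw [hμ, withDensity_apply _ MeasurableSet.univ, Measure.restrict_univ]
    unfold energy
    rw [← lint_line e₀ 0]
    refine lintegral_congr fun t => ?_
    simp only [G]
    rw [← ofReal_norm, LinearIsometryEquiv.norm_map, ofReal_norm]
  have hfin : IsFiniteMeasure μ := ⟨by rw [hμu]; exact lt_top_iff_ne_top.2 hEt⟩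
  have hUc : Continuous U := hM.cont.comp (continuous_const.add e₀.continuous)
  have hMo : Mo p U μ := by
    refine ⟨hUc, fun a b hab => ?_, hfin, fun x => ?_⟩
    · have h1 := oneD hUc hWD hp hGm hab
      rw [← withDensity_apply _ measurableSet_Ioo, ← hμ, ← ENNReal.ofReal_toReal
        (measure_ne_top μ (Ioo a b)), ← ENNReal.ofReal_mul (Real.rpow_nonneg (by linarith) _),
        ENNReal.ofReal_le_ofReal_iff (mul_nonneg (Real.rpow_nonneg (by linarith) _)
          ENNReal.toReal_nonneg)] at h1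
      exact h1
    · exact withDensity_absolutelyContinuous _ _ Real.volume_singleton
  have hWo : IsOpen W := ho.preimage e₀.continuous
  have hWc : IsPreconnected W := by
    have h1 : W = e₀.symm '' Ω := by
      ext t
      constructor
      · intro ht
        exact ⟨e₀ t, ht, e₀.symm_apply_apply t⟩
      · rintro ⟨x, hx, rfl⟩
        simpa [W] using hx
    rw [h1]
    exact hcon.image _ e₀.symm.continuous.continuousOn
  have hWn : Wᶜ.Nonempty := by
    obtain ⟨x, hx⟩ := nonempty_compl.2 hu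
    exact ⟨e₀.symm x, by simpa [W] using hx⟩
  have hU0 : ∀ t, t ∉ W → U t = 0 := fun t ht => hM.zero _ (by
    rw [zero_add]; exact ht)
  have hinf : ∀ t, Metric.infDist (e₀ t) Ωᶜ = Metric.infDist t Wᶜ := by
    intro t
    have h1 : Ωᶜ = e₀ '' Wᶜ := by
      rw [image_compl_eq e₀.bijective, hW, image_preimage_eq _ e₀.surjective]
    rw [h1]
    exact Metric.infDist_image e₀.isometry
  have hA : 0 < μ.real univ := by
    by_contra hcon'
    have h0 : μ.real univ = 0 := le_antisymm (not_lt.1 hcon') measureReal_nonneg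
    obtain ⟨t₀, ht₀⟩ := hWn
    have h1 := hMo.ineq' hp t₀ (e₀.symm x₁)
    have h2 : μ.real (Ioo (min t₀ (e₀.symm x₁)) (max t₀ (e₀.symm x₁))) = 0 :=
      le_antisymm ((measureReal_mono (subset_univ _)).trans h0.le) measureReal_nonneg
    rw [h2, mul_zero, hU0 t₀ ht₀, sub_zero] at h1
    have h3 : U (e₀.symm x₁) = u x₁ := by
      simp only [U]
      rw [zero_add, LinearIsometryEquiv.apply_symm_apply]
    rw [h3] at h1
    have h4 : 0 < |u x₁| ^ p := Real.rpow_pos_of_pos (abs_pos.2 hx₁) _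
    linarith
  have hsup : ∀ c, c < μ.real univ → ∃ x ∈ W, c * Metric.infDist x Wᶜ ^ (p - 1) ≤ |U x| ^ p := by
    intro c hc
    by_contra hcon'
    push Not at hcon'
    have hcl : IsClosed Wᶜ := hWo.isClosed_compl
    have hS : weightedSup p Ω u ≤ ENNReal.ofReal (max c 0) ^ (1 / p) := by
      refine iSup₂_le fun x hx => ?_
      have hxW : e₀.symm x ∈ W := by simpa [W] using hx
      have h1 := hcon' _ hxW
      have hD0 : 0 < Metric.infDist (e₀.symm x) Wᶜ :=
        (hcl.notMem_iff_infDist_pos hWn).1 (by simpa using hxW)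
      have h2 : U (e₀.symm x) = u x := by
        simp only [U]
        rw [zero_add, LinearIsometryEquiv.apply_symm_apply]
      have h3 : Metric.infDist x Ωᶜ = Metric.infDist (e₀.symm x) Wᶜ := by
        rw [← hinf, LinearIsometryEquiv.apply_symm_apply]
      rw [h2] at h1
      rw [h3, ENNReal.ofReal_rpow_of_nonneg (le_max_right _ _) (by positivity)]
      refine ENNReal.ofReal_le_ofReal ?_
      set D : ℝ := Metric.infDist (e₀.symm x) Wᶜ with hD
      have h4 : |u x| / D ^ (1 - ((1:ℕ) : ℝ) / p) = (|u x| ^ p / D ^ (p - 1)) ^ (1 / p) := by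
        rw [Real.div_rpow (by positivity) (by positivity), ← Real.rpow_mul (abs_nonneg _),
          ← Real.rpow_mul hD0.le, mul_one_div_cancel hp0.ne', Real.rpow_one]
        congr 2
        push_cast
        field_simp
      rw [h4]
      refine Real.rpow_le_rpow (by positivity) ?_ (by positivity)
      rw [div_le_iff₀ (Real.rpow_pos_of_pos hD0 _)]
      refine h1.le.trans (mul_le_mul_of_nonneg_right (le_max_left _ _) (by positivity))
    have h5 : energy p g ≤ ENNReal.ofReal (max c 0) := by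
      refine hES.trans ((ENNReal.rpow_le_rpow hS hp0.le).trans (le_of_eq ?_))
      rw [← ENNReal.rpow_mul, one_div, inv_mul_cancel₀ hp0.ne', ENNReal.rpow_one]
    have h6 : μ.real univ ≤ max c 0 := by
      rw [measureReal_def, hμu]
      exact ENNReal.toReal_le_of_le_ofReal (le_max_right _ _) h5
    rcases le_max_iff.1 h6 with h7 | h7
    · linarith
    · linarith
  obtain ⟨y, σ, d, κ, h1, h2, h3, h4, h5⟩ := form hp hMo hWo hWc hWn hU0 hA hsup
  refine ⟨y, σ, d, κ, h1, h2, h3, fun z => ?_, fun z => ?_⟩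
  · have : e₀ z ∈ Ω ↔ z ∈ W := Iff.rfl
    rw [this, h4, mem_ofPred_eq]
  · rw [← h5 z]
    simp only [U, zero_add]

end One

/-- uniqueness in dimension one -/
theorem unique_one {p : ℝ} (hp : 1 < p) : UniqueExtremals 1 p := by
  intro Ω ho hcon hne u v hu hv
  set e₀ : ℝ ≃ₗᵢ[ℝ] E 1 := (OrthonormalBasis.singleton (Fin 1) ℝ).repr with he₀
  obtain ⟨y, σ, d, κ, h1, h2, h3, h4, h5⟩ := form_one hp e₀ ho hcon.isPreconnected hne hu
  obtain ⟨y', σ', d', κ', k1, k2, k3, k4, k5⟩ := form_one hp e₀ ho hcon.isPreconnected hne hv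
  have hW : ∀ z, 0 < σ * (z - y) ↔ 0 < σ' * (z - y') := fun z => (h4 z).symm.trans (k4 z)
  have hyy : σ' = σ ∧ y' = y := by
    rcases h1 with rfl | rfl <;> rcases k1 with rfl | rfl
    · refine ⟨rfl, ?_⟩
      rcases lt_trichotomy y y' with h | h | h
      · have := (hW ((y + y') / 2)).1 (by linarith)
        linarith
      · exact h.symm
      · have := (hW ((y + y') / 2)).2 (by linarith)
        linarith
    · exfalso
      have h6 := (hW (max y y' + 1)).1 (by have := le_max_left y y'; linarith)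
      have := le_max_right y y'
      linarith
    · exfalso
      have h6 := (hW (max y y' + 1)).2 (by have := le_max_right y y'; linarith)
      have := le_max_left y y'
      linarith
    · refine ⟨rfl, ?_⟩
      rcases lt_trichotomy y y' with h | h | h
      · have := (hW ((y + y') / 2)).2 (by linarith)
        linarith
      · exact h.symm
      · have := (hW ((y + y') / 2)).1 (by linarith)
        linarith
  obtain ⟨rfl, rfl⟩ := hyy
  set r : ℝ := d / d' with hr
  have hr0 : 0 < r := by positivity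
  have hrd : r * d' = d := by rw [hr]; field_simp
  have hsym : ∀ x, e₀.symm (r • x + e₀ ((1 - r) * y')) = r * e₀.symm x + (1 - r) * y' := by
    intro x
    rw [map_add, map_smul, LinearIsometryEquiv.symm_apply_apply, smul_eq_mul]
  have hmem : ∀ x, x ∈ Ω ↔ 0 < σ' * (e₀.symm x - y') := fun x => by
    rw [← h4, LinearIsometryEquiv.apply_symm_apply]
  have hT : ∀ x, r • x + e₀ ((1 - r) * y') ∈ Ω ↔ x ∈ Ω := by
    intro x
    rw [hmem, hmem, hsym]
    have h6 : σ' * (r * e₀.symm x + (1 - r) * y' - y') = r * (σ' * (e₀.symm x - y')) := by ring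
    rw [h6]
    exact mul_pos_iff_of_pos_left hr0
  refine ⟨κ' / (κ * r), r, LinearIsometryEquiv.refl ℝ _, e₀ ((1 - r) * y'),
    div_ne_zero k3 (mul_ne_zero h3 hr0.ne'), hr0, ?_, ?_⟩
  · ext w
    constructor
    · rintro ⟨x, hx, rfl⟩
      exact (hT x).2 hx
    · intro hw
      refine ⟨r⁻¹ • (w - e₀ ((1 - r) * y')), ?_, ?_⟩
      · rw [← hT]
        simp only [smul_smul]
        rw [mul_inv_cancel₀ hr0.ne', one_smul, sub_add_cancel]
        exact hw
      · simp only [LinearIsometryEquiv.coe_refl, id, smul_smul]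
        rw [mul_inv_cancel₀ hr0.ne', one_smul, sub_add_cancel]
  · ext x
    have e1 : v x = κ' * min (max (σ' * (e₀.symm x - y')) 0) d' := by
      rw [← k5, LinearIsometryEquiv.apply_symm_apply]
    have e2 : u (r • x + e₀ ((1 - r) * y')) =
        κ * min (max (σ' * (r * e₀.symm x + (1 - r) * y' - y')) 0) d := by
      rw [← hsym, ← h5, LinearIsometryEquiv.apply_symm_apply]
    simp only [LinearIsometryEquiv.coe_refl, id]
    rw [e1, e2]
    have e3 : σ' * (r * e₀.symm x + (1 - r) * y' - y') = r * (σ' * (e₀.symm x - y')) := by ring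
    rw [e3, ← hrd]
    have e4 : max (r * (σ' * (e₀.symm x - y'))) 0 = r * max (σ' * (e₀.symm x - y')) 0 := by
      rw [mul_max_of_nonneg _ _ hr0.le, mul_zero]
    rw [e4, ← mul_min_of_nonneg _ _ hr0.le]
    field_simp

/-- non-uniqueness in dimension at least two, for all exponents -/
theorem nonunique (n : ℕ) (hn : 2 ≤ n) (p : ℝ) (hp : (n : ℝ) < p) (e : E n) (he : ‖e‖ = 1) :
    ∃ a b : ℝ, 0 < a ∧ a ≤ 1 / 16 ∧ 0 < b ∧ b ≤ 1 / 16 ∧
      ∃ Ω : Set (E n),
        Ω = Metric.ball 0 1 \ (Metric.closedBall 0 a ∪ Metric.closedBall ((1 / 2 : ℝ) • e) b) ∧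
        IsOpen Ω ∧ IsConnected Ω ∧ Ω ≠ univ ∧
        ∃ u v : E n → ℝ, IsExtremal p Ω u ∧ IsExtremal p Ω v ∧
          ∀ (c r : ℝ) (Q : E n ≃ₗᵢ[ℝ] E n) (t : E n), c ≠ 0 → 0 < r →
            (fun x => r • Q x + t) '' Ω = Ω → v ≠ fun x => c * u (r • Q x + t) := by
  have hn1 : 1 ≤ n := by omega
  have hn0 : (2:ℝ) ≤ n := by exact_mod_cast hn
  have hp0 : 0 < p := by linarith
  have hp1 : 1 < p := by linarith
  obtain ⟨ε, s, hε, hε1, hs0, hs1, ⟨u, U, x, hu, hFu, hx⟩, ⟨v, V, y, hv, hFv, hy⟩⟩ :=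
    Pool.Agent.H72.HM.exists_two' (e := e) hn hp he
  have hε16 : ε ≤ 1 / 16 := by linarith
  -- a vector orthogonal to `e`
  obtain ⟨f, hf, hfe⟩ : ∃ f : E n, ‖f‖ = 1 ∧ ⟪f, e⟫ = (0:ℝ) := by
    have hlt : Module.finrank ℝ (Submodule.span ℝ {e}) < Module.finrank ℝ (E n) := by
      rw [finrank_span_singleton (by intro h0; rw [h0, norm_zero] at he; exact zero_ne_one he),
        finrank_euclideanSpace_fin]
      omega
    have hne : (Submodule.span ℝ {e})ᗮ ≠ ⊥ := by
      intro hbot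
      rw [Submodule.orthogonal_eq_bot_iff] at hbot
      rw [hbot, finrank_top] at hlt
      exact lt_irrefl _ hlt
    obtain ⟨w, hw, hw0⟩ := Submodule.exists_mem_ne_zero_of_ne_bot hne
    have hw' : ⟪w, e⟫ = (0:ℝ) := by
      rw [real_inner_comm]
      exact (Submodule.mem_orthogonal_singleton_iff_inner_right).1 hw
    refine ⟨‖w‖⁻¹ • w, ?_, ?_⟩
    · rw [norm_smul, norm_inv, norm_norm, inv_mul_cancel₀ (norm_ne_zero_iff.2 hw0)]
    · rw [inner_smul_left, hw', mul_zero]
  have hA := le_rA (ε := ε) (s := s)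
  have hB := le_rB (ε := ε) (s := s)
  refine ⟨rA ε s, rB ε s, by linarith, rA_le hε16 hs0, by linarith, rB_le hε16 hs1,
    Om e ε s, Om_eq, isOpen_Om, isConnected_Om hn he hf hfe hε hε16 hs0 hs1, ?_, u, v,
    isExtremal hn1 hp hε hu hFu, isExtremal hn1 hp hε hv hFv, ?_⟩
  · intro huniv
    have h0 : (0 : E n) ∈ Om e ε s := by rw [huniv]; trivial
    have h1 : 0 < DD e ε s (0 : E n) := h0
    have h2 := DD_leA (e := e) (ε := ε) (s := s) (x := (0 : E n))
    rw [norm_zero] at h2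
    linarith
  intro c r Q t hc hr hT hvu
  obtain ⟨rfl, rfl⟩ := sim_eq he hε16 hs0 hs1 hr Q t hT
  simp only [one_smul, add_zero] at hT hvu
  -- finiteness and positivity of `lam`
  have hlt : lam p e ε s ≠ ∞ := by
    refine ((lam_le hu).trans_lt ?_).ne
    unfold FF
    exact ENNReal.mul_lt_top ENNReal.ofReal_lt_top (En_ne_top hp0 hu.fe.h0.mU).lt_top
  have hl0 : lam p e ε s ≠ 0 := by
    intro h0
    rw [h0, nonpos_iff_eq_zero] at hFu
    unfold FF at hFu
    have hE0 : En p U = 0 := by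
      rcases mul_eq_zero.1 hFu with h | h
      · exact absurd h (ENNReal.ofReal_pos.2 (Real.rpow_pos_of_pos hu.pos _)).ne'
      · exact h
    obtain ⟨K, hK, hmor⟩ := morreyR hn1 hp
    have h3 := hmor u U hu.fe 0 le_rfl (by rw [hE0]; exact zero_le) x e
    rw [mul_zero, Real.zero_rpow (by positivity), mul_zero, hu.one, hu.fe.out e he.ge, sub_zero,
      abs_one] at h3
    linarith
  -- the second peak
  set z : E n := Q.symm x with hzdef
  have hQz : Q z = x := Q.apply_symm_apply x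
  have hxΩ : x ∈ Om e ε s := hu.pos
  have hzΩ : z ∈ Om e ε s := by
    rw [← hT] at hxΩ
    obtain ⟨w, hw, hwx⟩ := hxΩ
    have : w = z := by
      apply Q.injective
      rw [hQz]; exact hwx
    rwa [← this]
  have hzn : ‖z‖ = ‖x‖ := by rw [hzdef, Q.symm.norm_map]
  have hDz : DD e ε s z = DD e ε s x := by
    rw [← infDist_Om hε hzΩ, ← infDist_Om hε hu.pos]
    have h3 : (Q : E n → E n) '' (Om e ε s)ᶜ = (Om e ε s)ᶜ := by
      rw [image_compl_eq Q.bijective, hT]
    have h4 := Metric.infDist_image (Φ := (Q : E n → E n)) (x := z) (t := (Om e ε s)ᶜ) Q.isometry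
    rw [h3, hQz] at h4
    exact h4.symm
  have hH : H0 p volume univ v (fun w => c • Q.symm (U (Q w))) := by
    rw [hvu]
    exact (H0_comp_isom Q hu.fe.h0).const_mul c
  have hEV : En p V = ENNReal.ofReal (|c| ^ p) * En p U := by
    rw [En_congr (H0_grad_unique hp1 hv.fe.h0 hH), En_smul hp0 c (fun w => Q.symm (U (Q w)))]
    congr 1
    rw [En_eq hp0, En_eq hp0]
    congr 1
    have h3 : eLpNorm (fun w => Q.symm (U (Q w))) (ENNReal.ofReal p) volume =
        eLpNorm (fun w => U (Q w)) (ENNReal.ofReal p) volume :=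
      eLpNorm_congr_norm_ae (Eventually.of_forall fun w => Q.symm.norm_map _)
    rw [h3]
    exact eLpNorm_comp_measurePreserving hu.fe.h0.mU.1 Q.measurePreserving
  have hvz : v z = c := by
    rw [hvu]
    simp only
    rw [hQz, hu.one, mul_one]
  have hyz : z ≠ y := by
    intro h3
    rw [h3] at hzn
    have h4 : ‖(1 / 2 : ℝ) • e‖ = 1 / 2 := by
      rw [norm_smul, he, Real.norm_eq_abs, abs_of_pos (by norm_num), mul_one]
    have h5 := norm_sub_norm_le ((1 / 2 : ℝ) • e) y
    rw [norm_sub_rev] at h5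
    linarith
  refine unique_peak hn hp hv.fe hv.zero hlt hl0 (x := z) (y := y) (by rw [hDz]; exact hu.pos)
    hv.pos hyz (by rw [hvz]; exact hc) ?_ ?_
  · unfold FF at hFu ⊢
    rw [hDz, hEV, hvz]
    calc ENNReal.ofReal (DD e ε s x ^ (p - n)) * (ENNReal.ofReal (|c| ^ p) * En p U)
        = ENNReal.ofReal (DD e ε s x ^ (p - n)) * En p U * ENNReal.ofReal (|c| ^ p) := by ring
      _ ≤ lam p e ε s * ENNReal.ofReal (|c| ^ p) := mul_le_mul_left hFu _
  · rw [hv.one, abs_one, Real.one_rpow, ENNReal.ofReal_one, mul_one]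
    exact hFv

end Pool.Agent.H72.HM
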