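import Pool.Agent.H72.HM.C1

set_option autoImplicit false

/-!
The extremals in dimension one.
-/

open MeasureTheory Filter Topology Set
open scoped ENNReal NNReal RealInnerProductSpace

namespace Pool.Agent.H72.HM

open Pool.Agent.H68R3
open Pool.Agent.Helper533.Polar (H0 Cc)

variable {p : ℝ} {Ω : Set (E 1)}

theorem quot_one (hp : 1 < p) {a d : ℝ} (hd : 0 < d) :
    ENNReal.ofReal (|a| / d ^ (1 - ((1:ℕ) : ℝ) / p)) ^ p = ENNReal.ofReal (|a| ^ p / d ^ (p - 1)) := by
  have hp0 : 0 < p := by linarith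
  rw [ENNReal.ofReal_rpow_of_nonneg (by positivity) hp0.le, Real.div_rpow (abs_nonneg _)
    (by positivity), ← Real.rpow_mul hd.le]
  congr 3
  push_cast
  field_simp

/-- in dimension one the Hardy-Morrey constant is at least one -/
theorem one_le_hardyMorrey (hp : 1 < p) (ho : IsOpen Ω) (hu : Ω ≠ univ) : 1 ≤ hardyMorrey p Ω := by
  have hp0 : 0 < p := by linarith
  have hc : (Ωᶜ).Nonempty := nonempty_compl.2 hu
  have hcl : IsClosed Ωᶜ := ho.isClosed_compl
  refine le_iInf₂ fun u g => le_iInf₂ fun hM hu0 => ?_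
  have hEt : energy p g ≠ ∞ := En_ne_top hp0 hM.memLp
  have hS : weightedSup p Ω u ^ p ≤ energy p g := by
    have h1 : weightedSup p Ω u ≤ energy p g ^ (1 / p) := by
      refine iSup₂_le fun x hx => ?_
      obtain ⟨y, hy, hyd⟩ := hcl.exists_infDist_eq_dist hc x
      have hd0' : 0 < Metric.infDist x Ωᶜ := (hcl.notMem_iff_infDist_pos hc).1 (by simpa using hx)
      rw [dist_eq_norm] at hyd
      rw [hyd] at hd0' ⊢
      set d : ℝ := ‖x - y‖ with hd
      obtain ⟨e, he⟩ := exists_line (o₁ := d⁻¹ • (x - y)) (by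
        rw [norm_smul, norm_inv, Real.norm_eq_abs, abs_of_pos hd0', ← hd, inv_mul_cancel₀ hd0'.ne'])
      have hed : e d = x - y := by
        have h1 : e d = d • e 1 := by rw [← map_smul, smul_eq_mul, mul_one]
        rw [h1, he, smul_smul, mul_inv_cancel₀ hd0'.ne', one_smul]
      have hGm : AEMeasurable (fun t => e.symm (g (y + e t))) volume := by
        have h1 : AEStronglyMeasurable (fun t => g (y + e t)) volume :=
          hM.memLp.1.comp_measurePreserving (ln_mp e y)
        exact (e.symm.continuous.comp_aestronglyMeasurable h1).aemeasurable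
      have hcU : Continuous fun t => u (y + e t) :=
        hM.cont.comp (continuous_const.add e.continuous)
      have h2 := oneD (U := fun t => u (y + e t)) hcU (WD_of hM.grad e y) hp hGm hd0'
      have h3 : ∫⁻ t in Ioo 0 d, ‖e.symm (g (y + e t))‖ₑ ^ p ≤ energy p g := by
        refine (setLIntegral_le_lintegral _ _).trans (le_of_eq ?_)
        unfold energy
        rw [← lint_line e y]
        refine lintegral_congr fun t => ?_
        rw [← ofReal_norm, LinearIsometryEquiv.norm_map, ofReal_norm]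
      simp only [map_zero, add_zero, hed, add_sub_cancel, sub_zero] at h2
      rw [hM.zero y hy, sub_zero] at h2
      have h4 : ENNReal.ofReal (|u x| ^ p / d ^ (p - 1)) ≤ energy p g := by
        have hdp : 0 < d ^ (p - 1) := Real.rpow_pos_of_pos hd0' _
        rw [ENNReal.ofReal_div_of_pos hdp]
        refine ENNReal.div_le_of_le_mul' (h2.trans (mul_le_mul_right h3 _))
      rw [← quot_one hp hd0'] at h4
      have h5 := ENNReal.rpow_le_rpow h4 (z := 1 / p) (by positivity)
      rwa [← ENNReal.rpow_mul, mul_one_div_cancel hp0.ne', ENNReal.rpow_one] at h5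
    have h2 := ENNReal.rpow_le_rpow h1 hp0.le
    rwa [← ENNReal.rpow_mul, one_div, inv_mul_cancel₀ hp0.ne', ENNReal.rpow_one] at h2
  have hS0 : weightedSup p Ω u ^ p ≠ 0 := by
    obtain ⟨x, hx⟩ : ∃ x, u x ≠ 0 := by
      by_contra h
      push Not at h
      exact hu0 (funext h)
    have hxΩ : x ∈ Ω := by
      by_contra h
      exact hx (hM.zero x h)
    have hd0' : 0 < Metric.infDist x Ωᶜ := (hcl.notMem_iff_infDist_pos hc).1 (by simpa using hxΩ)
    have h1 : ENNReal.ofReal (|u x| / Metric.infDist x Ωᶜ ^ (1 - ((1:ℕ) : ℝ) / p)) ≤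
        weightedSup p Ω u := by
      unfold weightedSup
      exact le_iSup₂ (f := fun z (_ : z ∈ Ω) =>
        ENNReal.ofReal (|u z| / Metric.infDist z Ωᶜ ^ (1 - ((1:ℕ) : ℝ) / p))) _ hxΩ
    have h2 : 0 < weightedSup p Ω u := by
      refine lt_of_lt_of_le (ENNReal.ofReal_pos.2 ?_) h1
      have := abs_pos.2 hx
      positivity
    exact (ENNReal.rpow_pos_of_nonneg h2 hp0.le).ne'
  rw [ENNReal.le_div_iff_mul_le (Or.inl hS0) (Or.inr hEt), one_mul]
  exact hS

/-- half-lines -/
theorem infDist_half (e : ℝ ≃ₗᵢ[ℝ] E 1) {y : E 1} (hΩ : ∀ x, x ∈ Ω ↔ 0 < e.symm (x - y)) (x : E 1) :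
    Metric.infDist x Ωᶜ = max (e.symm (x - y)) 0 := by
  have hy : y ∈ Ωᶜ := by
    rw [mem_compl_iff, hΩ, sub_self, map_zero]
    exact lt_irrefl _
  by_cases hx : x ∈ Ω
  · have hx' := (hΩ x).1 hx
    rw [max_eq_left hx'.le]
    refine le_antisymm ?_ ((Metric.le_infDist ⟨y, hy⟩).2 fun w hw => ?_)
    · refine (Metric.infDist_le_dist_of_mem hy).trans (le_of_eq ?_)
      rw [dist_eq_norm, ← e.symm.norm_map, Real.norm_eq_abs, abs_of_pos hx']
    · rw [mem_compl_iff, hΩ, not_lt] at hw
      rw [dist_eq_norm, ← e.symm.norm_map, Real.norm_eq_abs]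
      refine le_trans ?_ (le_abs_self _)
      rw [show x - w = (x - y) - (w - y) by abel, map_sub e.symm (x - y) (w - y)]
      linarith
  · rw [Metric.infDist_zero_of_mem (by simpa using hx)]
    rw [hΩ, not_lt] at hx
    rw [max_eq_right hx]

/-- the extremals of half-lines -/
theorem isExtremal_half (hp : 1 < p) (e : ℝ ≃ₗᵢ[ℝ] E 1) {y : E 1}
    (hΩ : ∀ x, x ∈ Ω ↔ 0 < e.symm (x - y)) {κ d : ℝ} (hκ : κ ≠ 0) (hd : 0 < d) {u : E 1 → ℝ}
    (hu : ∀ x, u x = κ * min (Metric.infDist x Ωᶜ) d) : IsExtremal p Ω u := by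
  have hp0 : 0 < p := by linarith
  have hy : y ∉ Ω := by
    rw [hΩ, sub_self, map_zero]
    exact lt_irrefl _
  have ho : IsOpen Ω := by
    have : Ω = {x | 0 < e.symm (x - y)} := by ext x; exact hΩ x
    rw [this]
    exact isOpen_lt continuous_const (e.symm.continuous.comp (continuous_id.sub continuous_const))
  have hne : Ω ≠ univ := fun h => hy (h ▸ mem_univ y)
  have hloc : ∀ c : ℝ, LocallyIntegrable ((Ioi c).indicator fun _ => (1:ℝ)) volume := fun c =>
    (locallyIntegrable_const 1).indicator measurableSet_Ioi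
  have hcont : ∀ c : ℝ, Continuous fun t : ℝ => max (t - c) 0 := fun c => by fun_prop
  have w1 := WD.add (WD_ramp 0) (WD_ramp d) (hcont 0) (hcont d) (hloc 0) (hloc d) κ (-κ)
  set T : ℝ → ℝ := fun t => κ * max (t - 0) 0 + -κ * max (t - d) 0 with hT
  set G : ℝ → ℝ := fun t => κ * (Ioi (0:ℝ)).indicator (fun _ => (1:ℝ)) t +
    -κ * (Ioi d).indicator (fun _ => (1:ℝ)) t with hG
  have hTv : ∀ t, T t = κ * min (max t 0) d := by
    intro t
    simp only [T, sub_zero]
    rcases le_or_gt t 0 with h | h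
    · rw [max_eq_right h, max_eq_right (by linarith), min_eq_left hd.le]; ring
    · rcases le_or_gt t d with h1 | h1
      · rw [max_eq_left h.le, max_eq_right (by linarith), min_eq_left h1]; ring
      · rw [max_eq_left h.le, max_eq_left (by linarith), min_eq_right h1.le]; ring
  have huT : u = fun x => T (e.symm (x - y)) := by
    ext x
    rw [hu, hTv, infDist_half e hΩ]
  have hGm : Measurable G := by
    have hm : ∀ c : ℝ, Measurable ((Ioi c).indicator fun _ => (1:ℝ)) := fun c =>
      measurable_const.indicator measurableSet_Ioi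
    exact ((hm 0).const_mul _).add ((hm d).const_mul _)
  have hTc : Continuous T := ((hcont 0).const_mul _).add ((hcont d).const_mul _)
  set g : E 1 → E 1 := fun z => e (G (e.symm (z - y))) with hg
  have hen : energy p g ≤ ENNReal.ofReal (|κ| ^ p * d) := by
    have h1 : energy p g = ∫⁻ t, ‖G t‖ₑ ^ p := by
      unfold energy
      rw [← lint_line e y]
      refine lintegral_congr fun t => ?_
      simp only [g]
      rw [add_sub_cancel_left, LinearIsometryEquiv.symm_apply_apply, ← ofReal_norm,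
        LinearIsometryEquiv.norm_map, ofReal_norm]
    have h2 : ∀ t, ‖G t‖ₑ ^ p ≤ (Ioc 0 d).indicator (fun _ => ENNReal.ofReal (|κ| ^ p)) t := by
      intro t
      simp only [G]
      rcases le_or_gt t 0 with h0 | h0
      · rw [indicator_of_notMem (by simpa using h0), indicator_of_notMem (by
          simp only [mem_Ioi, not_lt]; linarith)]
        simp [hp0]
      rcases le_or_gt t d with h1 | h1
      · rw [indicator_of_mem (show t ∈ Ioi (0:ℝ) from h0), indicator_of_notMem (by
          simpa using h1), indicator_of_mem (show t ∈ Ioc 0 d from ⟨h0, h1⟩), mul_one, mul_zero,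
          add_zero, Real.enorm_eq_ofReal_abs, ENNReal.ofReal_rpow_of_nonneg (abs_nonneg _) hp0.le]
      · rw [indicator_of_mem (show t ∈ Ioi (0:ℝ) from h0),
          indicator_of_mem (show t ∈ Ioi d from h1)]
        rw [show κ * 1 + -κ * 1 = 0 by ring, enorm_zero, ENNReal.zero_rpow_of_pos hp0]
        exact zero_le
    rw [h1]
    refine (lintegral_mono h2).trans (le_of_eq ?_)
    rw [lintegral_indicator measurableSet_Ioc, setLIntegral_const, Real.volume_Ioc, sub_zero,
      ← ENNReal.ofReal_mul (by positivity)]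
  have hgm : Measurable g := e.continuous.measurable.comp (hGm.comp
    (e.symm.continuous.measurable.comp (measurable_id.sub_const y)))
  have hM : MemD0 p Ω u g := by
    refine ⟨?_, ?_,
      memLp_of_energy hp hgm.aestronglyMeasurable (ne_top_of_le_ne_top ENNReal.ofReal_ne_top hen),
      fun z hz => ?_⟩
    · rw [huT]
      exact hTc.comp (e.symm.continuous.comp (continuous_id.sub continuous_const))
    · rw [huT]
      exact fun φ hφ hφc => of_WD w1 e y hφ hφc
    · rw [hu, Metric.infDist_zero_of_mem (by simpa using hz), min_eq_left hd.le, mul_zero]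
  have hx : y + e d ∈ Ω := by
    rw [hΩ, add_sub_cancel_left, LinearIsometryEquiv.symm_apply_apply]
    exact hd
  have hix : Metric.infDist (y + e d) Ωᶜ = d := by
    rw [infDist_half e hΩ, add_sub_cancel_left, LinearIsometryEquiv.symm_apply_apply,
      max_eq_left hd.le]
  have hux : u (y + e d) = κ * d := by rw [hu, hix, min_self]
  have hu0 : u ≠ 0 := by
    intro h1
    rw [h1] at hux
    exact mul_ne_zero hκ hd.ne' hux.symm
  have hsup : ENNReal.ofReal (|κ| ^ p * d) ≤ weightedSup p Ω u ^ p := by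
    have h1 : ENNReal.ofReal (|u (y + e d)| / Metric.infDist (y + e d) Ωᶜ ^ (1 - ((1:ℕ) : ℝ) / p)) ≤
        weightedSup p Ω u := by
      unfold weightedSup
      exact le_iSup₂ (f := fun z (_ : z ∈ Ω) =>
        ENNReal.ofReal (|u z| / Metric.infDist z Ωᶜ ^ (1 - ((1:ℕ) : ℝ) / p))) _ hx
    have h2 := ENNReal.rpow_le_rpow h1 hp0.le
    rw [hix, quot_one hp hd, hux] at h2
    refine le_trans (le_of_eq ?_) h2
    congr 1
    rw [abs_mul, abs_of_pos hd, Real.mul_rpow (abs_nonneg _) hd.le, mul_div_assoc,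
      ← Real.rpow_sub hd, show p - (p - 1) = 1 by ring, Real.rpow_one]
  refine ⟨hu0, g, hM, le_antisymm ?_ (iInf₂_le_of_le u g (iInf₂_le_of_le hM hu0 le_rfl))⟩
  refine le_trans ?_ (one_le_hardyMorrey hp ho hne)
  have hpos : (0 : ℝ≥0∞) < ENNReal.ofReal (|κ| ^ p * d) := by
    have := abs_pos.2 hκ
    exact ENNReal.ofReal_pos.2 (by positivity)
  calc energy p g / weightedSup p Ω u ^ p
      ≤ ENNReal.ofReal (|κ| ^ p * d) / ENNReal.ofReal (|κ| ^ p * d) := ENNReal.div_le_div hen hsup
    _ = 1 := ENNReal.div_self hpos.ne' ENNReal.ofReal_ne_top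

/-- classification of the extremals in dimension one -/
theorem class_one (hp : 1 < p) (ho : IsOpen Ω) (hcon : IsConnected Ω) (hne : Ω ≠ univ)
    (u : E 1 → ℝ) : IsExtremal p Ω u ↔
      (∃ y w : E 1, ‖w‖ = 1 ∧ Ω = {x | 0 < ⟪x - y, w⟫}) ∧
        ∃ κ d : ℝ, κ ≠ 0 ∧ 0 < d ∧ ∀ x, u x = κ * min (Metric.infDist x Ωᶜ) d := by
  constructor
  · intro hu
    obtain ⟨e₀, -⟩ := exists_line (o₁ := EuclideanSpace.single (0 : Fin 1) (1:ℝ)) (by simp)
    obtain ⟨y, σ, d, κ, h1, h2, h3, h4, h5⟩ := form_one hp e₀ ho hcon.isPreconnected hne hu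
    have hσ : |σ| = 1 := by rcases h1 with rfl | rfl <;> simp
    obtain ⟨e, he⟩ := exists_line (o₁ := e₀ σ) (by
      rw [LinearIsometryEquiv.norm_map, Real.norm_eq_abs, hσ])
    have hin : ∀ x : E 1, ⟪x - e₀ y, e₀ σ⟫ = σ * (e₀.symm x - y) := by
      intro x
      have h6 : x - e₀ y = e₀ (e₀.symm x - y) := by
        rw [map_sub, LinearIsometryEquiv.apply_symm_apply]
      rw [h6, LinearIsometryEquiv.inner_map_map]
      simp
    have hes : ∀ x : E 1, e.symm (x - e₀ y) = σ * (e₀.symm x - y) := by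
      intro x
      rw [← inner_e, he, real_inner_comm, hin]
    have hΩ : ∀ x, x ∈ Ω ↔ 0 < e.symm (x - e₀ y) := by
      intro x
      rw [hes, ← h4, LinearIsometryEquiv.apply_symm_apply]
    refine ⟨⟨e₀ y, e₀ σ, by rw [LinearIsometryEquiv.norm_map, Real.norm_eq_abs, hσ], ?_⟩,
      κ, d, h3, h2, fun x => ?_⟩
    · ext x
      rw [mem_ofPred_eq, hΩ, hes, hin]
    · rw [infDist_half e hΩ, hes, ← h5, LinearIsometryEquiv.apply_symm_apply]
  · rintro ⟨⟨y, w, hw, hΩ⟩, κ, d, hκ, hd, hu⟩
    obtain ⟨e, he⟩ := exists_line (o₁ := w) hw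
    refine isExtremal_half hp e (y := y) (fun x => ?_) hκ hd hu
    rw [hΩ, mem_ofPred_eq, ← inner_e, he, real_inner_comm]

end Pool.Agent.H72.HM
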